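import Pool.Agent.ST5.P.B4

/-!
ST5 row B5. A complete finite system of simple objects exists in finite depth.

PROOF. Consider the k ≥ 1 for which there are n : Fin k → ℕ, p : Fin k → T, simple, pairwise without
nonzero morphisms, with n 0 = 0, p 0 = z. k = 1 works: z is simple at level 0 (`IsProj_z 0`, z ≠ 0, and
x ∈ H 0 0 gives z x z = z x = (zc x) z by `zc_spec`). By `classes_bounded` there is a largest such k
(`Nat.findGreatest` or induction). J := Fin k. Maximality: for every simple e at level n there are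
i and a nonzero x ∈ Hom(p i, e) (otherwise append e; Hom(e, p i) = 0 too, by taking stars).
`exists_fam`: P = ∑ e l (`exists_decomp`), for each l choose i(l) and, by `schur`, v l ∈ Hom(p (i l), e l)
with star v v = p, v star v = e l. For j the index set is {l // i l = j} ≃ Fin (card)
(`Fintype.equivFin`), v j s := v l. mem: P v l = P e l v l = e l v l = v l. orth: for l ≠ l' (same j),
star (v l) * v l' = star (v l) e l e l' v l' = 0. complete: ∑_j ∑_{l : i l = j} e l = ∑ e l = P
(`Finset.sum_fiberwise`, sigma reindexing).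
-/

namespace Pool.Agent.ST5

namespace SubfactorPlanarAlgebra

variable {T : Type*} [Ring T] [StarRing T] [Algebra ℂ T] [StarModule ℂ T]
  {S : SubfactorPlanarAlgebra T}

theorem B5_simple_z : S.IsSimple 0 S.z where
  toIsProj := IsProj_z 0
  ne_zero := S.z_ne_zero
  scalar := by
    intro x hx
    refine ⟨S.zc x, ?_⟩
    rw [zc_spec hx, smul_mul_assoc, S.z_mul]

variable (S) in
/-- `k + 1` simple objects without morphisms, the first one is `z` -/
def B5_PF (k : ℕ) : Prop := ∃ (n : Fin (k + 1) → ℕ) (p : Fin (k + 1) → T),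
  (∀ i, S.IsSimple (n i) (p i)) ∧
  (∀ i j, i ≠ j → ∀ x ∈ S.Hom (n i) (p i) (n j) (p j), x = 0) ∧ n 0 = 0 ∧ p 0 = S.z

theorem B5_zero : B5_PF S 0 := by
  refine ⟨fun _ => 0, fun _ => S.z, fun _ => B5_simple_z, ?_, rfl, rfl⟩
  intro i j hij
  exact absurd (Fin.ext (by omega)) hij

theorem B5_succ {k : ℕ} {n : Fin (k + 1) → ℕ} {p : Fin (k + 1) → T}
    (hs : ∀ i, S.IsSimple (n i) (p i))
    (ho : ∀ i j, i ≠ j → ∀ x ∈ S.Hom (n i) (p i) (n j) (p j), x = 0) (h0 : n 0 = 0)
    (hz : p 0 = S.z) {N : ℕ} {e : T} (he : S.IsSimple N e)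
    (hh : ∀ i, ∀ x ∈ S.Hom (n i) (p i) N e, x = 0) : B5_PF S (k + 1) := by
  refine ⟨Fin.snoc (α := fun _ => ℕ) n N, Fin.snoc (α := fun _ => T) p e, ?_, ?_, ?_, ?_⟩
  · intro i
    induction i using Fin.lastCases with
    | last => rw [Fin.snoc_last, Fin.snoc_last]; exact he
    | cast i => rw [Fin.snoc_castSucc, Fin.snoc_castSucc]; exact hs i
  · intro i j
    induction i using Fin.lastCases with
    | last =>
      induction j using Fin.lastCases with
      | last => intro h; exact absurd rfl h
      | cast j =>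
        intro _ x hx
        rw [Fin.snoc_last, Fin.snoc_last, Fin.snoc_castSucc, Fin.snoc_castSucc] at hx
        have h1 := hh j (star x) (Hom_star he.star_eq (hs j).star_eq hx)
        rw [← star_star x, h1, star_zero]
    | cast i =>
      induction j using Fin.lastCases with
      | last =>
        intro _ x hx
        rw [Fin.snoc_last, Fin.snoc_last, Fin.snoc_castSucc, Fin.snoc_castSucc] at hx
        exact hh i x hx
      | cast j =>
        intro hij x hx
        rw [Fin.snoc_castSucc, Fin.snoc_castSucc, Fin.snoc_castSucc, Fin.snoc_castSucc] at hx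
        exact ho i j (fun h => hij (by rw [h])) x hx
  · have : (0 : Fin (k + 1 + 1)) = Fin.castSucc 0 := rfl
    rw [this, Fin.snoc_castSucc]
    exact h0
  · have : (0 : Fin (k + 1 + 1)) = Fin.castSucc 0 := rfl
    rw [this, Fin.snoc_castSucc]
    exact hz

/-- the complete family of a projection -/
theorem B5_fam {J : Type} [Fintype J] [DecidableEq J] {a : J → ℕ} {p : J → T}
    (hs : ∀ i, S.IsSimple (a i) (p i))
    (hmax : ∀ (N : ℕ) (e : T), S.IsSimple N e → ∃ i, ∃ x ∈ S.Hom (a i) (p i) N e, x ≠ 0)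
    {N : ℕ} {P : T} (hP : S.IsProj N P) : ∃ (k : J → ℕ) (v : ∀ j, Fin (k j) → T),
    S.CFam a p N P (fun j => Fin (k j)) v := by
  classical
  obtain ⟨K, e, he, horth, hsum⟩ := exists_decomp hP
  have hch : ∀ l : Fin K, ∃ i : J, ∃ v ∈ S.Hom (a i) (p i) N (e l), star v * v = p i ∧
      v * star v = e l := by
    intro l
    obtain ⟨i, x, hx, hx0⟩ := hmax N (e l) (he l)
    obtain ⟨v, hv, h1, h2, -⟩ := schur (hs i) (he l) hx hx0
    exact ⟨i, v, hv, h1, h2⟩
  choose i v hv h1 h2 using hch
  let E : ∀ j : J, Fin (Fintype.card {l : Fin K // i l = j}) ≃ {l : Fin K // i l = j} :=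
    fun j => (Fintype.equivFin {l : Fin K // i l = j}).symm
  refine ⟨fun j => Fintype.card {l : Fin K // i l = j}, fun j s => v (E j s).1, ?_⟩
  have hPe : ∀ l, P * e l = e l := by
    intro l
    rw [← hsum, Finset.sum_mul, Finset.sum_eq_single l]
    · exact (he l).idem
    · intro b _ hb
      exact horth b l hb
    · intro h
      exact absurd (Finset.mem_univ l) h
  refine ⟨?_, ?_, ?_⟩
  · intro j s
    have hj : i (E j s).1 = j := (E j s).2
    have h3 := hv (E j s).1
    rw [hj] at h3
    refine ⟨h3.1, ?_, h3.2.2⟩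
    calc P * v (E j s).1 = P * (e (E j s).1 * v (E j s).1) := by rw [h3.2.1]
      _ = e (E j s).1 * v (E j s).1 := by rw [← mul_assoc, hPe]
      _ = v (E j s).1 := h3.2.1
  · intro j s t
    have hj : i (E j s).1 = j := (E j s).2
    by_cases hst : s = t
    · rw [if_pos hst, ← hst, h1, hj]
    · rw [if_neg hst]
      have hne : (E j s).1 ≠ (E j t).1 := by
        intro h
        exact hst ((E j).injective (Subtype.ext h))
      have e1 : star (v (E j s).1) = star (v (E j s).1) * e (E j s).1 := by
        conv_lhs => rw [← (hv (E j s).1).2.1]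
        rw [star_mul, (he _).star_eq]
      have e2 : v (E j t).1 = e (E j t).1 * v (E j t).1 := ((hv (E j t).1).2.1).symm
      rw [e1, e2, mul_assoc, ← mul_assoc (e (E j s).1), horth _ _ hne, zero_mul, mul_zero]
  · have h3 : ∀ j : J, ∑ s, v (E j s).1 * star (v (E j s).1) = ∑ l : {l : Fin K // i l = j}, e l.1 := by
      intro j
      rw [← Equiv.sum_comp (E j) (fun l : {l : Fin K // i l = j} => e l.1)]
      apply Finset.sum_congr rfl
      intro s _
      exact h2 _
    rw [Finset.sum_congr rfl (fun j _ => h3 j), Fintype.sum_fiberwise i e]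
    exact hsum

theorem exists_system (h : S.FiniteDepth) : Nonempty S.SimpleSystem := by
  obtain ⟨B, hB⟩ := classes_bounded h
  have hmaxk : ∃ k, B5_PF S k ∧ ¬ B5_PF S (k + 1) := by
    by_contra hcon
    have hstep : ∀ k, B5_PF S k → B5_PF S (k + 1) := by
      intro k hk
      by_contra hk'
      exact hcon ⟨k, hk, hk'⟩
    have hall : ∀ k, B5_PF S k := by
      intro k
      induction k with
      | zero => exact B5_zero
      | succ k ih => exact hstep k ih
    obtain ⟨n, p, hs, ho, -, -⟩ := hall B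
    have := hB (B + 1) n p hs ho
    omega
  obtain ⟨k, ⟨n, p, hs, ho, h0, hz⟩, hk⟩ := hmaxk
  have hmax : ∀ (N : ℕ) (e : T), S.IsSimple N e → ∃ i, ∃ x ∈ S.Hom (n i) (p i) N e, x ≠ 0 := by
    intro N e he
    by_contra hcon
    apply hk
    apply B5_succ hs ho h0 hz he
    intro i x hx
    by_contra hx0
    exact hcon ⟨i, x, hx, hx0⟩
  refine ⟨⟨Fin (k + 1), n, p, hs, ho, 0, h0, hz, ?_⟩⟩
  intro N P hP
  exact B5_fam hs hmax hP

end SubfactorPlanarAlgebra

end Pool.Agent.ST5
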