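import Pool.Agent.ST5.P.Sys

/-!
ST5 row C2. Symmetry of the principal graph (Frobenius reciprocity), parity.

PROOF. For x ∈ Hom(p j, p i at level a i + 1), x ∈ H (a j) (a i + 1), put
 β(x) = star x * rp (a i) r. Types: rp (a i) r ∈ H (a i) (a i + 2), star x ∈ H (a i + 1) (a j), padded to
H (a i + 2) (a j + 1). So β(x) ∈ H (a i) (a j + 1); p j * β(x) = β(x) and β(x) * p i = β(x)
(star x * p i = star x, and p i commutes with rp (a i) r by `inter`). β is additive and conjugate
linear, and β(β(x)) = star (star x * rp (a i) r) * rp (a j) r = rp (a i) (star r) * x * rp (a j) r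
 = rp (a i) (star r) * rp (a i + 1) r * x   (`inter` for x ∈ H (a j) (a i + 1))
 = rp (a i) (star r * ρ r) * x = x (`zigzag`).
So β is a conjugate-linear bijection between the two Hom spaces, and the dimensions agree
(a conjugate-linear injective map sends a linearly independent family to a linearly independent
family; or `LinearEquiv` over `starRingEnd ℂ` with `rank_eq_of_equiv_equiv`/`finrank` of
semilinear equivalences).
Parity: if a j + a i + 1 is odd then H (a j) (a i + 1) is 0 (`S.odd_zero`), so G i j = 0.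
-/

namespace Pool.Agent.ST5

namespace SubfactorPlanarAlgebra

namespace SimpleSystem

variable {T : Type*} [Ring T] [StarRing T] [Algebra ℂ T] [StarModule ℂ T]
  {S : SubfactorPlanarAlgebra T} (Q : S.SimpleSystem)

/-- the rotation of a morphism by one string -/
def C2_beta (i : Q.J) (x : T) : T := star x * S.rp (Q.a i) S.r

theorem C2_mem {i j : Q.J} {x : T} (hx : x ∈ S.Hom (Q.a j) (Q.p j) (Q.a i + 1) (Q.p i)) :
    Q.C2_beta i x ∈ S.Hom (Q.a i) (Q.p i) (Q.a j + 1) (Q.p j) := by
  obtain ⟨h1, h2, h3⟩ := hx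
  unfold C2_beta
  refine ⟨?_, ?_, ?_⟩
  · have h4 : star x ∈ S.H (Q.a i + 2) (Q.a j + 1) :=
      pad_to 1 (star_mem' h1) (by omega) (by omega)
    have h5 : S.rp (Q.a i) S.r ∈ S.H (Q.a i) (Q.a i + 2) :=
      rp_to (Q.a i) S.r_mem (by omega) (by omega)
    exact mul_to h4 h5 rfl
  · have h4 := congrArg star h3
    rw [star_mul, (Q.simple j).star_eq] at h4
    rw [← mul_assoc, h4]
  · have h4 := congrArg star h2
    rw [star_mul, (Q.simple i).star_eq] at h4
    have h5 := inter (Q.simple i).mem S.r_mem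
    rw [mul_assoc, ← h5, ← mul_assoc, h4]

theorem C2_invol {i j : Q.J} {x : T} (hx : x ∈ S.Hom (Q.a j) (Q.p j) (Q.a i + 1) (Q.p i)) :
    Q.C2_beta j (Q.C2_beta i x) = x := by
  unfold C2_beta
  rw [star_mul, star_star, mul_assoc, inter hx.1 S.r_mem, ← map_star, rp_succ', ← mul_assoc,
    ← map_mul, S.zigzag, map_one, one_mul]

theorem C2_le (i j : Q.J) : Q.G i j ≤ Q.G j i := by
  unfold G
  obtain ⟨b, hb⟩ : ∃ b, b = Module.finBasis ℂ (S.Hom (Q.a j) (Q.p j) (Q.a i + 1) (Q.p i)) := ⟨_, rfl⟩
  have hli : LinearIndependent ℂ (fun k => (⟨Q.C2_beta i (b k), Q.C2_mem (b k).2⟩ :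
      S.Hom (Q.a i) (Q.p i) (Q.a j + 1) (Q.p j))) := by
    rw [Fintype.linearIndependent_iff]
    intro g hg k
    have h1 : ∑ k, g k • Q.C2_beta i (b k) = 0 := by
      have h2 := congrArg Subtype.val hg
      simpa using h2
    obtain ⟨v, hv⟩ : ∃ v, v = ∑ k, star (g k) • b k := ⟨_, rfl⟩
    have h3 : Q.C2_beta i (v : T) = 0 := by
      rw [← h1, hv]
      unfold C2_beta
      rw [Submodule.coe_sum, star_sum, Finset.sum_mul]
      refine Finset.sum_congr rfl fun k _ => ?_
      rw [Submodule.coe_smul, star_smul, star_star, smul_mul_assoc]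
    have h4 : (v : T) = 0 := by
      rw [← Q.C2_invol v.2, h3]
      unfold C2_beta
      rw [star_zero, zero_mul]
    have h5 : ∑ k, star (g k) • b k = 0 := by
      rw [← hv]
      exact Subtype.ext h4
    have h6 := Fintype.linearIndependent_iff.1 b.linearIndependent (fun k => star (g k)) h5 k
    exact star_eq_zero.1 h6
  have h7 := hli.fintype_card_le_finrank
  rwa [Fintype.card_fin] at h7

theorem G_symm (i j : Q.J) : Q.G i j = Q.G j i :=
  le_antisymm (Q.C2_le i j) (Q.C2_le j i)

theorem G_parity (i j : Q.J) (h : Q.G i j ≠ 0) : (Q.a i + Q.a j) % 2 = 1 := by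
  by_contra hc
  apply h
  unfold G
  have h1 : S.Hom (Q.a j) (Q.p j) (Q.a i + 1) (Q.p i) = ⊥ := by
    rw [eq_bot_iff]
    intro x hx
    rw [Submodule.mem_bot]
    refine S.odd_zero _ _ x ?_ hx.1
    rw [Nat.odd_iff]
    omega
  rw [h1, finrank_bot]

end SimpleSystem

end SubfactorPlanarAlgebra

end Pool.Agent.ST5
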