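import Pool.Agent.ST5.P.DDefs

/-!
ST5 row D8. The dimensions of the two shadings of H 0 m agree and are closed walk numbers.

PROOF. Q.a o = 0, Q.p o = z, so by `finrank_pow` (G^m) o o = finrank Hom 0 z (0 + m) z, and
Hom 0 z m z = Hom 0 1 m z (x z = z x). If a is even rp a z = z: done. If a is odd rp a z = 1 - z. m = 0:
both spaces are one-dimensional, spanned by z and by 1 - z (`S.empty_box`, z ≠ 0, z ≠ 1). m ≥ 1: the
rotation rot x = star r * ρ x * r maps H 0 m to H 0 m, and Hom 0 1 m z to Hom 0 1 m (1 - z)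
(ρ (z x) = (1-z) ρ x, z central) and back; rot^m = id (`S.rotation`), so rot is injective on
H 0 m; injective both ways gives equal dimensions (`LinearMap.finrank_le_finrank_of_injective`).
-/

namespace Pool.Agent.ST5

namespace SubfactorPlanarAlgebra

section d8

variable {T : Type*} [Ring T] [StarRing T] [Algebra ℂ T] [StarModule ℂ T]
  {S : SubfactorPlanarAlgebra T}

variable (S) in
/-- the rotation by one string -/
def d8rot (x : T) : T := star S.r * S.ρ x * S.r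

lemma d8rot_mem {m : ℕ} {x : T} (hx : x ∈ S.H 0 m) : S.d8rot x ∈ S.H 0 m := by
  have h1 : S.ρ x ∈ S.H 2 (m + 2) := pad_to 1 (S.rho_mem _ _ _ hx) (by omega) (by omega)
  have h2 : star S.r ∈ S.H (m + 2) m := pad_to m (star_mem' S.r_mem) (by omega) (by omega)
  exact S.mul_mem _ _ _ _ _ (S.mul_mem _ _ _ _ _ h2 h1) S.r_mem

lemma d8rot_zero : S.d8rot 0 = 0 := by
  unfold d8rot
  simp

lemma d8rot_inj {m : ℕ} (hm : m ≠ 0) {x : T} (hx : x ∈ S.H 0 m) (h : S.d8rot x = 0) : x = 0 := by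
  obtain ⟨k, rfl⟩ := Nat.exists_eq_succ_of_ne_zero hm
  have h1 := S.rotation _ x hx
  have e : (fun y => star S.r * S.ρ y * S.r) = S.d8rot := rfl
  have h0 : ∀ j : ℕ, (S.d8rot)^[j] 0 = 0 := by
    intro j
    induction j with
    | zero => rfl
    | succ j ih => rw [Function.iterate_succ_apply, d8rot_zero, ih]
  rw [e, Function.iterate_succ_apply, h, h0] at h1
  exact h1.symm

lemma d8_z_r : S.z * star S.r = star S.r * S.z := z_comm (star_mem' S.r_mem)

lemma d8_map {m : ℕ} {y : T} (hy : y ∈ S.Hom 0 1 m S.z) : S.d8rot y ∈ S.Hom 0 1 m (1 - S.z) := by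
  obtain ⟨h1, h2, -⟩ := hy
  refine ⟨d8rot_mem h1, ?_, mul_one _⟩
  have h3 : S.ρ y = (1 - S.z) * S.ρ y := by
    conv_lhs => rw [← h2, map_mul, S.rho_z]
  have h4 : (1 - S.z) * star S.r = star S.r * (1 - S.z) := by
    rw [sub_mul, mul_sub, one_mul, mul_one, d8_z_r]
  unfold d8rot
  rw [← mul_assoc, ← mul_assoc, h4, mul_assoc (star S.r) (1 - S.z), ← h3]

lemma d8_map' {m : ℕ} {y : T} (hy : y ∈ S.Hom 0 1 m (1 - S.z)) : S.d8rot y ∈ S.Hom 0 1 m S.z := by
  obtain ⟨h1, h2, -⟩ := hy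
  refine ⟨d8rot_mem h1, ?_, mul_one _⟩
  have h3 : S.ρ y = S.z * S.ρ y := by
    conv_lhs => rw [← h2, map_mul, map_sub, map_one, S.rho_z, sub_sub_cancel]
  unfold d8rot
  rw [← mul_assoc, ← mul_assoc, d8_z_r, mul_assoc (star S.r) S.z, ← h3]

/-- the rotation as a linear map -/
noncomputable def d8lin {m : ℕ} {q q' : T} (h : ∀ y ∈ S.Hom 0 1 m q, S.d8rot y ∈ S.Hom 0 1 m q') :
    S.Hom 0 1 m q →ₗ[ℂ] S.Hom 0 1 m q' where
  toFun y := ⟨S.d8rot y.1, h _ y.2⟩
  map_add' x y := by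
    apply Subtype.ext
    simp [d8rot, mul_add, add_mul]
  map_smul' c x := by
    apply Subtype.ext
    simp [d8rot]

lemma d8_le {m : ℕ} (hm : m ≠ 0) {q q' : T}
    (h : ∀ y ∈ S.Hom 0 1 m q, S.d8rot y ∈ S.Hom 0 1 m q') :
    Module.finrank ℂ (S.Hom 0 1 m q) ≤ Module.finrank ℂ (S.Hom 0 1 m q') := by
  refine LinearMap.finrank_le_finrank_of_injective (f := d8lin h) ?_
  rw [injective_iff_map_eq_zero]
  intro y hy
  apply Subtype.ext
  exact d8rot_inj hm y.2.1 (congrArg Subtype.val hy)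

lemma d8_span_z : S.Hom 0 1 0 S.z = Submodule.span ℂ {S.z} := by
  apply le_antisymm
  · rintro x ⟨h1, h2, -⟩
    rw [S.empty_box, Submodule.mem_span_pair] at h1
    obtain ⟨a, b, rfl⟩ := h1
    rw [Submodule.mem_span_singleton]
    refine ⟨a, ?_⟩
    rw [← h2, mul_add, mul_smul_comm, mul_smul_comm, mul_sub, mul_one, S.z_mul, sub_self, smul_zero,
      add_zero]
  · rw [Submodule.span_singleton_le_iff_mem]
    exact ⟨S.z_mem 0, S.z_mul, mul_one _⟩

lemma d8_span_z' : S.Hom 0 1 0 (1 - S.z) = Submodule.span ℂ {1 - S.z} := by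
  apply le_antisymm
  · rintro x ⟨h1, h2, -⟩
    rw [S.empty_box, Submodule.mem_span_pair] at h1
    obtain ⟨a, b, rfl⟩ := h1
    rw [Submodule.mem_span_singleton]
    refine ⟨b, ?_⟩
    rw [← h2, mul_add, mul_smul_comm, mul_smul_comm, sub_mul, one_mul, S.z_mul, sub_self, smul_zero,
      zero_add, sub_mul, one_mul, mul_sub, mul_one, S.z_mul, sub_self, sub_zero]
  · rw [Submodule.span_singleton_le_iff_mem]
    refine ⟨?_, ?_, mul_one _⟩
    · rw [S.empty_box]
      exact Submodule.subset_span (by simp)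
    · rw [sub_mul, one_mul, mul_sub, mul_one, S.z_mul, sub_self, sub_zero]

lemma d8_shade (m : ℕ) :
    Module.finrank ℂ (S.Hom 0 1 m (1 - S.z)) = Module.finrank ℂ (S.Hom 0 1 m S.z) := by
  by_cases hm : m = 0
  · subst hm
    rw [d8_span_z, d8_span_z', finrank_span_singleton S.z_ne_zero,
      finrank_span_singleton (sub_ne_zero.2 S.z_ne_one.symm)]
  · exact le_antisymm (d8_le hm fun y hy => d8_map' hy) (d8_le hm fun y hy => d8_map hy)

end d8

namespace SimpleSystem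

variable {T : Type*} [Ring T] [StarRing T] [Algebra ℂ T] [StarModule ℂ T]
  {S : SubfactorPlanarAlgebra T} (Q : S.SimpleSystem)

theorem finrank_closed (a m : ℕ) :
    Module.finrank ℂ (S.Hom 0 1 m (S.rp a S.z)) = (Q.G ^ m) Q.o Q.o := by
  have h0 : Module.finrank ℂ (S.Hom 0 1 m S.z) = (Q.G ^ m) Q.o Q.o := by
    rw [← Q.finrank_pow m Q.o Q.o]
    have e : S.Hom 0 1 m S.z = S.Hom (Q.a Q.o) (Q.p Q.o) (Q.a Q.o + m) (Q.p Q.o) := by
      rw [Q.a_o, Q.p_o, zero_add]
      ext x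
      simp only [mem_Hom, mul_one, and_true]
      constructor
      · rintro ⟨h1, h2⟩
        exact ⟨h1, h2, by rw [← z_comm h1, h2]⟩
      · rintro ⟨h1, h2, -⟩
        exact ⟨h1, h2⟩
    rw [e]
  rw [← h0, S.rp_z]
  by_cases h : Even a
  · rw [if_pos h]
  · rw [if_neg h]
    exact d8_shade m

end SimpleSystem

end SubfactorPlanarAlgebra

end Pool.Agent.ST5
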