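import Pool.Agent.ST5.P.A2

/-!
ST5 row B3. Schur's lemma, δ > 0, transport of a simple object to a higher level.

PROOFS.
`schur`: star x * x ∈ Hom(p,p), so star x * x = p (star x * x) p = c p (`scalar`); taking traces
(`Tr_pos` for x, which has z x = x by `Hom_z`, and `IsProj.Tr_pos` for p, `Tr_smul`) c = positive real.
v := (1/√c) x: star v * v = p. v star v ∈ Hom(q,q) equals c' q, nonzero (`faithful` for star v), and
idempotent (v (star v v) star v = v p star v = v star v), so c'^2 = c' ≠ 0, c' = 1. For y ∈ Hom(p,q):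
star v * y ∈ Hom(p,p) is c p and y = q y = v star v y = c v.
`delta_pos`: star r * r = δ z + δ (1-z); compare with `S.positive` (coefficients of z: multiply by z
and use z ≠ 0, `zc_eq`): δ ≥ 0; if δ = 0 then r = 0 by `S.definite`, contradiction with `S.zigzag`
(1 = 0 would give z = z * 1 = 0).
`transport`: w₀ := (δ^s)^(-1/2) • rp a (R s) ∈ H a (a+2s), star w₀ * w₀ = 1 (`loopR`), w := w₀ * p, p' := w * star w
= w₀ p star w₀. p' x p' = w₀ (p (star w₀ x w₀) p) star w₀ = c p'. z p' = p' (z central).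
-/

namespace Pool.Agent.ST5

namespace SubfactorPlanarAlgebra

variable {T : Type*} [Ring T] [StarRing T] [Algebra ℂ T] [StarModule ℂ T]
  {S : SubfactorPlanarAlgebra T}

theorem b3_star_real (r : ℝ) (x : T) : star ((r : ℂ) • x) = (r : ℂ) • star x := by
  rw [star_smul]
  congr 1
  exact Complex.conj_ofReal r

theorem schur {a b : ℕ} {p q x : T} (hp : S.IsSimple a p) (hq : S.IsSimple b q)
    (hx : x ∈ S.Hom a p b q) (h0 : x ≠ 0) :
    ∃ v ∈ S.Hom a p b q, star v * v = p ∧ v * star v = q ∧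
      ∀ y ∈ S.Hom a p b q, ∃ c : ℂ, y = c • v := by
  obtain ⟨hxH, hqx, hxp⟩ := hx
  have hx : x ∈ S.Hom a p b q := ⟨hxH, hqx, hxp⟩
  have hpst := hp.star_eq
  have hqst := hq.star_eq
  have hsx : p * star x = star x := by
    have := congrArg star hxp
    rwa [star_mul, hpst] at this
  have hsq : star x * q = star x := by
    have := congrArg star hqx
    rwa [star_mul, hqst] at this
  have hxx : star x * x ∈ S.H a a := S.mul_mem _ _ _ _ _ (star_mem' hxH) hxH
  obtain ⟨c, hc⟩ := hp.scalar (star x * x) hxx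
  have hc' : star x * x = c • p := by
    rw [← hc, ← mul_assoc, hsx, mul_assoc, hxp]
  obtain ⟨α, hα, hαt⟩ := S.Tr_pos hxH (Hom_z hq.z_mul hx) h0
  obtain ⟨β, hβ, hβt⟩ := hp.toIsProj.Tr_pos hp.ne_zero
  rw [hc', Tr_smul c hp.mem, hβt] at hαt
  have hβ0 : (β : ℂ) ≠ 0 := by exact_mod_cast hβ.ne'
  have hcγ : c = ((α / β : ℝ) : ℂ) := by
    push_cast
    rw [eq_div_iff hβ0]
    exact hαt
  have hγ : 0 < α / β := div_pos hα hβ
  set γ := α / β with hγd
  have hsg : 0 < Real.sqrt γ := Real.sqrt_pos.2 hγ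
  have hsg2 : (Real.sqrt γ)⁻¹ * (Real.sqrt γ)⁻¹ * γ = 1 := by
    have h1 : Real.sqrt γ * Real.sqrt γ = γ := Real.mul_self_sqrt hγ.le
    have h2 : Real.sqrt γ ≠ 0 := hsg.ne'
    field_simp
    rw [pow_two, h1]
  set v : T := (((Real.sqrt γ)⁻¹ : ℝ) : ℂ) • x with hv
  have hvH : v ∈ S.H a b := Submodule.smul_mem _ _ hxH
  have hqv : q * v = v := by rw [hv, mul_smul_comm, hqx]
  have hvp : v * p = v := by rw [hv, smul_mul_assoc, hxp]
  have hsv : star v = (((Real.sqrt γ)⁻¹ : ℝ) : ℂ) • star x := b3_star_real _ _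
  have hsvq : star v * q = star v := by rw [hsv, smul_mul_assoc, hsq]
  have hpsv : p * star v = star v := by rw [hsv, mul_smul_comm, hsx]
  have hvv : star v * v = p := by
    rw [hsv, hv, smul_mul_smul_comm, hc', hcγ, smul_smul]
    have h1 : (((Real.sqrt γ)⁻¹ : ℝ) : ℂ) * (((Real.sqrt γ)⁻¹ : ℝ) : ℂ) * (γ : ℂ) = 1 := by
      exact_mod_cast hsg2
    rw [h1, one_smul]
  have hsvH : star v ∈ S.H b a := star_mem' hvH
  have hvsH : v * star v ∈ S.H b b := S.mul_mem _ _ _ _ _ hvH hsvH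
  obtain ⟨c', hc2⟩ := hq.scalar (v * star v) hvsH
  have hc3 : v * star v = c' • q := by
    rw [← hc2, ← mul_assoc, hqv, mul_assoc, hsvq]
  have hidem : (v * star v) * (v * star v) = v * star v := by
    have : (v * star v) * (v * star v) = v * (star v * v) * star v := by simp only [mul_assoc]
    rw [this, hvv, hvp]
  rw [hc3, smul_mul_smul_comm, hq.idem] at hidem
  have hc4 : (c' * c' - c') • q = 0 := by rw [sub_smul, hidem, sub_self]
  have hv0 : v ≠ 0 := by
    intro h
    apply hp.ne_zero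
    rw [← hvv, h, mul_zero]
  have hc5 : c' = 1 := by
    rcases smul_eq_zero.1 hc4 with h | h
    · have h1 : c' * (c' - 1) = 0 := by
        rw [← h]
        ring
      rcases mul_eq_zero.1 h1 with h2 | h2
      · exfalso
        rw [h2, zero_smul] at hc3
        have h3 : star v = 0 := by
          apply faithful hsvH
          rw [star_star]
          exact hc3
        apply hv0
        rw [← star_star v, h3, star_zero]
      · exact sub_eq_zero.1 h2
    · exact absurd h hq.ne_zero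
  rw [hc5, one_smul] at hc3
  refine ⟨v, ⟨hvH, hqv, hvp⟩, hvv, hc3, ?_⟩
  rintro y ⟨hyH, hqy, hyp⟩
  obtain ⟨d, hd⟩ := hp.scalar (star v * y) (S.mul_mem _ _ _ _ _ hsvH hyH)
  refine ⟨d, ?_⟩
  have h1 : star v * y = d • p := by
    rw [← hd, ← mul_assoc, hpsv, mul_assoc, hyp]
  rw [← hqy, ← hc3, mul_assoc, h1, mul_smul_comm, hvp]

variable (S) in
theorem delta_pos : 0 < S.δ := by
  obtain ⟨a, b, ha, hb, hab⟩ := S.positive 2 S.r S.r_mem
  have hz := S.z_ne_zero
  have h1 : ((S.δ : ℂ) - (a : ℂ)) • S.z = 0 := by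
    have h2 : S.z * (star S.r * S.r) = S.z * ((a : ℂ) • S.z + (b : ℂ) • (1 - S.z)) := by rw [hab]
    rw [S.loop, mul_smul_comm, mul_one, mul_add, mul_smul_comm, mul_smul_comm, mul_sub, mul_one, S.z_mul,
      sub_self, smul_zero, add_zero] at h2
    rw [sub_smul, h2, sub_self]
  have h3 : (S.δ : ℂ) = (a : ℂ) := sub_eq_zero.1 ((smul_eq_zero.1 h1).resolve_right hz)
  have h4 : S.δ = a := by exact_mod_cast h3
  rcases ha.lt_or_eq with h5 | h5
  · rw [h4]
    exact h5
  · exfalso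
    have h6 : star S.r * S.r = 0 := by
      rw [S.loop, h4, ← h5]
      simp
    have h7 : S.r = 0 := S.definite 2 S.r S.r_mem h6
    have h8 := S.zigzag
    rw [h7, star_zero, zero_mul] at h8
    apply hz
    rw [← mul_one S.z, ← h8, mul_zero]

theorem transport {a : ℕ} {p : T} (s : ℕ) (hp : S.IsSimple a p) :
    ∃ p' w, S.IsSimple (a + 2 * s) p' ∧ w ∈ S.Hom a p (a + 2 * s) p' ∧ star w * w = p ∧
      w * star w = p' := by
  have hδ := S.delta_pos
  have hδs : 0 < S.δ ^ s := pow_pos hδ s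
  have hsg : 0 < Real.sqrt (S.δ ^ s) := Real.sqrt_pos.2 hδs
  have hsg2 : (Real.sqrt (S.δ ^ s))⁻¹ * (Real.sqrt (S.δ ^ s))⁻¹ * (S.δ ^ s) = 1 := by
    have h1 : Real.sqrt (S.δ ^ s) * Real.sqrt (S.δ ^ s) = S.δ ^ s := Real.mul_self_sqrt hδs.le
    have h2 : Real.sqrt (S.δ ^ s) ≠ 0 := hsg.ne'
    field_simp
    rw [pow_two, h1]
  set w₀ : T := (((Real.sqrt (S.δ ^ s))⁻¹ : ℝ) : ℂ) • S.rp a (S.R s) with hw₀
  have hw₀H : w₀ ∈ S.H a (a + 2 * s) := by
    apply Submodule.smul_mem
    exact rp_to a (S.R_mem s) (by omega) (by omega)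
  have hsw₀ : star w₀ = (((Real.sqrt (S.δ ^ s))⁻¹ : ℝ) : ℂ) • star (S.rp a (S.R s)) := b3_star_real _ _
  have hw1 : star w₀ * w₀ = 1 := by
    rw [hsw₀, hw₀, smul_mul_smul_comm, ← map_star, ← map_mul, S.loopR, map_smul, map_one, smul_smul]
    have h1 : (((Real.sqrt (S.δ ^ s))⁻¹ : ℝ) : ℂ) * (((Real.sqrt (S.δ ^ s))⁻¹ : ℝ) : ℂ) *
        ((S.δ ^ s : ℝ) : ℂ) = 1 := by
      exact_mod_cast hsg2
    rw [h1, one_smul]
  set w : T := w₀ * p with hw
  have hwH : w ∈ S.H a (a + 2 * s) := S.mul_mem _ _ _ _ _ hw₀H hp.mem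
  have hswH : star w ∈ S.H (a + 2 * s) a := star_mem' hwH
  have hsw : star w = p * star w₀ := by rw [hw, star_mul, hp.star_eq]
  have hwp : w * p = w := by rw [hw, mul_assoc, hp.idem]
  have hpsw : p * star w = star w := by rw [hsw, ← mul_assoc, hp.idem]
  have hww : star w * w = p := by
    have h1 : star w * w = p * (star w₀ * w₀) * p := by
      rw [hsw, hw]
      simp only [mul_assoc]
    rw [h1, hw1, mul_one, hp.idem]
  have hzw : S.z * w = w := by
    rw [hw, ← mul_assoc, z_comm hw₀H, mul_assoc, hp.z_mul]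
  have hsq : (w * star w) * (w * star w) = w * star w := by
    have : (w * star w) * (w * star w) = w * (star w * w) * star w := by simp only [mul_assoc]
    rw [this, hww, hwp]
  refine ⟨w * star w, w, ⟨⟨?_, ?_, hsq, ?_⟩, ?_, ?_⟩, ⟨hwH, ?_, hwp⟩, hww, rfl⟩
  · exact S.mul_mem _ _ _ _ _ hwH hswH
  · rw [star_mul, star_star]
  · rw [← mul_assoc, hzw]
  · intro h
    have h3 : star w = 0 := by
      apply faithful hswH
      rw [star_star]
      exact h
    apply hp.ne_zero
    rw [← hww, h3, zero_mul]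
  · intro x hx
    have hxH : star w * x * w ∈ S.H a a := S.mul_mem _ _ _ _ _ (S.mul_mem _ _ _ _ _ hswH hx) hwH
    obtain ⟨c, hc⟩ := hp.scalar _ hxH
    refine ⟨c, ?_⟩
    have h1 : p * (star w * x * w) * p = star w * x * w := by
      have h2 : p * (star w * x * w) * p = (p * star w) * x * (w * p) := by simp only [mul_assoc]
      rw [h2, hpsw, hwp]
    rw [h1] at hc
    have h3 : w * star w * x * (w * star w) = w * (star w * x * w) * star w := by simp only [mul_assoc]
    rw [h3, hc, mul_smul_comm, hwp, smul_mul_assoc]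
  · rw [mul_assoc, hww, hwp]

end SubfactorPlanarAlgebra

end Pool.Agent.ST5
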