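import Pool.Agent.ST5.P.C0
import Pool.Agent.ST5.P.B3

/-!
ST5 row E5a. Simple objects and the chosen system; additivity of the dimensions of Hom spaces.

PROOFS. `exists_iso`: a complete family of the simple object e at level n (`Q.exists_fam`): e = ∑ v star v ≠ 0, so some
v i s exists; it is a nonzero element of Hom(p i, e) (star v v = p i ≠ 0), and by `schur` there is v with
star v v = p i, v star v = e.
`finrank_iso`: w ∈ H b n with star w * w = P, w * star w = P', P ∈ H b b, P' ∈ H n n: x ↦ w * x is a linear bijection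
Hom(p l; b, P) → Hom(p l; n, P') with inverse y ↦ star w * y (w P = w and P' w = w follow: w P = w star w w; is
w star w w = w? (w - w P) star-square: star (w - wP) (w - wP) = P - P P - P P + P P P = 0 with P² = P, so by
`faithful` w P = w; P' w = w star w w = w P = w).
`finrank_add`: P = P₁ + P₂ with projections P₁, P₂ (so P₁ P₂ = 0: P₂ = P - P₁ idempotent gives P P₁ + P₁ P = 2 P₁, so
P P₁ = P₁ = P₁ P; or use the hypothesis P₁ P₂ = 0): Hom(p l, P) = Hom(p l, P₁) ⊕ Hom(p l, P₂), x = P₁ x + P₂ x
(`Submodule.finrank_sup_add_finrank_inf_eq`, inf = ⊥, sup = Hom(p l, P)).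
-/

namespace Pool.Agent.ST5

namespace SubfactorPlanarAlgebra

namespace SimpleSystem

variable {T : Type*} [Ring T] [StarRing T] [Algebra ℂ T] [StarModule ℂ T]
  {S : SubfactorPlanarAlgebra T} (Q : S.SimpleSystem)

theorem exists_iso {n : ℕ} {e : T} (he : S.IsSimple n e) :
    ∃ i, ∃ v ∈ S.Hom (Q.a i) (Q.p i) n e, star v * v = Q.p i ∧ v * star v = e := by
  obtain ⟨k, v, hv⟩ := Q.exists_fam n e he.toIsProj
  by_contra hcon
  apply he.ne_zero
  rw [← hv.complete]
  refine Finset.sum_eq_zero fun i _ => Finset.sum_eq_zero fun s _ => ?_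
  by_contra h0
  apply hcon
  have h1 : v i s ≠ 0 := by
    intro h2
    apply h0
    rw [h2, zero_mul]
  obtain ⟨w, hw, hw1, hw2, -⟩ := schur (Q.simple i) he (hv.mem i s) h1
  exact ⟨i, w, hw, hw1, hw2⟩

theorem finrank_iso {b n : ℕ} {P P' w : T} (hP : S.IsProj b P) (hP' : S.IsProj n P')
    (hw : w ∈ S.H b n) (h1 : star w * w = P) (h2 : w * star w = P') (l : Q.J) :
    Module.finrank ℂ (S.Hom (Q.a l) (Q.p l) n P') =
      Module.finrank ℂ (S.Hom (Q.a l) (Q.p l) b P) := by
  have hwP : w * P = w := by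
    have hu : w - w * P ∈ S.H b n :=
      Submodule.sub_mem _ hw (S.mul_mem _ _ _ _ _ hw hP.mem)
    have hu0 : star (w - w * P) * (w - w * P) = 0 := by
      have h3 : star (w - w * P) = star w - P * star w := by
        rw [star_sub, star_mul, hP.star_eq]
      calc star (w - w * P) * (w - w * P)
          = (star w * w) - (star w * w) * P - P * (star w * w) + P * (star w * w) * P := by
            rw [h3]
            noncomm_ring
        _ = 0 := by
            rw [h1, hP.idem, hP.idem]
            abel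
    exact (sub_eq_zero.mp (faithful hu hu0)).symm
  have hPw : P * star w = star w := by
    have h3 := congrArg star hwP
    rwa [star_mul, hP.star_eq] at h3
  have hPw' : P' * w = w := by
    rw [← h2, mul_assoc, h1, hwP]
  refine LinearEquiv.finrank_eq
    { toFun := fun y => ⟨star w * y.1, S.mul_mem _ _ _ _ _ (star_mem' hw) y.2.1, by
        rw [← mul_assoc, hPw], by rw [mul_assoc, y.2.2.2]⟩
      invFun := fun x => ⟨w * x.1, S.mul_mem _ _ _ _ _ hw x.2.1, by
        rw [← mul_assoc, hPw'], by rw [mul_assoc, x.2.2.2]⟩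
      map_add' := fun x y => Subtype.ext (mul_add _ _ _)
      map_smul' := fun c x => Subtype.ext (mul_smul_comm _ _ _)
      left_inv := fun y => Subtype.ext (by
        change w * (star w * y.1) = y.1
        rw [← mul_assoc, h2, y.2.2.1])
      right_inv := fun x => Subtype.ext (by
        change star w * (w * x.1) = x.1
        rw [← mul_assoc, h1, x.2.2.1]) }

theorem finrank_add {n : ℕ} {P P₁ P₂ : T} (h1 : S.IsProj n P₁) (h2 : S.IsProj n P₂)
    (h12 : P₁ * P₂ = 0) (h : P = P₁ + P₂) (l : Q.J) :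
    Module.finrank ℂ (S.Hom (Q.a l) (Q.p l) n P) =
      Module.finrank ℂ (S.Hom (Q.a l) (Q.p l) n P₁) +
        Module.finrank ℂ (S.Hom (Q.a l) (Q.p l) n P₂) := by
  have h21 : P₂ * P₁ = 0 := by
    have h3 := congrArg star h12
    rwa [star_mul, h1.star_eq, h2.star_eq, star_zero] at h3
  rw [← Module.finrank_prod]
  refine LinearEquiv.finrank_eq
    { toFun := fun x => (⟨P₁ * x.1, S.mul_mem _ _ _ _ _ h1.mem x.2.1, by
          rw [← mul_assoc, h1.idem], by rw [mul_assoc, x.2.2.2]⟩,
        ⟨P₂ * x.1, S.mul_mem _ _ _ _ _ h2.mem x.2.1, by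
          rw [← mul_assoc, h2.idem], by rw [mul_assoc, x.2.2.2]⟩)
      invFun := fun y => ⟨y.1.1 + y.2.1, Submodule.add_mem _ y.1.2.1 y.2.2.1, by
          have e1 : P₁ * y.1.1 = y.1.1 := y.1.2.2.1
          have e2 : P₂ * y.2.1 = y.2.1 := y.2.2.2.1
          have e3 : P₁ * y.2.1 = 0 := by rw [← e2, ← mul_assoc, h12, zero_mul]
          have e4 : P₂ * y.1.1 = 0 := by rw [← e1, ← mul_assoc, h21, zero_mul]
          rw [h, add_mul, mul_add, mul_add, e1, e2, e3, e4, add_zero, zero_add], by
          rw [add_mul, y.1.2.2.2, y.2.2.2.2]⟩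
      map_add' := fun x y => Prod.ext (Subtype.ext (mul_add _ _ _)) (Subtype.ext (mul_add _ _ _))
      map_smul' := fun c x => Prod.ext (Subtype.ext (mul_smul_comm _ _ _))
        (Subtype.ext (mul_smul_comm _ _ _))
      left_inv := fun x => Subtype.ext (by
        change P₁ * x.1 + P₂ * x.1 = x.1
        rw [← add_mul, ← h, x.2.2.1])
      right_inv := fun y => by
        have e1 : P₁ * y.1.1 = y.1.1 := y.1.2.2.1
        have e2 : P₂ * y.2.1 = y.2.1 := y.2.2.2.1
        have e3 : P₁ * y.2.1 = 0 := by rw [← e2, ← mul_assoc, h12, zero_mul]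
        have e4 : P₂ * y.1.1 = 0 := by rw [← e1, ← mul_assoc, h21, zero_mul]
        refine Prod.ext (Subtype.ext ?_) (Subtype.ext ?_)
        · change P₁ * (y.1.1 + y.2.1) = y.1.1
          rw [mul_add, e1, e3, add_zero]
        · change P₂ * (y.1.1 + y.2.1) = y.2.1
          rw [mul_add, e4, e2, zero_add] }

end SimpleSystem

end SubfactorPlanarAlgebra

end Pool.Agent.ST5
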