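import Pool.Agent.ST5.P.Basic

/-!
ST5 row A1. Rotations, pivotality, trace property, sphericity, faithfulness.

All identities are short calculations in the algebra `T`, from `inter`, `slide`, `slide'`,
`snake`, `snake'`, `R_add`, `R_succ'` of `P/Basic.lean`. (R = S.R, rp = S.rp, H = S.H; an element
of `H m n` may be used as an element of `H (m+k) (n+k)`, `pad_to`.)

* `rot_iter`: induction on n, `Function.iterate_succ_apply'` and `R_succ'`.
* `full_turn`: axiom `S.rotation` and `rot_iter`.
* `unbend`: rp n (star (R m)) * (x * R m) = x for x ∈ H m n: by `inter`,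
  rp n (star (R m)) * x = x * rp m (star (R m)) (star (R m) ∈ H (2m) 0), then `snake'`.
* `pivotal`: put A = rp m (star (R n) * y) * R m and B = star (R n) * rp n (y * R m), both in H n m;
  g = y * R m ∈ H 0 (m+n).
  (i) star (R n) * rp n g * R n = B * R n (definition).
  (ii) star (R m) * rp m (A * R n) * R m = g: expand rp m A = rp (2m) (star (R n) * y) * rp m (R m);
       star (R m) * rp (2m) w = w * star (R m) (`slide'`); star (R m) * rp m (R m) = 1 (`snake`);
       so it is star (R n) * y * rp m (R n) * R m, = star (R n) * rp n (R n) * y * R m (`inter`)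
       = y * R m (`snake`).
  (iii) A * R n ∈ H 0 (m+n), so by `full_turn` (with R (n+m) = rp n (R m) * R n etc.)
       A * R n = star (R (n+m)) * rp (n+m) (A * R n) * R (n+m)
               = star (R n) * rp n [ star (R m) * rp m (A * R n) * R m ] * R n
               = star (R n) * rp n g * R n = B * R n
       (or simply: iterate the function `rot` m times and then n times).
  (iv) `mul_R_injective`/`unbend` cancels R n: A = B.
* `trace_comm`: x ∈ H m n, y ∈ H n m. B := star (R m) * rp m (y * R n) ∈ H m n satisfies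
  rp m B * R m = y * R n (`slide` for R m and `snake'`), so
  star (R n) * x * (y * R n) = star (R n) * x * rp m B * R m = star (R n) * rp n B * x * R m, and by
  `pivotal` (for y) B = rp n (star (R m) * y) * R n, hence star (R n) * rp n B
   = star (R n) * rp (2n) (star (R m) * y) * rp n (R n) = star (R m) * y * star (R n) * rp n (R n)
   = star (R m) * y.
* `spherical_all`: induction on n. For x ∈ H (n+1) (n+1) put E = rp n (star r) * x * rp n r ∈ H n n and
  F = star (R n) * rp n x * R n ∈ H 1 1.
  star (R (n+1)) * rp (n+1) x * R (n+1) = star r * ρ F * r (use `R_succ'`) = ρ (star r * F * r) (axiom);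
  star r * F * r = star (R n) * rp n E * R n (slide r over R n: R n * r = rp (2n) r * R n)
   = rp n (star (R n) * E * R n) (induction) and star (R n) * E * R n = star (R (n+1)) * x * R (n+1).
* `faithful`: star (x * R m) * (x * R m) = star (R m) * (star x * x) * R m = 0, so x * R m = 0 by
  `S.definite`, so x = 0 by `unbend`.
* `trace_pos`: `S.positive` for x * R m ∈ H 0 (m+n).
-/

namespace Pool.Agent.ST5

namespace SubfactorPlanarAlgebra

variable {T : Type*} [Ring T] [StarRing T] [Algebra ℂ T] [StarModule ℂ T]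
  {S : SubfactorPlanarAlgebra T}

theorem A1_memY {m n : ℕ} {y : T} (hy : y ∈ S.H m n) : y * S.R m ∈ S.H 0 (n + m) :=
  mul_to (pad_to m hy (by omega) (by omega) : y ∈ S.H (2 * m) (n + m)) (S.R_mem m) rfl

theorem A1_memW {m n : ℕ} {y : T} (hy : y ∈ S.H m n) : star (S.R n) * y ∈ S.H (m + n) 0 :=
  mul_to (star_mem' (S.R_mem n)) (pad_to n hy (by omega) (by omega) : y ∈ S.H (m + n) (2 * n)) rfl

theorem A1_memA {m n : ℕ} {y : T} (hy : y ∈ S.H m n) :
    S.rp m (star (S.R n) * y) * S.R m ∈ S.H n m :=
  mul_to (rp_to m (A1_memW hy) (by omega) (by omega) : _ ∈ S.H (2 * m + n) m)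
    (pad_to n (S.R_mem m) (by omega) (by omega) : S.R m ∈ S.H n (2 * m + n)) rfl

theorem A1_memB {m n : ℕ} {y : T} (hy : y ∈ S.H m n) :
    star (S.R n) * S.rp n (y * S.R m) ∈ S.H n m :=
  mul_to (pad_to m (star_mem' (S.R_mem n)) (by omega) (by omega) : _ ∈ S.H (2 * n + m) m)
    (rp_to n (A1_memY hy) (by omega) (by omega) : _ ∈ S.H n (2 * n + m)) rfl

theorem rot_iter (n : ℕ) (x : T) :
    (fun y => star S.r * S.ρ y * S.r)^[n] x = star (S.R n) * S.rp n x * S.R n := by
  induction n with
  | zero => simp
  | succ n ih =>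
    rw [Function.iterate_succ_apply', ih, S.R_succ', S.rp_succ, star_mul, ← map_star, map_mul,
      map_mul]
    simp only [mul_assoc]

theorem full_turn {n : ℕ} {x : T} (hx : x ∈ S.H 0 n) :
    star (S.R n) * S.rp n x * S.R n = x := by
  rw [← rot_iter]
  exact S.rotation n x hx

theorem unbend {m n : ℕ} {x : T} (hx : x ∈ S.H m n) :
    S.rp n (star (S.R m)) * (x * S.R m) = x := by
  have h := inter hx (star_mem' (S.R_mem m))
  rw [← mul_assoc, ← h, mul_assoc, S.snake', mul_one]

theorem pivotal {m n : ℕ} {y : T} (hy : y ∈ S.H m n) :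
    S.rp m (star (S.R n) * y) * S.R m = star (S.R n) * S.rp n (y * S.R m) := by
  have hA : S.rp m (star (S.R n) * y) * S.R m ∈ S.H n m := A1_memA hy
  have hB : star (S.R n) * S.rp n (y * S.R m) ∈ S.H n m := A1_memB hy
  have hg : star (S.R m) * S.rp m (S.rp m (star (S.R n) * y) * S.R m * S.R n) * S.R m =
      y * S.R m := by
    have hw : star (S.R n) * y ∈ S.H (m + n) 0 := A1_memW hy
    have e1 : star (S.R m) * S.rp m (S.rp m (star (S.R n) * y)) = star (S.R n) * y * star (S.R m) := by
      rw [← S.rp_add, ← two_mul]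
      exact S.slide' (star_mem' (S.R_mem m)) hw
    have e2 : y * S.rp m (S.R n) = S.rp n (S.R n) * y := inter hy (S.R_mem n)
    calc star (S.R m) * S.rp m (S.rp m (star (S.R n) * y) * S.R m * S.R n) * S.R m
        = (star (S.R m) * S.rp m (S.rp m (star (S.R n) * y))) * S.rp m (S.R m) *
            S.rp m (S.R n) * S.R m := by
          rw [map_mul, map_mul]; simp only [mul_assoc]
      _ = star (S.R n) * y * (star (S.R m) * S.rp m (S.R m)) * S.rp m (S.R n) * S.R m := by
          rw [e1]; simp only [mul_assoc]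
      _ = star (S.R n) * (y * S.rp m (S.R n)) * S.R m := by
          rw [S.snake, mul_one]; simp only [mul_assoc]
      _ = (star (S.R n) * S.rp n (S.R n)) * y * S.R m := by
          rw [e2]; simp only [mul_assoc]
      _ = y * S.R m := by rw [S.snake, one_mul]
  have hx0 : S.rp m (star (S.R n) * y) * S.R m * S.R n ∈ S.H 0 (n + m) :=
    mul_to (pad_to n hA (by omega) (by omega) : _ ∈ S.H (2 * n) (n + m)) (S.R_mem n) rfl
  have ht := full_turn hx0
  have ht2 : S.rp m (star (S.R n) * y) * S.R m * S.R n =
      star (S.R n) * S.rp n (y * S.R m) * S.R n := by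
    conv_lhs => rw [← ht]
    rw [S.R_add, star_mul, ← map_star, S.rp_add, ← hg, map_mul (S.rp n) (star (S.R m) * _),
      map_mul (S.rp n) (star (S.R m))]
    simp only [mul_assoc]
  have hu := unbend hA
  rw [ht2, unbend hB] at hu
  exact hu.symm

theorem trace_comm {m n : ℕ} {x y : T} (hx : x ∈ S.H m n) (hy : y ∈ S.H n m) :
    star (S.R n) * (x * y) * S.R n = star (S.R m) * (y * x) * S.R m := by
  have hpiv := pivotal hy
  have hBmem : star (S.R m) * S.rp m (y * S.R n) ∈ S.H m n := A1_memB hy
  have hw : star (S.R m) * y ∈ S.H (n + m) 0 := A1_memW hy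
  have hyR : y * S.R n ∈ S.H 0 (m + n) := A1_memY hy
  have e1 : S.rp m (star (S.R m) * S.rp m (y * S.R n)) * S.R m = y * S.R n := by
    have h1 : S.rp (2 * m) (y * S.R n) * S.R m = S.R m * (y * S.R n) :=
      S.slide (S.R_mem m) hyR
    rw [map_mul, ← S.rp_add, ← two_mul, mul_assoc, h1, ← mul_assoc, S.snake', one_mul]
  have e2 : x * S.rp m (star (S.R m) * S.rp m (y * S.R n)) =
      S.rp n (star (S.R m) * S.rp m (y * S.R n)) * x := inter hx hBmem
  have e3 : star (S.R n) * S.rp n (star (S.R m) * S.rp m (y * S.R n)) = star (S.R m) * y := by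
    have h1 : star (S.R n) * S.rp (2 * n) (star (S.R m) * y) = star (S.R m) * y * star (S.R n) :=
      S.slide' (star_mem' (S.R_mem n)) hw
    rw [← hpiv, map_mul (S.rp n) (S.rp n _), ← S.rp_add, ← two_mul, ← mul_assoc, h1, mul_assoc,
      S.snake, mul_one]
  calc star (S.R n) * (x * y) * S.R n
      = star (S.R n) * x * (y * S.R n) := by simp only [mul_assoc]
    _ = star (S.R n) * (x * S.rp m (star (S.R m) * S.rp m (y * S.R n))) * S.R m := by
        conv_lhs => rw [← e1]
        simp only [mul_assoc]
    _ = (star (S.R n) * S.rp n (star (S.R m) * S.rp m (y * S.R n))) * x * S.R m := by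
        rw [e2]; simp only [mul_assoc]
    _ = star (S.R m) * (y * x) * S.R m := by
        rw [e3]; simp only [mul_assoc]

theorem spherical_all {n : ℕ} {x : T} (hx : x ∈ S.H n n) :
    star (S.R n) * S.rp n x * S.R n = S.rp n (star (S.R n) * x * S.R n) := by
  induction n generalizing x with
  | zero => simp
  | succ n ih =>
    have hr : S.rp n S.r ∈ S.H n (n + 2) := rp_to n S.r_mem (by omega) (by omega)
    have hrs : S.rp n (star S.r) ∈ S.H (n + 2) n := rp_to n (star_mem' S.r_mem) (by omega) (by omega)
    have hx2 : x ∈ S.H (n + 2) (n + 2) := pad_to 1 hx (by omega) (by omega)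
    have hE : S.rp n (star S.r) * x * S.rp n S.r ∈ S.H n n :=
      mul_to (mul_to hrs hx2 rfl) hr rfl
    have hF : star (S.R n) * S.rp n x * S.R n ∈ S.H 1 1 := by
      have h1 : S.rp n x ∈ S.H (2 * n + 1) (2 * n + 1) := rp_to n hx (by omega) (by omega)
      have h2 : S.R n ∈ S.H 1 (2 * n + 1) := pad_to 1 (S.R_mem n) (by omega) (by omega)
      exact mul_to (mul_to (star_mem' h2) h1 rfl) h2 rfl
    have hs := S.spherical _ hF
    have e1 : S.rp (2 * n) S.r * S.R n = S.R n * S.r := S.slide (S.R_mem n) S.r_mem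
    have e2 : star (S.R n) * S.rp (2 * n) (star S.r) = star S.r * star (S.R n) :=
      S.slide' (star_mem' (S.R_mem n)) (star_mem' S.r_mem)
    have e3 : star S.r * (star (S.R n) * S.rp n x * S.R n) * S.r =
        S.rp n (star (S.R (n + 1)) * x * S.R (n + 1)) := by
      calc star S.r * (star (S.R n) * S.rp n x * S.R n) * S.r
          = (star S.r * star (S.R n)) * S.rp n x * (S.R n * S.r) := by simp only [mul_assoc]
        _ = star (S.R n) * S.rp n (S.rp n (star S.r) * x * S.rp n S.r) * S.R n := by
            rw [← e1, ← e2, map_mul, map_mul, ← S.rp_add, ← S.rp_add, ← two_mul]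
            simp only [mul_assoc]
        _ = S.rp n (star (S.R n) * (S.rp n (star S.r) * x * S.rp n S.r) * S.R n) := ih hE
        _ = S.rp n (star (S.R (n + 1)) * x * S.R (n + 1)) := by
            rw [S.R_succ, star_mul, ← map_star]
            simp only [mul_assoc]
    rw [e3] at hs
    rw [S.rp_succ n (star (S.R (n + 1)) * x * S.R (n + 1)), ← hs, S.R_succ', star_mul, ← map_star,
      S.rp_succ n x, map_mul, map_mul]
    simp only [mul_assoc]

theorem faithful {m n : ℕ} {x : T} (hx : x ∈ S.H m n) (h : star x * x = 0) : x = 0 := by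
  have hz : x * S.R m ∈ S.H 0 (n + m) := A1_memY hx
  have h0 : x * S.R m = 0 := by
    apply S.definite _ _ hz
    have e : star (x * S.R m) * (x * S.R m) = star (S.R m) * (star x * x) * S.R m := by
      rw [star_mul]; simp only [mul_assoc]
    rw [e, h, mul_zero, zero_mul]
  have hu := unbend hx
  rw [h0, mul_zero] at hu
  exact hu.symm

theorem trace_pos {m n : ℕ} {x : T} (hx : x ∈ S.H m n) : ∃ a b : ℝ, 0 ≤ a ∧ 0 ≤ b ∧
    star (S.R m) * (star x * x) * S.R m = (a : ℂ) • S.z + (b : ℂ) • (1 - S.z) := by
  obtain ⟨a, b, ha, hb, hab⟩ := S.positive _ _ (A1_memY hx)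
  refine ⟨a, b, ha, hb, ?_⟩
  rw [← hab, star_mul]
  simp only [mul_assoc]

end SubfactorPlanarAlgebra

end Pool.Agent.ST5
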