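import Pool.Agent.ST5.P.Obj

/-!
ST5 row A2. The coefficient `zc`, the trace `Tr`, elementary facts on Hom spaces.

PROOFS. `zc_eq`: z ≠ 0, so c is unique (`smul_left_injective` over a field, or
(c - c') • z = 0). `exists_zc`: an element of H 0 0 = span {z, 1-z} is α z + β (1-z)
(`Submodule.mem_span_pair`), z * it = α z. `zc_add`, ... from `zc_eq`. `decomp00`:
y = α z + β (1 - z), ρ y = α (1-z) + β z, so zc y = α, zc (ρ y) = β.
`Tr_elt`: for x ∈ H n n with z * x = x: star (R n) * x * R n ∈ H 0 0 (type bookkeeping: x padded to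
H (2n) (2n)) and equals z * itself (z central for all boxes: `z_comm`), so it is (Tr n x) • z.
`Tr_elt_left`: `spherical_all` and `Tr_elt`. `Tr_comm`: `trace_comm`. `Tr_succ`: R (n+1) = rp n r * R n and
x * rp n r = rp n r * x for x ∈ H n n, star r * r = δ. `Tr_pad`: iterate. `Tr_pos`: `trace_pos` with
z * star x * x: the coefficient of z is a ≥ 0; if it is 0 and x * z = x then star (x R) (x R) = 0,
so x = 0 (`definite`, `unbend`).
-/

namespace Pool.Agent.ST5

namespace SubfactorPlanarAlgebra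

variable {T : Type*} [Ring T] [StarRing T] [Algebra ℂ T] [StarModule ℂ T]
  {S : SubfactorPlanarAlgebra T}

theorem zc_eq {y : T} {c : ℂ} (h : S.z * y = c • S.z) : S.zc y = c := by
  have h1 : ∃ c : ℂ, S.z * y = c • S.z := ⟨c, h⟩
  unfold zc
  rw [dif_pos h1]
  have h2 := h.symm.trans h1.choose_spec
  have h3 : (c - h1.choose) • S.z = 0 := by rw [sub_smul, ← h2, sub_self]
  rcases smul_eq_zero.1 h3 with h4 | h4
  · exact (sub_eq_zero.1 h4).symm
  · exact absurd h4 S.z_ne_zero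

theorem A2_mem {y : T} (hy : y ∈ S.H 0 0) : ∃ α β : ℂ, y = α • S.z + β • (1 - S.z) := by
  rw [S.empty_box, Submodule.mem_span_pair] at hy
  obtain ⟨α, β, h⟩ := hy
  exact ⟨α, β, h.symm⟩

theorem A2_z_mul (α β : ℂ) : S.z * (α • S.z + β • (1 - S.z)) = α • S.z := by
  rw [mul_add, mul_smul_comm, mul_smul_comm, S.z_mul, mul_sub, mul_one, S.z_mul, sub_self,
    smul_zero, add_zero]

theorem zc_spec {y : T} (hy : y ∈ S.H 0 0) : S.z * y = S.zc y • S.z := by
  obtain ⟨α, β, h⟩ := A2_mem hy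
  have h1 := A2_z_mul α β (S := S)
  rw [← h] at h1
  rw [zc_eq h1, h1]

theorem zc_add {x y : T} (hx : x ∈ S.H 0 0) (hy : y ∈ S.H 0 0) :
    S.zc (x + y) = S.zc x + S.zc y := by
  apply zc_eq
  rw [mul_add, zc_spec hx, zc_spec hy, add_smul]

theorem zc_smul {x : T} (c : ℂ) (hx : x ∈ S.H 0 0) : S.zc (c • x) = c * S.zc x := by
  apply zc_eq
  rw [mul_smul_comm, zc_spec hx, smul_smul]

theorem zc_sum {ι : Type*} (s : Finset ι) (f : ι → T) (hf : ∀ i ∈ s, f i ∈ S.H 0 0) :
    S.zc (∑ i ∈ s, f i) = ∑ i ∈ s, S.zc (f i) := by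
  classical
  induction s using Finset.induction_on with
  | empty =>
    rw [Finset.sum_empty, Finset.sum_empty]
    exact zc_eq (by rw [mul_zero, zero_smul])
  | insert a s ha ih =>
    rw [Finset.sum_insert ha, Finset.sum_insert ha,
      zc_add (hf a (Finset.mem_insert_self a s))
        (Submodule.sum_mem _ fun i hi => hf i (Finset.mem_insert_of_mem hi)),
      ih fun i hi => hf i (Finset.mem_insert_of_mem hi)]

theorem decomp00 {y : T} (hy : y ∈ S.H 0 0) :
    y = S.zc y • S.z + S.zc (S.ρ y) • (1 - S.z) := by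
  obtain ⟨α, β, h⟩ := A2_mem hy
  have h1 : S.zc y = α := zc_eq (by rw [h]; exact A2_z_mul α β)
  have h2 : S.ρ y = β • S.z + α • (1 - S.z) := by
    rw [h, map_add, map_smul, map_smul, map_sub, map_one, S.rho_z, sub_sub_cancel, add_comm]
  have h3 : S.zc (S.ρ y) = β := zc_eq (by rw [h2]; exact A2_z_mul β α)
  rw [h1, h3]
  exact h

theorem closed_mem {n : ℕ} {x : T} (hx : x ∈ S.H n n) :
    star (S.R n) * x * S.R n ∈ S.H 0 0 := by
  have h1 : x ∈ S.H (2 * n) (2 * n) := pad_to n hx (by omega) (by omega)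
  exact mul_to (mul_to (star_mem' (S.R_mem n)) h1 rfl) (S.R_mem n) rfl

theorem Tr_elt {n : ℕ} {x : T} (hx : x ∈ S.H n n) (hz : S.z * x = x) :
    star (S.R n) * x * S.R n = S.Tr n x • S.z := by
  have h1 := zc_spec (closed_mem hx)
  have h2 : S.z * (star (S.R n) * x * S.R n) = star (S.R n) * x * S.R n := by
    rw [← mul_assoc, ← mul_assoc, z_comm (star_mem' (S.R_mem n)), mul_assoc (star (S.R n)), hz]
  rw [h2] at h1
  exact h1

theorem Tr_elt_left {n : ℕ} {x : T} (hx : x ∈ S.H n n) (hz : S.z * x = x) :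
    star (S.R n) * S.rp n x * S.R n = S.Tr n x • S.rp n S.z := by
  rw [spherical_all hx, Tr_elt hx hz, map_smul]

theorem Tr_add {n : ℕ} {x y : T} (hx : x ∈ S.H n n) (hy : y ∈ S.H n n) :
    S.Tr n (x + y) = S.Tr n x + S.Tr n y := by
  unfold Tr
  rw [mul_add, add_mul, zc_add (closed_mem hx) (closed_mem hy)]

theorem Tr_smul {n : ℕ} {x : T} (c : ℂ) (hx : x ∈ S.H n n) :
    S.Tr n (c • x) = c * S.Tr n x := by
  unfold Tr
  rw [mul_smul_comm, smul_mul_assoc, zc_smul c (closed_mem hx)]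

theorem Tr_sum {ι : Type*} (n : ℕ) (s : Finset ι) (f : ι → T) (hf : ∀ i ∈ s, f i ∈ S.H n n) :
    S.Tr n (∑ i ∈ s, f i) = ∑ i ∈ s, S.Tr n (f i) := by
  unfold Tr
  rw [Finset.mul_sum, Finset.sum_mul, zc_sum s _ fun i hi => closed_mem (hf i hi)]

theorem Tr_comm {m n : ℕ} {x y : T} (hx : x ∈ S.H m n) (hy : y ∈ S.H n m) :
    S.Tr n (x * y) = S.Tr m (y * x) := by
  unfold Tr
  rw [trace_comm hx hy]

theorem Tr_succ {n : ℕ} {x : T} (hx : x ∈ S.H n n) : S.Tr (n + 1) x = (S.δ : ℂ) * S.Tr n x := by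
  unfold Tr
  have h1 : x * S.rp n S.r = S.rp n S.r * x := inter hx S.r_mem
  have h2 : star (S.R (n + 1)) * x * S.R (n + 1) =
      (S.δ : ℂ) • (star (S.R n) * x * S.R n) := by
    rw [R_succ, star_mul]
    calc star (S.R n) * star (S.rp n S.r) * x * (S.rp n S.r * S.R n)
        = star (S.R n) * star (S.rp n S.r) * (x * S.rp n S.r) * S.R n := by
          simp only [mul_assoc]
      _ = star (S.R n) * (star (S.rp n S.r) * S.rp n S.r) * x * S.R n := by
          rw [h1]; simp only [mul_assoc]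
      _ = _ := by
          rw [← map_star, ← map_mul, S.loop, map_smul, map_one, mul_smul_comm, mul_one,
            smul_mul_assoc, smul_mul_assoc]
  rw [h2, zc_smul _ (closed_mem hx)]

theorem Tr_pad (k : ℕ) {n : ℕ} {x : T} (hx : x ∈ S.H n n) :
    S.Tr (n + k) x = (S.δ : ℂ) ^ k * S.Tr n x := by
  induction k with
  | zero => rw [pow_zero, one_mul, add_zero]
  | succ k ih => rw [← add_assoc, Tr_succ (pad_mem k hx), ih, pow_succ]; ring

/-- `Tr (star x * x)` is real and nonnegative, positive if `x ≠ 0` and `z x = x`. -/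
theorem Tr_pos {m n : ℕ} {x : T} (hx : x ∈ S.H m n) (hz : S.z * x = x) (h0 : x ≠ 0) :
    ∃ a : ℝ, 0 < a ∧ S.Tr m (star x * x) = a := by
  obtain ⟨a, b, ha, -, hab⟩ := trace_pos hx
  have h1 : S.Tr m (star x * x) = a := by
    unfold Tr
    apply zc_eq
    rw [hab]
    exact A2_z_mul _ _
  refine ⟨a, lt_of_le_of_ne ha ?_, h1⟩
  intro h2
  apply h0
  have hsx : star x * S.z = star x := by
    have := congrArg star hz
    rwa [star_mul, S.z_star] at this
  have hzx : S.z * (star x * x) = star x * x := by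
    rw [← mul_assoc, z_comm (star_mem' hx), hsx]
  have h3 := Tr_elt (mul_to (star_mem' hx) hx rfl) hzx
  rw [h1, ← h2, Complex.ofReal_zero, zero_smul] at h3
  have h4 : x * S.R m ∈ S.H 0 (n + m) :=
    mul_to (pad_mem m hx) (S.R_mem m) (by omega)
  have h5 : x * S.R m = 0 := by
    apply S.definite _ _ h4
    rw [star_mul, ← h3]
    simp only [mul_assoc]
  have h6 := unbend hx
  rw [h5, mul_zero] at h6
  exact h6.symm

theorem Hom_star {a b : ℕ} {p q x : T} (hp : star p = p) (hq : star q = q)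
    (hx : x ∈ S.Hom a p b q) : star x ∈ S.Hom b q a p := by
  refine ⟨star_mem' hx.1, ?_, ?_⟩
  · have := congrArg star hx.2.2
    rwa [star_mul, hp] at this
  · have := congrArg star hx.2.1
    rwa [star_mul, hq] at this

theorem Hom_mul {a b c : ℕ} {p q s x y : T} (hx : x ∈ S.Hom b q c s) (hy : y ∈ S.Hom a p b q) :
    x * y ∈ S.Hom a p c s := by
  refine ⟨mul_to hx.1 hy.1 rfl, ?_, ?_⟩
  · rw [← mul_assoc, hx.2.1]
  · rw [mul_assoc, hy.2.2]

theorem Hom_z {a b : ℕ} {p q x : T} (hq : S.z * q = q) (hx : x ∈ S.Hom a p b q) :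
    S.z * x = x := by
  rw [← hx.2.1, ← mul_assoc, hq]

theorem IsProj.pad {n : ℕ} {p : T} (hp : S.IsProj n p) (k : ℕ) : S.IsProj (n + k) p := by
  exact ⟨pad_mem k hp.mem, hp.star_eq, hp.idem, hp.z_mul⟩

theorem IsProj_z (n : ℕ) : S.IsProj n S.z := by
  exact ⟨S.z_mem n, S.z_star, S.z_mul, S.z_mul⟩

/-- Every projection has a real nonnegative trace, positive if the projection is not 0. -/
theorem IsProj.Tr_pos {n : ℕ} {p : T} (hp : S.IsProj n p) (h0 : p ≠ 0) :
    ∃ a : ℝ, 0 < a ∧ S.Tr n p = a := by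
  have h := SubfactorPlanarAlgebra.Tr_pos hp.mem hp.z_mul h0
  rwa [hp.star_eq, hp.idem] at h

end SubfactorPlanarAlgebra

end Pool.Agent.ST5
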