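import Pool.Agent.ST5.P.A2

/-!
ST5 row B1. Every nonzero projection dominates a simple one.

PROOF. A := H n n (finite-dimensional, closed under products and star, contains 1). Among the
nonzero x ∈ A with P x = x choose one with the smallest dimension of the right ideal
I = x A := {x y | y ∈ A} (P is a candidate). y := x star x ∈ I is self-adjoint and nonzero
(`faithful` for star x); y A ≤ I, P y = y, so y A = I by minimality; y y = star y * y ≠ 0
(`faithful`), y² A ≤ y A, so y² A = I too. Hence left multiplication by y maps I = y A onto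
y² A = I, so (finite dimension) it is injective on I. y ∈ I, so there is e ∈ I with y e = y.
 y (e e - e) = 0 with e e - e ∈ I, so e e = e; for v ∈ I: y (e v - v) = 0, so e v = v.
 star e * y = star (y e) = y, so star e * v = v for v ∈ y A = I, in particular star e * e = e, so
star e = star (star e * e) = e. P e = e (e ∈ I = x A), z e = z P e = e, e ≠ 0 (y e = y ≠ 0).
 Scalar: for x' ∈ A put w = e x' e; left multiplication by w maps I to I (I = e A); over ℂ it has an
eigenvector 0 ≠ v ∈ I (`Module.End.exists_eigenvalue`), w v = c v; u := w - c e satisfies u = e u, u v = 0.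
If u ≠ 0 then u A ≤ I, P u = u, so u A = I, and u = u e gives u A = u (e A) = u I, so left
multiplication by u maps I onto I, hence injective on I, contradiction with u v = 0. So w = c e.
-/

namespace Pool.Agent.ST5

namespace SubfactorPlanarAlgebra

variable {T : Type*} [Ring T] [StarRing T] [Algebra ℂ T] [StarModule ℂ T]
  {S : SubfactorPlanarAlgebra T}

omit [StarRing T] [StarModule ℂ T] in
theorem B1_bij {I : Submodule ℂ T} [FiniteDimensional ℂ I] {u : T}
    (h : I.map (LinearMap.mulLeft ℂ u) = I) : (∀ v ∈ I, u * v = 0 → v = 0) ∧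
      (∀ v ∈ I, ∃ w ∈ I, u * w = v) := by
  have hsurj : ∀ v ∈ I, ∃ w ∈ I, u * w = v := by
    intro v hv
    rw [← h] at hv
    obtain ⟨w, hw, h1⟩ := hv
    exact ⟨w, hw, h1⟩
  have hmem : ∀ v ∈ I, u * v ∈ I := by
    intro v hv
    have h1 : LinearMap.mulLeft ℂ u v ∈ I.map (LinearMap.mulLeft ℂ u) :=
      Submodule.mem_map_of_mem hv
    rwa [h] at h1
  refine ⟨?_, hsurj⟩
  have hs : Function.Surjective ((LinearMap.mulLeft ℂ u).restrict (p := I) (q := I) hmem) := by
    rintro ⟨v, hv⟩
    obtain ⟨w, hw, h1⟩ := hsurj v hv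
    exact ⟨⟨w, hw⟩, Subtype.ext h1⟩
  have hi := LinearMap.injective_iff_surjective.2 hs
  intro v hv h1
  have h2 : (⟨v, hv⟩ : I) = 0 := by
    apply hi
    apply Subtype.ext
    rw [map_zero]
    exact h1
  exact congrArg Subtype.val h2

theorem exists_simple_le {n : ℕ} {P : T} (hP : S.IsProj n P) (h0 : P ≠ 0) :
    ∃ e, S.IsSimple n e ∧ P * e = e := by
  classical
  have hfin : FiniteDimensional ℂ (S.H n n) := S.finite n n
  have hAmul : ∀ a b : T, a ∈ S.H n n → b ∈ S.H n n → a * b ∈ S.H n n := fun a b ha hb =>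
    S.mul_mem n n n a b ha hb
  -- the minimal right ideal
  have hex : ∃ d : ℕ, ∃ x ∈ S.H n n, x ≠ 0 ∧ P * x = x ∧
      Module.finrank ℂ ((S.H n n).map (LinearMap.mulLeft ℂ x)) = d :=
    ⟨_, P, hP.mem, h0, hP.idem, rfl⟩
  obtain ⟨x, hx, hx0, hPx, hd⟩ := Nat.find_spec hex
  have hmin : ∀ x' ∈ S.H n n, x' ≠ 0 → P * x' = x' →
      Module.finrank ℂ ((S.H n n).map (LinearMap.mulLeft ℂ x)) ≤
        Module.finrank ℂ ((S.H n n).map (LinearMap.mulLeft ℂ x')) := by
    intro x' hx' h1 h2
    rw [hd]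
    exact Nat.find_min' hex ⟨x', hx', h1, h2, rfl⟩
  obtain ⟨I, hI⟩ : ∃ I, I = (S.H n n).map (LinearMap.mulLeft ℂ x) := ⟨_, rfl⟩
  rw [← hI] at hmin
  have hIfin : FiniteDimensional ℂ I := by
    rw [hI]
    infer_instance
  have hIA : ∀ v ∈ I, v ∈ S.H n n := by
    intro v hv
    rw [hI] at hv
    obtain ⟨a, ha, rfl⟩ := hv
    exact hAmul _ _ hx ha
  have hIP : ∀ v ∈ I, P * v = v := by
    intro v hv
    rw [hI] at hv
    obtain ⟨a, ha, rfl⟩ := hv
    show P * (x * a) = x * a
    rw [← mul_assoc, hPx]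
  have hImul : ∀ v ∈ I, ∀ a ∈ S.H n n, v * a ∈ I := by
    intro v hv a ha
    rw [hI] at hv ⊢
    obtain ⟨b, hb, rfl⟩ := hv
    refine ⟨b * a, hAmul _ _ hb ha, ?_⟩
    show x * (b * a) = x * b * a
    rw [mul_assoc]
  -- every nonzero element of `I` generates `I`
  have hgen : ∀ y ∈ I, y ≠ 0 → (S.H n n).map (LinearMap.mulLeft ℂ y) = I := by
    intro y hy hy0
    refine Submodule.eq_of_le_of_finrank_le ?_ (hmin y (hIA y hy) hy0 (hIP y hy))
    rintro v ⟨a, ha, rfl⟩
    exact hImul y hy a ha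
  have hbij : ∀ u ∈ I, ∀ e' ∈ I, u * e' ≠ 0 → (∀ v ∈ I, u * v = 0 → v = 0) ∧
      (∀ v ∈ I, ∃ w ∈ I, u * w = v) := by
    intro u hu e' he' h1
    apply B1_bij
    have h2 : e' ≠ 0 := by
      rintro rfl
      exact h1 (mul_zero _)
    calc I.map (LinearMap.mulLeft ℂ u)
        = ((S.H n n).map (LinearMap.mulLeft ℂ e')).map (LinearMap.mulLeft ℂ u) := by
          rw [hgen e' he' h2]
      _ = (S.H n n).map (LinearMap.mulLeft ℂ (u * e')) := by
          rw [← Submodule.map_comp, ← LinearMap.mulLeft_mul]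
      _ = I := hgen (u * e') (hImul u hu e' (hIA e' he')) h1
  obtain ⟨y, hy⟩ : ∃ y, y = x * star x := ⟨_, rfl⟩
  have hsx : star x ∈ S.H n n := star_mem' hx
  have hxI : x * star x ∈ I := by
    rw [hI]
    exact ⟨star x, hsx, rfl⟩
  have hyI : y ∈ I := by rw [hy]; exact hxI
  have hys : star y = y := by rw [hy, star_mul, star_star]
  have hy0 : y ≠ 0 := by
    intro h
    apply hx0
    have h1 : star x = 0 := by
      apply faithful hsx
      rw [star_star, ← hy]
      exact h
    rw [← star_star x, h1, star_zero]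
  have hyy : y * y ≠ 0 := by
    intro h
    apply hy0
    apply faithful (hIA y hyI)
    rw [hys]
    exact h
  obtain ⟨hyinj, hysurj⟩ := hbij y hyI y hyI hyy
  obtain ⟨e, heI, hye⟩ := hysurj y hyI
  have heA := hIA e heI
  have hleft : ∀ v ∈ I, e * v = v := by
    intro v hv
    have h1 : e * v - v ∈ I := Submodule.sub_mem _ (hImul e heI v (hIA v hv)) hv
    have h2 := hyinj _ h1 (by rw [mul_sub, ← mul_assoc, hye, sub_self])
    exact sub_eq_zero.1 h2
  have hee : e * e = e := hleft e heI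
  have hsey : star e * y = y := by
    have h1 := congrArg star hye
    rwa [star_mul, hys] at h1
  have hsev : star e * e = e := by
    have h1 := heI
    rw [← hgen y hyI hy0] at h1
    obtain ⟨a, ha, h2⟩ := h1
    have h3 : y * a = e := h2
    calc star e * e = star e * (y * a) := by rw [h3]
      _ = star e * y * a := (mul_assoc _ _ _).symm
      _ = e := by rw [hsey, h3]
  have hse : star e = e := by
    have h1 := congrArg star hsev
    rw [star_mul, star_star, hsev] at h1
    exact h1.symm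
  have he0 : e ≠ 0 := by
    rintro rfl
    rw [mul_zero] at hye
    exact hy0 hye.symm
  have hPe : P * e = e := hIP e heI
  have hze : S.z * e = e := by
    rw [← hPe, ← mul_assoc, hP.z_mul]
  refine ⟨e, ⟨⟨heA, hse, hee, hze⟩, he0, ?_⟩, hPe⟩
  intro x' hx'
  obtain ⟨w, hw⟩ : ∃ w, w = e * x' * e := ⟨_, rfl⟩
  have hwA : w ∈ S.H n n := by
    rw [hw]
    exact hAmul _ _ (hAmul _ _ heA hx') heA
  have hwI : w ∈ I := by
    rw [hw, mul_assoc]
    exact hImul e heI _ (hAmul _ _ hx' heA)
  have hIne : Nontrivial I := ⟨⟨⟨e, heI⟩, 0, fun h => he0 (congrArg Subtype.val h)⟩⟩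
  obtain ⟨c, hc⟩ := Module.End.exists_eigenvalue
    ((LinearMap.mulLeft ℂ w).restrict (p := I) (q := I) fun v hv => hImul w hwI v (hIA v hv))
  obtain ⟨v, hv⟩ := hc.exists_hasEigenvector
  have hv1 : w * (v : T) = c • (v : T) := congrArg Subtype.val hv.apply_eq_smul
  have hv0 : (v : T) ≠ 0 := fun h => hv.2 (Subtype.ext h)
  refine ⟨c, ?_⟩
  rw [← hw]
  by_contra hne
  have hu0 : w - c • e ≠ 0 := sub_ne_zero.2 hne
  have huI : w - c • e ∈ I := Submodule.sub_mem _ hwI (Submodule.smul_mem _ _ heI)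
  have hue : (w - c • e) * e = w - c • e := by
    rw [sub_mul, smul_mul_assoc, hee, hw, mul_assoc (e * x'), hee]
  have h1 := (hbij (w - c • e) huI e heI (by rw [hue]; exact hu0)).1 v v.2 (by
    rw [sub_mul, hv1, smul_mul_assoc, hleft v v.2, sub_self])
  exact hv0 h1

end SubfactorPlanarAlgebra

end Pool.Agent.ST5
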