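import Pool.Agent.ST5.P.B1

/-!
ST5 row B2. Every projection is a finite sum of orthogonal simple projections.

PROOF. Strong induction on finrank of M(P) = {x ∈ H n n | P x = x} (e.g. `S.Hom n 1 n P`). P = 0: the empty
family. P ≠ 0: take e simple with P e = e (`exists_simple_le`), so e P = star (P e) = e; P' = P - e is
a projection (star, P' P' = P - e - e + e = P', z P' = P'), M(P') ≤ M(P) strictly since e ∈ M(P) and
P' e = 0 ≠ e. The induction hypothesis gives e_1..e_k with sum P', orthogonal; P' e_i = e_i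
(multiply the sum by e_i), e e_i = e P' e_i = 0, e_i e = star (e e_i) = 0.
-/

namespace Pool.Agent.ST5

namespace SubfactorPlanarAlgebra

variable {T : Type*} [Ring T] [StarRing T] [Algebra ℂ T] [StarModule ℂ T]
  {S : SubfactorPlanarAlgebra T}

theorem exists_decomp {n : ℕ} {P : T} (hP : S.IsProj n P) :
    ∃ (k : ℕ) (e : Fin k → T), (∀ i, S.IsSimple n (e i)) ∧ (∀ i j, i ≠ j → e i * e j = 0) ∧
      ∑ i, e i = P := by
  induction hd : Module.finrank ℂ (S.Hom n 1 n P) using Nat.strong_induction_on generalizing P with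
  | _ d ih =>
  by_cases h0 : P = 0
  · refine ⟨0, fun i => i.elim0, fun i => i.elim0, fun i => i.elim0, ?_⟩
    rw [Finset.univ_eq_empty, Finset.sum_empty, h0]
  obtain ⟨e, he, hPe⟩ := exists_simple_le hP h0
  have heP : e * P = e := by
    have h1 := congrArg star hPe
    rwa [star_mul, hP.star_eq, he.star_eq] at h1
  obtain ⟨P', hP'⟩ : ∃ P', P' = P - e := ⟨_, rfl⟩
  have hPP' : P * P' = P' := by rw [hP', mul_sub, hP.idem, hPe]
  have heP' : e * P' = 0 := by rw [hP', mul_sub, heP, he.idem, sub_self]
  have hP'e : P' * e = 0 := by rw [hP', sub_mul, hPe, he.idem, sub_self]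
  have hproj : S.IsProj n P' := by
    refine ⟨?_, ?_, ?_, ?_⟩
    · rw [hP']
      exact Submodule.sub_mem _ hP.mem he.mem
    · rw [hP', star_sub, hP.star_eq, he.star_eq]
    · have h1 : P' * P' = (P - e) * P' := by rw [hP']
      rw [h1, sub_mul, hPP', heP', sub_zero]
    · rw [hP', mul_sub, hP.z_mul, he.z_mul]
  have hlt : S.Hom n 1 n P' < S.Hom n 1 n P := by
    refine lt_of_le_of_ne ?_ ?_
    · rintro x ⟨h1, h2, h3⟩
      refine ⟨h1, ?_, h3⟩
      rw [← h2, ← mul_assoc, hPP']
    · intro h
      have h1 : e ∈ S.Hom n 1 n P := ⟨he.mem, hPe, mul_one _⟩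
      rw [← h] at h1
      apply he.ne_zero
      have h2 := h1.2.1
      rw [hP'e] at h2
      exact h2.symm
  have hfin : FiniteDimensional ℂ (S.Hom n 1 n P) := inferInstance
  have hlt' := Submodule.finrank_lt_finrank_of_lt hlt
  rw [hd] at hlt'
  obtain ⟨k, f, hf1, hf2, hf3⟩ := ih _ hlt' hproj rfl
  have hP'f : ∀ j, P' * f j = f j := by
    intro j
    rw [← hf3, Finset.sum_mul, Finset.sum_eq_single j]
    · exact (hf1 j).idem
    · intro i _ hij
      exact hf2 i j hij
    · intro h
      exact absurd (Finset.mem_univ j) h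
  have hef : ∀ j, e * f j = 0 := by
    intro j
    rw [← hP'f j, ← mul_assoc, heP', zero_mul]
  have hfe : ∀ j, f j * e = 0 := by
    intro j
    have h1 := congrArg star (hef j)
    rwa [star_mul, he.star_eq, (hf1 j).star_eq, star_zero] at h1
  refine ⟨k + 1, Fin.cons e f, ?_, ?_, ?_⟩
  · intro i
    refine Fin.cases ?_ (fun i => ?_) i
    · rw [Fin.cons_zero]
      exact he
    · rw [Fin.cons_succ]
      exact hf1 i
  · intro i j
    refine Fin.cases ?_ (fun i => ?_) i
    · refine Fin.cases ?_ (fun j => ?_) j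
      · intro h
        exact absurd rfl h
      · intro _
        rw [Fin.cons_zero, Fin.cons_succ]
        exact hef j
    · refine Fin.cases ?_ (fun j => ?_) j
      · intro _
        rw [Fin.cons_zero, Fin.cons_succ]
        exact hfe i
      · intro h
        rw [Fin.cons_succ, Fin.cons_succ]
        exact hf2 i j (fun h1 => h (congrArg Fin.succ h1))
  · rw [Fin.sum_univ_succ, Fin.cons_zero]
    simp only [Fin.cons_succ]
    rw [hf3, hP']
    abel

end SubfactorPlanarAlgebra

end Pool.Agent.ST5
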