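import Pool.Agent.ST5.P.B2
import Pool.Agent.ST5.P.B3

/-!
ST5 row B4. Finite depth bounds the number of inequivalent simple objects.

PROOF. Let B₀ bound the dimensions of the centres; B := 2 B₀. Let F be the set of the indices i with n i
even (the odd case is the same); it is enough that |F| ≤ B₀ for each parity. Choose N with
N ≥ n i, N ≡ n i mod 2 for all i ∈ F, and transport: p' i simple at level N = n i + 2 s i, with
w i ∈ Hom(p i, p' i), star w w = p, w star w = p'. For i ≠ j in F every x ∈ Hom(p' i, p' j) is 0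
(star (w j) x (w i) ∈ Hom(p i, p j) is 0, so x = w j (star (w j) x w i) star (w i) = 0).
Decompose z = ∑_l e l at level N (`IsProj_z`, `exists_decomp`). C i := the sum of the e l with
Hom(p' i, e l) ≠ 0 (some nonzero element).
 * C i commutes with y ∈ H N N: y commutes with z; C i * y = C i * y * z = ∑ e l y e m, over l ∈ C i; if
   e l y e m ≠ 0 then it is a nonzero element of Hom(e m, e l), so (`schur`) composing with it shows
   Hom(p' i, e m) ≠ 0, so m ∈ C i; hence C i y = C i y C i, and in the same way y C i = C i y C i.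
 * C i ≠ 0: p' i = z p' i = ∑ e l p' i, so some e l p' i ≠ 0, an element of Hom(p' i, e l).
   [C i * e l = e l ≠ 0.]
 * C i C j = 0 for i ≠ j: a common e l gives nonzero elements of Hom(p' i, e l), Hom(p' j, e l), so by
   `schur` a nonzero element of Hom(p' i, p' j).
Nonzero orthogonal idempotents in `S.centre N` are linearly independent, so |F| ≤ finrank ≤ B₀.
-/

namespace Pool.Agent.ST5

namespace SubfactorPlanarAlgebra

variable {T : Type*} [Ring T] [StarRing T] [Algebra ℂ T] [StarModule ℂ T]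
  {S : SubfactorPlanarAlgebra T}

theorem B4_zero {N : ℕ} {a : ℕ} {q f g x y : T} (hf : S.IsSimple N f) (hg : S.IsSimple N g)
    (hx : x ∈ S.Hom a q N f) (hx0 : x ≠ 0) (hg0 : ∀ x ∈ S.Hom a q N g, x = 0)
    (hy : y ∈ S.H N N) : f * y * g = 0 := by
  by_contra h
  have h1 : f * y * g ∈ S.Hom N g N f := by
    refine ⟨mul_to (mul_to hf.mem hy rfl) hg.mem rfl, ?_, ?_⟩
    · rw [← mul_assoc, ← mul_assoc, hf.idem]
    · rw [mul_assoc, hg.idem]
  obtain ⟨v, hv, hv1, hv2, -⟩ := schur hg hf h1 h
  have h2 : star v * x = 0 := hg0 _ (Hom_mul (Hom_star hg.star_eq hf.star_eq hv) hx)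
  apply hx0
  rw [← hx.2.1, ← hv2, mul_assoc, h2, mul_zero]

theorem B4_zero' {N : ℕ} {a : ℕ} {q f g x y : T} (hf : S.IsSimple N f) (hg : S.IsSimple N g)
    (hx : x ∈ S.Hom a q N f) (hx0 : x ≠ 0) (hg0 : ∀ x ∈ S.Hom a q N g, x = 0)
    (hy : y ∈ S.H N N) : g * y * f = 0 := by
  have h := B4_zero hf hg hx hx0 hg0 (star_mem' hy)
  have h1 := congrArg star h
  rw [star_mul, star_mul, star_star, hf.star_eq, hg.star_eq, star_zero, ← mul_assoc] at h1
  exact h1

theorem B4_core (N : ℕ) {ι : Type} [Fintype ι] (q : ι → T) (hq : ∀ i, S.IsSimple N (q i))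
    (hne : ∀ i j, i ≠ j → ∀ x ∈ S.Hom N (q i) N (q j), x = 0) :
    Fintype.card ι ≤ Module.finrank ℂ (S.centre N) := by
  classical
  obtain ⟨k, e, he, heo, hes⟩ := exists_decomp (S.IsProj_z N)
  let D : ι → Finset (Fin k) := fun i => Finset.univ.filter (fun l => ∃ x ∈ S.Hom N (q i) N (e l), x ≠ 0)
  have hD : ∀ i l, l ∈ D i ↔ ∃ x ∈ S.Hom N (q i) N (e l), x ≠ 0 := by
    intro i l; simp [D]
  let C : ι → T := fun i => ∑ l ∈ D i, e l
  have hC : ∀ i, C i = ∑ l ∈ D i, e l := fun i => rfl
  have hnD : ∀ i l, l ∉ D i → ∀ x ∈ S.Hom N (q i) N (e l), x = 0 := by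
    intro i l hl x hx
    by_contra h
    exact hl ((hD i l).2 ⟨x, hx, h⟩)
  have hCm : ∀ i, C i ∈ S.H N N := fun i => Submodule.sum_mem _ fun l _ => (he l).mem
  have hzC : ∀ i, S.z * C i = C i := by
    intro i
    rw [hC, Finset.mul_sum]
    exact Finset.sum_congr rfl fun l _ => (he l).z_mul
  have h1 : ∀ i, ∀ y ∈ S.H N N, C i * y = C i * y * C i := by
    intro i y hy
    have e1 : C i * y = C i * y * S.z := by
      rw [mul_assoc, ← z_comm hy, ← mul_assoc, ← z_comm (hCm i), hzC]
    have e2 : ∀ m ∈ (Finset.univ : Finset (Fin k)), m ∉ D i → C i * y * e m = 0 := by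
      intro m _ hm
      rw [hC, Finset.sum_mul, Finset.sum_mul]
      refine Finset.sum_eq_zero fun l hl => ?_
      obtain ⟨x, hx, hx0⟩ := (hD i l).1 hl
      exact B4_zero (he l) (he m) hx hx0 (hnD i m hm) hy
    calc C i * y = C i * y * S.z := e1
      _ = ∑ m, C i * y * e m := by rw [← hes, Finset.mul_sum]
      _ = ∑ m ∈ D i, C i * y * e m := (Finset.sum_subset (Finset.subset_univ (D i)) e2).symm
      _ = C i * y * C i := by rw [← Finset.mul_sum, ← hC]
  have h2 : ∀ i, ∀ y ∈ S.H N N, y * C i = C i * y * C i := by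
    intro i y hy
    have e1 : y * C i = S.z * (y * C i) := by
      rw [← mul_assoc, z_comm hy, mul_assoc, hzC]
    have e2 : ∀ m ∈ (Finset.univ : Finset (Fin k)), m ∉ D i → e m * (y * C i) = 0 := by
      intro m _ hm
      rw [hC, Finset.mul_sum, Finset.mul_sum]
      refine Finset.sum_eq_zero fun l hl => ?_
      obtain ⟨x, hx, hx0⟩ := (hD i l).1 hl
      rw [← mul_assoc]
      exact B4_zero' (he l) (he m) hx hx0 (hnD i m hm) hy
    calc y * C i = S.z * (y * C i) := e1
      _ = ∑ m, e m * (y * C i) := by rw [← hes, Finset.sum_mul]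
      _ = ∑ m ∈ D i, e m * (y * C i) := (Finset.sum_subset (Finset.subset_univ (D i)) e2).symm
      _ = C i * y * C i := by rw [← Finset.sum_mul, ← hC, ← mul_assoc]
  have hcen : ∀ i, C i ∈ S.centre N := fun i => ⟨hCm i, fun y hy => (h1 i y hy).trans (h2 i y hy).symm⟩
  have hself : ∀ i l, l ∈ D i → e l * C i = e l := by
    intro i l hl
    rw [hC, Finset.mul_sum, Finset.sum_eq_single l]
    · exact (he l).idem
    · intro m _ hml
      exact heo l m (Ne.symm hml)
    · intro h; exact absurd hl h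
  have hnon : ∀ i l, l ∉ D i → e l * C i = 0 := by
    intro i l hl
    rw [hC, Finset.mul_sum]
    refine Finset.sum_eq_zero fun m hm => heo l m ?_
    rintro rfl
    exact hl hm
  have hC0 : ∀ i, C i ≠ 0 := by
    intro i h
    obtain ⟨l, hl⟩ : ∃ l, e l * q i ≠ 0 := by
      by_contra hcon
      push Not at hcon
      apply (hq i).ne_zero
      rw [← (hq i).z_mul, ← hes, Finset.sum_mul]
      exact Finset.sum_eq_zero fun l _ => hcon l
    have hlD : l ∈ D i := (hD i l).2 ⟨e l * q i, ⟨mul_to (he l).mem (hq i).mem rfl,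
      by rw [← mul_assoc, (he l).idem], by rw [mul_assoc, (hq i).idem]⟩, hl⟩
    have := hself i l hlD
    rw [h, mul_zero] at this
    exact (he l).ne_zero this.symm
  have hdisj : ∀ i j, i ≠ j → ∀ l ∈ D i, l ∉ D j := by
    intro i j hij l hi hj
    obtain ⟨x, hx, hx0⟩ := (hD i l).1 hi
    obtain ⟨y, hy, hy0⟩ := (hD j l).1 hj
    obtain ⟨v, hv, hv1, hv2, -⟩ := schur (hq i) (he l) hx hx0
    have h3 : star v * y = 0 := hne j i (Ne.symm hij) _
      (Hom_mul (Hom_star (hq i).star_eq (he l).star_eq hv) hy)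
    apply hy0
    rw [← hy.2.1, ← hv2, mul_assoc, h3, mul_zero]
  have hCC : ∀ i, C i * C i = C i := by
    intro i
    rw [hC i, Finset.sum_mul, ← hC i]
    exact Finset.sum_congr rfl fun l hl => hself i l hl
  have hCC0 : ∀ i j, i ≠ j → C i * C j = 0 := by
    intro i j hij
    rw [hC i, Finset.sum_mul]
    exact Finset.sum_eq_zero fun l hl => hnon j l (hdisj i j hij l hl)
  have : FiniteDimensional ℂ (S.H N N) := S.finite N N
  have : FiniteDimensional ℂ (S.centre N) :=
    Submodule.finiteDimensional_of_le (S₂ := S.H N N) (fun x hx => hx.1)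
  have hli : LinearIndependent ℂ (fun i => (⟨C i, hcen i⟩ : S.centre N)) := by
    rw [Fintype.linearIndependent_iff]
    intro g hg j
    have h4 := congrArg (fun x : S.centre N => C j * (x : T)) hg
    simp only [Submodule.coe_sum, Submodule.coe_smul, Submodule.coe_zero, mul_zero] at h4
    rw [Finset.mul_sum, Finset.sum_eq_single j] at h4
    · rw [mul_smul_comm, hCC] at h4
      exact (smul_eq_zero.1 h4).resolve_right (hC0 j)
    · intro i _ hij
      rw [mul_smul_comm, hCC0 j i (Ne.symm hij), smul_zero]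
    · intro h; exact absurd (Finset.mem_univ j) h
  exact hli.fintype_card_le_finrank

theorem B4_transport {a N : ℕ} {p : T} (hp : S.IsSimple a p) (h : a ≤ N) (h2 : a % 2 = N % 2) :
    ∃ p' w, S.IsSimple N p' ∧ w ∈ S.Hom a p N p' ∧ star w * w = p ∧ w * star w = p' := by
  obtain ⟨s, rfl⟩ : ∃ s, N = a + 2 * s := ⟨(N - a) / 2, by omega⟩
  exact transport s hp

theorem B4_parity {B₀ : ℕ} (h : ∀ k, Module.finrank ℂ (S.centre k) ≤ B₀) (k : ℕ) (n : Fin k → ℕ)
    (p : Fin k → T) (hs : ∀ i, S.IsSimple (n i) (p i))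
    (hne : ∀ i j, i ≠ j → ∀ x ∈ S.Hom (n i) (p i) (n j) (p j), x = 0) (c : ℕ) (hc : c < 2) :
    (Finset.univ.filter (fun i => n i % 2 = c)).card ≤ B₀ := by
  classical
  have hle : ∀ i, n i ≤ 2 * (∑ j, n j) + c := by
    intro i
    have := Finset.single_le_sum (f := n) (fun j _ => Nat.zero_le _) (Finset.mem_univ i)
    omega
  have hN : (2 * (∑ j, n j) + c) % 2 = c := by omega
  generalize 2 * (∑ j, n j) + c = N at hle hN
  have h1 : ∀ i : {i : Fin k // n i % 2 = c}, ∃ p' w, S.IsSimple N p' ∧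
      w ∈ S.Hom (n i) (p i) N p' ∧ star w * w = p i ∧ w * star w = p' := fun i =>
    B4_transport (hs i) (hle i) (by rw [i.2, hN])
  choose p' w hp' hw hw1 hw2 using h1
  have h2 : Fintype.card {i : Fin k // n i % 2 = c} ≤ Module.finrank ℂ (S.centre N) := by
    refine B4_core N p' hp' ?_
    intro i j hij x hx
    have h3 : star (w j) * x * w i = 0 := by
      refine hne i j (fun h => hij (Subtype.ext h)) _ ?_
      exact Hom_mul (Hom_mul (Hom_star (hs j).star_eq (hp' j).star_eq (hw j)) hx) (hw i)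
    rw [← hx.2.1, ← hx.2.2, ← hw2 j, ← hw2 i]
    calc w j * star (w j) * (x * (w i * star (w i)))
        = w j * (star (w j) * x * w i) * star (w i) := by simp only [mul_assoc]
      _ = 0 := by rw [h3, mul_zero, zero_mul]
  rw [Fintype.card_subtype] at h2
  exact h2.trans (h N)

theorem classes_bounded (h : S.FiniteDepth) : ∃ B : ℕ, ∀ (k : ℕ) (n : Fin k → ℕ) (p : Fin k → T),
    (∀ i, S.IsSimple (n i) (p i)) →
    (∀ i j, i ≠ j → ∀ x ∈ S.Hom (n i) (p i) (n j) (p j), x = 0) → k ≤ B := by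
  obtain ⟨B₀, hB⟩ := h
  refine ⟨B₀ + B₀, fun k n p hs hne => ?_⟩
  have h0 := B4_parity hB k n p hs hne 0 (by norm_num)
  have h1 := B4_parity hB k n p hs hne 1 (by norm_num)
  have h2 : (Finset.univ : Finset (Fin k)) =
      Finset.univ.filter (fun i => n i % 2 = 0) ∪ Finset.univ.filter (fun i => n i % 2 = 1) := by
    ext i
    simp only [Finset.mem_univ, Finset.mem_union, Finset.mem_filter, true_and, true_iff]
    omega
  have h3 := Finset.card_union_le (Finset.univ.filter (fun i => n i % 2 = 0))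
    (Finset.univ.filter (fun i => n i % 2 = 1))
  rw [← h2, Finset.card_univ, Fintype.card_fin] at h3
  omega

end SubfactorPlanarAlgebra

end Pool.Agent.ST5
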