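import Pool.Agent.ST5.Def

/-!
ST5: basic calculus in a subfactor planar algebra.
-/

namespace Pool.Agent.ST5

namespace SubfactorPlanarAlgebra

variable {T : Type*} [Ring T] [StarRing T] [Algebra ℂ T] [StarModule ℂ T]
  (S : SubfactorPlanarAlgebra T)

/-- Adding `n` vertical strings on the left. -/
def rp : ℕ → (T →⋆ₐ[ℂ] T)
  | 0 => StarAlgHom.id ℂ T
  | (n + 1) => S.ρ.comp (rp n)

@[simp] lemma rp_zero (x : T) : S.rp 0 x = x := rfl

lemma rp_succ (n : ℕ) (x : T) : S.rp (n + 1) x = S.ρ (S.rp n x) := rfl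

lemma rp_one (x : T) : S.rp 1 x = S.ρ x := rfl

lemma rp_add (m n : ℕ) (x : T) : S.rp (m + n) x = S.rp m (S.rp n x) := by
  induction m with
  | zero => simp
  | succ m ih => rw [Nat.succ_add, rp_succ, ih, rp_succ]

lemma rp_succ' (n : ℕ) (x : T) : S.rp (n + 1) x = S.rp n (S.ρ x) := by
  rw [rp_add, rp_one]

lemma iterate_rho (n : ℕ) (x : T) : S.ρ^[n] x = S.rp n x := by
  induction n with
  | zero => rfl
  | succ n ih => rw [Function.iterate_succ_apply', ih, rp_succ]

variable {S}

lemma pad_mem (k : ℕ) {m n : ℕ} {x : T} (h : x ∈ S.H m n) : x ∈ S.H (m + k) (n + k) := by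
  induction k with
  | zero => exact h
  | succ k ih => exact S.pad _ _ _ ih

/-- Padding with the target type given by equations. -/
lemma pad_to {m n m' n' : ℕ} (k : ℕ) {x : T} (h : x ∈ S.H m n) (hm : m' = m + k)
    (hn : n' = n + k) : x ∈ S.H m' n' := by
  subst hm; subst hn; exact pad_mem k h

lemma rp_mem (k : ℕ) {m n : ℕ} {x : T} (h : x ∈ S.H m n) : S.rp k x ∈ S.H (m + k) (n + k) := by
  induction k with
  | zero => exact h
  | succ k ih => exact S.rho_mem _ _ _ ih

/-- Left padding with the target type given by equations. -/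
lemma rp_to {m n m' n' : ℕ} (k : ℕ) {x : T} (h : x ∈ S.H m n) (hm : m' = m + k)
    (hn : n' = n + k) : S.rp k x ∈ S.H m' n' := by
  subst hm; subst hn; exact rp_mem k h

/-- Composition with the types given by equations. -/
lemma mul_to {m n n' k : ℕ} {x y : T} (hx : x ∈ S.H n k) (hy : y ∈ S.H m n') (h : n = n') :
    x * y ∈ S.H m k := by
  subst h; exact S.mul_mem _ _ _ _ _ hx hy

lemma star_mem' {m n : ℕ} {x : T} (h : x ∈ S.H m n) : star x ∈ S.H n m := S.star_mem _ _ _ h

/-- The interchange law. -/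
lemma inter {m n p q : ℕ} {x y : T} (hx : x ∈ S.H m n) (hy : y ∈ S.H p q) :
    x * S.rp m y = S.rp n y * x := by
  have := S.interchange m n p q x y hx hy
  rwa [iterate_rho, iterate_rho] at this

variable (S)

lemma z_mem (n : ℕ) : S.z ∈ S.H n n := by
  have h : S.z ∈ S.H 0 0 := by
    rw [S.empty_box]; exact Submodule.subset_span (by simp)
  exact pad_to n h (by omega) (by omega)

lemma one_mem (n : ℕ) : (1 : T) ∈ S.H n n := by
  have h : (1 : T) ∈ S.H 0 0 := by
    have h1 : S.z ∈ S.H 0 0 := S.z_mem 0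
    have h2 : 1 - S.z ∈ S.H 0 0 := by
      rw [S.empty_box]; exact Submodule.subset_span (by simp)
    have := Submodule.add_mem _ h1 h2
    simpa using this
  exact pad_to n h (by omega) (by omega)

variable {S}

lemma z_comm {m n : ℕ} {x : T} (hx : x ∈ S.H m n) : S.z * x = x * S.z := by
  have := inter (S.z_mem 0) hx
  simpa using this

variable (S)

lemma rp_z (n : ℕ) : S.rp n S.z = if Even n then S.z else 1 - S.z := by
  induction n with
  | zero => simp
  | succ n ih =>
    rw [rp_succ, ih]
    by_cases h : Even n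
    · rw [if_pos h, if_neg (by rw [Nat.even_add_one]; simpa using h), S.rho_z]
    · rw [if_neg h, if_pos (by rw [Nat.even_add_one]; exact h), map_sub, map_one, S.rho_z]
      abel

lemma rp_z_even {n : ℕ} (h : n % 2 = 0) : S.rp n S.z = S.z := by
  rw [rp_z, if_pos (Nat.even_iff.mpr h)]

/-- `n` nested cups. -/
def R : ℕ → T
  | 0 => 1
  | (n + 1) => S.rp n S.r * R n

@[simp] lemma R_zero : S.R 0 = 1 := rfl

lemma R_succ (n : ℕ) : S.R (n + 1) = S.rp n S.r * S.R n := rfl

lemma R_one : S.R 1 = S.r := by rw [R_succ]; simp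

lemma R_mem (n : ℕ) : S.R n ∈ S.H 0 (2 * n) := by
  induction n with
  | zero => exact S.one_mem 0
  | succ n ih =>
    rw [R_succ]
    have h : S.rp n S.r ∈ S.H (2 * n) (2 * (n + 1)) := by
      have h1 : S.rp n S.r ∈ S.H (0 + n) (2 + n) := rp_mem n S.r_mem
      exact pad_to n h1 (by omega) (by omega)
    exact mul_to h ih rfl

lemma R_succ' (n : ℕ) : S.R (n + 1) = S.ρ (S.R n) * S.r := by
  induction n with
  | zero => simp [R_succ]
  | succ n ih =>
    have h1 : S.R (n + 1 + 1) = S.rp (n + 1) S.r * S.R (n + 1) := rfl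
    have h2 : S.ρ (S.R (n + 1)) = S.rp (n + 1) S.r * S.ρ (S.R n) := by
      rw [R_succ, map_mul, ← rp_succ]
    rw [h1, h2, ih, mul_assoc]

lemma R_add (n m : ℕ) : S.R (n + m) = S.rp n (S.R m) * S.R n := by
  induction m with
  | zero => simp
  | succ m ih =>
    rw [← add_assoc, R_succ, ih, R_succ, map_mul, ← rp_add, mul_assoc]

lemma snake (n : ℕ) : star (S.R n) * S.rp n (S.R n) = 1 := by
  induction n with
  | zero => simp
  | succ n ih =>
    -- R (n+1) = rp n r * R n on the star side, = ρ (R n) * r on the other side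
    have h1 : star (S.R (n + 1)) = star (S.R n) * S.rp n (star S.r) := by
      rw [R_succ, star_mul, map_star]
    have h2 : S.rp (n + 1) (S.R (n + 1)) = S.rp (n + 1) (S.rp n S.r) * S.rp (n + 1) (S.R n) := by
      rw [R_succ, map_mul]
    rw [h1]
    have h3 : S.R (n + 1) = S.ρ (S.R n) * S.r := S.R_succ' n
    rw [h3, map_mul, ← rp_succ']
    -- star R_n * rp n (star r) * (rp (n+1) (ρ R_n) * rp (n+1) r)
    have h4 : S.rp n (star S.r) * (S.rp (n + 1 + 1) (S.R n) * S.rp (n + 1) S.r)
        = S.rp n (S.R n) := by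
      have h5 : S.rp n (star S.r) * (S.rp (n + 1 + 1) (S.R n) * S.rp (n + 1) S.r)
          = S.rp n (star S.r * (S.rp 2 (S.R n) * S.ρ S.r)) := by
        rw [map_mul, map_mul, ← rp_add, ← rp_succ', add_assoc]
      rw [h5]
      congr 1
      have h6 : star S.r * S.rp 2 (S.R n) = S.rp 0 (S.R n) * star S.r :=
        inter (star_mem' S.r_mem) (S.R_mem n)
      rw [← mul_assoc, h6, mul_assoc, S.zigzag, mul_one, rp_zero]
    rw [mul_assoc, h4, ih]

lemma snake' (n : ℕ) : S.rp n (star (S.R n)) * S.R n = 1 := by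
  have := congrArg star (S.snake n)
  rwa [star_mul, star_star, star_one, ← map_star] at this

lemma loopR (n : ℕ) : star (S.R n) * S.R n = ((S.δ ^ n : ℝ) : ℂ) • (1 : T) := by
  induction n with
  | zero => simp
  | succ n ih =>
    rw [R_succ, star_mul, ← map_star]
    have : star (S.R n) * S.rp n (star S.r) * (S.rp n S.r * S.R n)
        = star (S.R n) * S.rp n (star S.r * S.r) * S.R n := by
      rw [map_mul]; simp only [mul_assoc]
    rw [this, S.loop, map_smul, map_one, mul_smul_comm, mul_one, smul_mul_assoc, ih, smul_smul]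
    congr 1
    push_cast
    ring

/-- Boxes without bottom strings slide over everything. -/
lemma slide {k p q : ℕ} {x y : T} (hx : x ∈ S.H 0 k) (hy : y ∈ S.H p q) :
    S.rp k y * x = x * y := by
  have := inter hx hy
  simpa using this.symm

/-- Boxes without top strings slide over everything. -/
lemma slide' {k p q : ℕ} {x y : T} (hx : x ∈ S.H k 0) (hy : y ∈ S.H p q) :
    x * S.rp k y = y * x := by
  have := inter hx hy
  simpa using this

end SubfactorPlanarAlgebra

end Pool.Agent.ST5
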