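import Pool.Agent.ST5.P.Sys

/-!
ST5 row C0. Expansions in complete families; dimensions of Hom spaces.

PROOFS (P x = x etc. from membership in the Hom spaces; `h.orth`, `h.complete`, Q.ortho, Q.simple).
`cross`: star (v i s) * v j t ∈ Hom(p j, p i) (`Hom_star`, `Hom_mul`), 0 by `Q.ortho` for i ≠ j.
`coeff`: star (v j s) * x ∈ Hom(p j, p j), so it equals p j (…) p j = c p j (`IsSimple.scalar`).
`expand`: x = P x = ∑_i ∑_s v i s star (v i s) x; for i ≠ j star (v i s) x ∈ Hom(p j, p i) = 0; for i = j it is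
c s p j, and v j s p j = v j s.
`lin_indep`: from ∑ c s v j s = 0 multiply on the left by star (v j t): c t p j = 0, p j ≠ 0.
`finrank_Hom`: the v j s (s ∈ ι j) are a basis of Hom(p j, P) (`finrank_eq_card_basis` or
`finrank_span_eq_card` and span = Hom).
`finrank_self`: Hom(p l, p i) at the levels a l, a i: dimension 1 if l = i (spanned by p i), else 0
(`Q.ortho`).
-/

namespace Pool.Agent.ST5

namespace SubfactorPlanarAlgebra

namespace SimpleSystem

variable {T : Type*} [Ring T] [StarRing T] [Algebra ℂ T] [StarModule ℂ T]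
  {S : SubfactorPlanarAlgebra T} (Q : S.SimpleSystem)

theorem C0_starP {n : ℕ} {P : T} {ι : Q.J → Type} [∀ j, Fintype (ι j)] [∀ j, DecidableEq (ι j)]
    {v : ∀ j, ι j → T} (h : Q.Fam n P ι v) : star P = P := by
  rw [← h.complete, star_sum]
  refine Finset.sum_congr rfl fun j _ => ?_
  rw [star_sum]
  refine Finset.sum_congr rfl fun s _ => ?_
  rw [star_mul, star_star]

theorem cross {n : ℕ} {P : T} {ι : Q.J → Type} [∀ j, Fintype (ι j)] [∀ j, DecidableEq (ι j)]
    {v : ∀ j, ι j → T} (h : Q.Fam n P ι v) {i j : Q.J} (hij : i ≠ j) (s : ι i) (t : ι j) :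
    star (v i s) * v j t = 0 := by
  have h1 : star (v i s) ∈ S.Hom n P (Q.a i) (Q.p i) :=
    Hom_star (Q.simple i).star_eq (Q.C0_starP h) (h.mem i s)
  exact Q.ortho j i hij.symm _ (Hom_mul h1 (h.mem j t))

theorem scalar_of_mem {i : Q.J} {x : T} (hx : x ∈ S.Hom (Q.a i) (Q.p i) (Q.a i) (Q.p i)) :
    ∃ c : ℂ, x = c • Q.p i := by
  obtain ⟨c, hc⟩ := (Q.simple i).scalar x hx.1
  refine ⟨c, ?_⟩
  rw [hx.2.1, hx.2.2] at hc
  exact hc

theorem expand {n : ℕ} {P : T} {ι : Q.J → Type} [∀ j, Fintype (ι j)] [∀ j, DecidableEq (ι j)]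
    {v : ∀ j, ι j → T} (h : Q.Fam n P ι v) {j : Q.J} {x : T}
    (hx : x ∈ S.Hom (Q.a j) (Q.p j) n P) :
    ∃ c : ι j → ℂ, x = ∑ s, c s • v j s ∧ ∀ s, star (v j s) * x = c s • Q.p j := by
  have h1 : ∀ i s, star (v i s) * x ∈ S.Hom (Q.a j) (Q.p j) (Q.a i) (Q.p i) := fun i s =>
    Hom_mul (Hom_star (Q.simple i).star_eq (Q.C0_starP h) (h.mem i s)) hx
  choose c hc using fun s => Q.scalar_of_mem (h1 j s)
  refine ⟨c, ?_, hc⟩
  calc x = P * x := hx.2.1.symm
    _ = (∑ i, ∑ s, v i s * star (v i s)) * x := by rw [h.complete]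
    _ = ∑ i, ∑ s, v i s * (star (v i s) * x) := by
        rw [Finset.sum_mul]
        refine Finset.sum_congr rfl fun i _ => ?_
        rw [Finset.sum_mul]
        exact Finset.sum_congr rfl fun s _ => mul_assoc _ _ _
    _ = ∑ s, v j s * (star (v j s) * x) := by
        refine Finset.sum_eq_single j (fun i _ hij => ?_) (fun h2 => absurd (Finset.mem_univ j) h2)
        refine Finset.sum_eq_zero fun s _ => ?_
        rw [Q.ortho j i hij.symm _ (h1 i s), mul_zero]
    _ = ∑ s, c s • v j s := by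
        refine Finset.sum_congr rfl fun s _ => ?_
        rw [hc s, mul_smul_comm, (h.mem j s).2.2]

theorem finrank_Hom {n : ℕ} {P : T} {ι : Q.J → Type} [∀ j, Fintype (ι j)]
    [∀ j, DecidableEq (ι j)] {v : ∀ j, ι j → T} (h : Q.Fam n P ι v) (j : Q.J) :
    Module.finrank ℂ (S.Hom (Q.a j) (Q.p j) n P) = Fintype.card (ι j) := by
  let w : ι j → S.Hom (Q.a j) (Q.p j) n P := fun s => ⟨v j s, h.mem j s⟩
  have hli : LinearIndependent ℂ w := by
    rw [Fintype.linearIndependent_iff]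
    intro g hg t
    have h1 : ∑ s, g s • v j s = 0 := by
      have h2 := congrArg (S.Hom (Q.a j) (Q.p j) n P).subtype hg
      rw [map_sum, map_zero] at h2
      exact h2
    have h3 : star (v j t) * ∑ s, g s • v j s = g t • Q.p j := by
      rw [Finset.mul_sum]
      rw [Finset.sum_eq_single t (fun s _ hst => ?_) (fun h2 => absurd (Finset.mem_univ t) h2)]
      · rw [mul_smul_comm, h.orth, if_pos rfl]
      · rw [mul_smul_comm, h.orth, if_neg (Ne.symm hst), smul_zero]
    rw [h1, mul_zero] at h3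
    rcases smul_eq_zero.1 h3.symm with h4 | h4
    · exact h4
    · exact absurd h4 (Q.simple j).ne_zero
  have hsp : ⊤ ≤ Submodule.span ℂ (Set.range w) := by
    rintro ⟨x, hx⟩ -
    obtain ⟨c, hc, -⟩ := Q.expand h hx
    have h5 : (⟨x, hx⟩ : S.Hom (Q.a j) (Q.p j) n P) = ∑ s, c s • w s := by
      apply Subtype.ext
      have h2 := map_sum (S.Hom (Q.a j) (Q.p j) n P).subtype (fun s => c s • w s) Finset.univ
      exact hc.trans h2.symm
    rw [h5]
    exact Submodule.sum_mem _ fun s _ => Submodule.smul_mem _ _ (Submodule.subset_span ⟨s, rfl⟩)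
  exact Module.finrank_eq_card_basis (Module.Basis.mk hli hsp)

theorem finrank_self (l i : Q.J) :
    Module.finrank ℂ (S.Hom (Q.a l) (Q.p l) (Q.a i) (Q.p i)) = if l = i then 1 else 0 := by
  by_cases hli : l = i
  · subst hli
    rw [if_pos rfl]
    have hp : Q.p l ∈ S.Hom (Q.a l) (Q.p l) (Q.a l) (Q.p l) :=
      ⟨(Q.simple l).mem, (Q.simple l).idem, (Q.simple l).idem⟩
    refine finrank_eq_one (⟨Q.p l, hp⟩ : S.Hom (Q.a l) (Q.p l) (Q.a l) (Q.p l)) (fun h => ?_) ?_
    · exact (Q.simple l).ne_zero (congrArg Subtype.val h)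
    · rintro ⟨x, hx⟩
      obtain ⟨c, hc⟩ := Q.scalar_of_mem hx
      exact ⟨c, Subtype.ext hc.symm⟩
  · rw [if_neg hli]
    have hsub : Subsingleton (S.Hom (Q.a l) (Q.p l) (Q.a i) (Q.p i)) :=
      ⟨fun x y => Subtype.ext ((Q.ortho l i hli x.1 x.2).trans (Q.ortho l i hli y.1 y.2).symm)⟩
    exact Module.finrank_zero_of_subsingleton

end SimpleSystem

end SubfactorPlanarAlgebra

end Pool.Agent.ST5
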