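import Pool.Agent.ST5.P.Sys

/-!
ST5 row C1. Composition of complete families.

PROOF. The family for `p l` at the object P, level n+m, is v i s * w i l t, over (i, s, t).
mem: w i l t ∈ H (a l) (a i + m), v i s ∈ H (a i) n, padded to H (a i + m) (n + m); P v = v, w p l = w.
orth: star w * star v * v' * w': if (i,s) = (i',s') it is star w * p i * w' = star w * w' (p i w' = w'), 1 or 0 by
the orthogonality of w; otherwise star v * v' = 0 (`hv.orth` for i = i', s ≠ s'; for i ≠ i' it is an
element of Hom(p i', p i), 0 by `Q.ortho`).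
complete: ∑_l ∑_{(i,s,t)} v w star w star v = ∑_i ∑_s v (∑_l ∑_t w star w) star v = ∑ v p i star v = ∑ v star v = P.
-/

namespace Pool.Agent.ST5

namespace SubfactorPlanarAlgebra

namespace SimpleSystem

variable {T : Type*} [Ring T] [StarRing T] [Algebra ℂ T] [StarModule ℂ T]
  {S : SubfactorPlanarAlgebra T} (Q : S.SimpleSystem)

theorem comp_fam {n m : ℕ} {P : T} (hP : S.IsProj n P) {ι : Q.J → Type} [∀ j, Fintype (ι j)]
    [∀ j, DecidableEq (ι j)] {v : ∀ j, ι j → T} (hv : Q.Fam n P ι v)
    {κ : Q.J → Q.J → Type} [∀ i l, Fintype (κ i l)] [∀ i l, DecidableEq (κ i l)]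
    {w : ∀ i l, κ i l → T} (hw : ∀ i, Q.Fam (Q.a i + m) (Q.p i) (κ i) (w i)) :
    Q.Fam (n + m) P (fun l => Σ i, ι i × κ i l) (fun l x => v x.1 x.2.1 * w x.1 l x.2.2) := by
  have hcross : ∀ i i' : Q.J, i ≠ i' → ∀ (s : ι i) (t : ι i'), star (v i s) * v i' t = 0 := by
    intro i i' hii s t
    have h1 : star (v i s) ∈ S.Hom n P (Q.a i) (Q.p i) :=
      Hom_star (Q.simple i).star_eq hP.star_eq (hv.mem i s)
    exact Q.ortho i' i hii.symm _ (Hom_mul h1 (hv.mem i' t))
  constructor
  · rintro l ⟨i, s, t⟩
    have h1 := hv.mem i s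
    have h2 := (hw i).mem l t
    refine ⟨mul_to (pad_mem m h1.1) h2.1 rfl, ?_, ?_⟩
    · show P * (v i s * w i l t) = v i s * w i l t
      rw [← mul_assoc, h1.2.1]
    · show v i s * w i l t * Q.p l = v i s * w i l t
      rw [mul_assoc, h2.2.2]
  · rintro l ⟨i, s, t⟩ ⟨i', s', t'⟩
    show star (v i s * w i l t) * (v i' s' * w i' l t') = _
    have h0 : star (v i s * w i l t) * (v i' s' * w i' l t') =
        star (w i l t) * (star (v i s) * v i' s') * w i' l t' := by
      rw [star_mul]
      simp only [mul_assoc]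
    rw [h0]
    by_cases hi : i = i'
    · subst hi
      rw [hv.orth]
      by_cases hs : s = s'
      · subst hs
        rw [if_pos rfl, mul_assoc, ((hw i).mem l t').2.1, (hw i).orth]
        by_cases ht : t = t'
        · subst ht
          rw [if_pos rfl, if_pos rfl]
        · rw [if_neg ht, if_neg (fun h => ht ?_)]
          cases h
          rfl
      · rw [if_neg hs, mul_zero, zero_mul, if_neg (fun h => hs ?_)]
        cases h
        rfl
    · rw [hcross i i' hi, mul_zero, zero_mul, if_neg (fun h => hi ?_)]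
      cases h
      rfl
  · have h1 : ∀ l, (∑ x : Σ i, ι i × κ i l, v x.1 x.2.1 * w x.1 l x.2.2 *
        star (v x.1 x.2.1 * w x.1 l x.2.2)) =
        ∑ i, ∑ s, v i s * (∑ t, w i l t * star (w i l t)) * star (v i s) := by
      intro l
      rw [Fintype.sum_sigma]
      refine Finset.sum_congr rfl fun i _ => ?_
      rw [Fintype.sum_prod_type]
      refine Finset.sum_congr rfl fun s _ => ?_
      rw [Finset.mul_sum, Finset.sum_mul]
      refine Finset.sum_congr rfl fun t _ => ?_
      rw [star_mul]
      simp only [mul_assoc]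
    have h2 : ∀ i (s : ι i), (∑ l, v i s * (∑ t, w i l t * star (w i l t)) * star (v i s)) =
        v i s * star (v i s) := by
      intro i s
      rw [← Finset.sum_mul, ← Finset.mul_sum, (hw i).complete, (hv.mem i s).2.2]
    rw [Finset.sum_congr rfl fun l _ => h1 l, Finset.sum_comm]
    rw [← hv.complete]
    refine Finset.sum_congr rfl fun i _ => ?_
    rw [Finset.sum_comm]
    exact Finset.sum_congr rfl fun s _ => h2 i s

/-- The trivial family of `p i` at its own level. -/
theorem self_fam (i : Q.J) :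
    Q.Fam (Q.a i) (Q.p i) (fun j => PLift (i = j)) (fun _ _ => Q.p i) := by
  have hp := Q.simple i
  constructor
  · rintro j ⟨h⟩
    subst h
    exact ⟨hp.mem, hp.idem, hp.idem⟩
  · rintro j ⟨h⟩ ⟨h'⟩
    subst h
    rw [if_pos rfl, hp.star_eq, hp.idem]
  · rw [Finset.sum_eq_single i]
    · have h1 : ∀ s : PLift (i = i), Q.p i * star (Q.p i) = Q.p i := fun _ => by
        rw [hp.star_eq, hp.idem]
      rw [Finset.sum_congr rfl fun s _ => h1 s, Finset.sum_const, Finset.card_univ]
      have h2 : Fintype.card (PLift (i = i)) = 1 :=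
        Fintype.card_eq_one_iff.2 ⟨⟨rfl⟩, fun _ => Subsingleton.elim _ _⟩
      rw [h2, one_smul]
    · intro j _ hj
      refine Finset.sum_eq_zero fun s _ => ?_
      exact absurd s.down hj.symm
    · intro h
      exact absurd (Finset.mem_univ i) h

end SimpleSystem

end SubfactorPlanarAlgebra

end Pool.Agent.ST5
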