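import Pool.Agent.ST5.P.C0
import Pool.Agent.ST5.P.C1

/-!
ST5 row C3. Powers of the adjacency matrix; connectivity.

PROOF. `exists_fam_one`: `Q.exists_fam` for the projection p i at level a i + 1 (`IsProj.pad`), its size
is G i j by `finrank_Hom`. `finrank_pow`: show by induction on m: for every i there are index types
ι_m i j (finite) and a family for p i at level a i + m with card (ι_m i j) = (G^m) i j: m = 0:
`self_fam` (card of PLift (i=j) is 1 or 0 = (1 : Matrix) i j); step: `comp_fam` with the family of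
size m (for the object p i) and the one-step families (m := 1): card of Σ k, ι_m i k × Fin (G k l)
is ∑_k (G^m) i k * G k l (`pow_succ`, `Matrix.mul_apply`). Then `finrank_Hom`.
`connected`: p i ∈ H (a i) (a i) is a nonzero element of Hom(p i, p o = z at level a o + a i = a i)
(z p i = p i), so that space has dimension ≥ 1, and it is (G ^ (a i)) o i.
`exists_fam_pow` is stated for the use in the trace formula.
-/

namespace Pool.Agent.ST5

namespace SubfactorPlanarAlgebra

namespace SimpleSystem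

variable {T : Type*} [Ring T] [StarRing T] [Algebra ℂ T] [StarModule ℂ T]
  {S : SubfactorPlanarAlgebra T} (Q : S.SimpleSystem)

theorem exists_fam_pow (m : ℕ) : ∀ i : Q.J, ∃ (ι : Q.J → Type) (_ : ∀ j, Fintype (ι j))
    (_ : ∀ j, DecidableEq (ι j)) (v : ∀ j, ι j → T),
    Q.Fam (Q.a i + m) (Q.p i) ι v ∧ ∀ j, Fintype.card (ι j) = (Q.G ^ m) i j := by
  induction m with
  | zero =>
    intro i
    refine ⟨fun j => PLift (i = j), _, _, fun _ _ => Q.p i, Q.self_fam i, ?_⟩
    intro j
    rw [pow_zero, Matrix.one_apply]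
    by_cases hij : i = j
    · rw [if_pos hij]
      subst hij
      exact Fintype.card_eq_one_iff.mpr ⟨⟨rfl⟩, fun y => Subsingleton.elim _ _⟩
    · rw [if_neg hij]
      exact Fintype.card_eq_zero_iff.mpr ⟨fun y => hij y.down⟩
  | succ m ih =>
    intro i
    obtain ⟨ι, hF, hD, v, hv, hc⟩ := ih i
    have h1 : ∀ k : Q.J, S.IsProj (Q.a k + 1) (Q.p k) := fun k =>
      IsProj.pad (Q.simple k).toIsProj 1
    choose κ w hw using fun k : Q.J => Q.exists_fam (Q.a k + 1) (Q.p k) (h1 k)
    have h2 : S.IsProj (Q.a i + m) (Q.p i) := IsProj.pad (Q.simple i).toIsProj m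
    have h3 := Q.comp_fam (m := 1) h2 hv (κ := fun k l => Fin (κ k l)) (w := w) hw
    refine ⟨_, _, _, _, h3, ?_⟩
    intro l
    rw [pow_succ, Matrix.mul_apply, Fintype.card_sigma]
    refine Finset.sum_congr rfl fun k _ => ?_
    rw [Fintype.card_prod, hc k]
    have h4 : Q.G k l = Fintype.card (Fin (κ k l)) := Q.finrank_Hom (hw k) l
    rw [h4]

theorem finrank_pow (m : ℕ) (i j : Q.J) :
    Module.finrank ℂ (S.Hom (Q.a j) (Q.p j) (Q.a i + m) (Q.p i)) = (Q.G ^ m) i j := by
  obtain ⟨ι, hF, hD, v, hv, hc⟩ := Q.exists_fam_pow m i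
  rw [Q.finrank_Hom hv j, hc j]

theorem connected (i : Q.J) : (Q.G ^ (Q.a i)) Q.o i ≠ 0 := by
  rw [← Q.finrank_pow (Q.a i) Q.o i]
  intro h
  have hp := (Q.simple i).toIsProj
  have hmem : Q.p i ∈ S.Hom (Q.a i) (Q.p i) (Q.a Q.o + Q.a i) (Q.p Q.o) := by
    rw [mem_Hom, Q.p_o, Q.a_o, Nat.zero_add]
    exact ⟨hp.mem, hp.z_mul, hp.idem⟩
  rw [Submodule.finrank_eq_zero] at h
  rw [h, Submodule.mem_bot] at hmem
  exact (Q.simple i).ne_zero hmem

end SimpleSystem

end SubfactorPlanarAlgebra

end Pool.Agent.ST5
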