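import Pool.Agent.ST5.P.C0

/-!
ST5 row C4. Dimensions: positive, Perron-Frobenius eigenvector.

PROOF. `Tr_p`, `d_pos`: `IsProj.Tr_pos`. `d_o`: Tr 0 z = zc (1 * z * 1) = 1 (`zc_eq`, a o = 0, p o = z).
`pf`: take the family v of p i at level a i + 1 (`Q.exists_fam`, `IsProj.pad`), of sizes G i j
(`finrank_Hom`). Tr (a i + 1) (p i) = δ Tr (a i) (p i) (`Tr_succ`) and
 = ∑_j ∑_s Tr (a i + 1) (v j s * star (v j s)) = ∑_j ∑_s Tr (a j) (star (v j s) * v j s)  (`Tr_comm`)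
 = ∑_j G i j Tr (a j) (p j). Take real parts (everything is real by `Tr_p`).
-/

namespace Pool.Agent.ST5

namespace SubfactorPlanarAlgebra

namespace SimpleSystem

variable {T : Type*} [Ring T] [StarRing T] [Algebra ℂ T] [StarModule ℂ T]
  {S : SubfactorPlanarAlgebra T} (Q : S.SimpleSystem)

theorem Tr_p (i : Q.J) : S.Tr (Q.a i) (Q.p i) = (Q.d i : ℂ) := by
  obtain ⟨a, -, h2⟩ := (Q.simple i).toIsProj.Tr_pos (Q.simple i).ne_zero
  unfold d
  rw [h2, Complex.ofReal_re]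

theorem d_pos (i : Q.J) : 0 < Q.d i := by
  obtain ⟨a, h1, h2⟩ := (Q.simple i).toIsProj.Tr_pos (Q.simple i).ne_zero
  unfold d
  rw [h2, Complex.ofReal_re]
  exact h1

theorem d_o : Q.d Q.o = 1 := by
  have h1 : S.Tr 0 S.z = 1 := by
    unfold Tr
    rw [R_zero, star_one, one_mul, mul_one]
    exact zc_eq (by rw [S.z_mul, one_smul])
  unfold d
  rw [Q.a_o, Q.p_o, h1, Complex.one_re]

theorem pf (i : Q.J) : ∑ j, (Q.G i j : ℝ) * Q.d j = S.δ * Q.d i := by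
  obtain ⟨k, v, hv⟩ := Q.exists_fam (Q.a i + 1) (Q.p i) ((Q.simple i).toIsProj.pad 1)
  have hG : ∀ j, Q.G i j = k j := by
    intro j
    have h1 := Q.finrank_Hom hv j
    rw [Fintype.card_fin] at h1
    exact h1
  have h2 : S.Tr (Q.a i + 1) (Q.p i) = (S.δ : ℂ) * S.Tr (Q.a i) (Q.p i) :=
    Tr_succ (Q.simple i).mem
  have hmem : ∀ j (s : Fin (k j)), v j s * star (v j s) ∈ S.H (Q.a i + 1) (Q.a i + 1) := fun j s =>
    mul_to (hv.mem j s).1 (star_mem' (hv.mem j s).1) rfl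
  have h3 : S.Tr (Q.a i + 1) (Q.p i) = ∑ j, ∑ s, S.Tr (Q.a i + 1) (v j s * star (v j s)) := by
    have h4 : S.Tr (Q.a i + 1) (∑ j, ∑ s, v j s * star (v j s)) =
        ∑ j, ∑ s, S.Tr (Q.a i + 1) (v j s * star (v j s)) := by
      rw [Tr_sum _ _ _ (fun j _ => Submodule.sum_mem _ fun s _ => hmem j s)]
      exact Finset.sum_congr rfl fun j _ => Tr_sum _ _ _ (fun s _ => hmem j s)
    rw [hv.complete] at h4
    exact h4
  have h5 : ∀ j (s : Fin (k j)), S.Tr (Q.a i + 1) (v j s * star (v j s)) = (Q.d j : ℂ) := by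
    intro j s
    rw [Tr_comm (hv.mem j s).1 (star_mem' (hv.mem j s).1), hv.orth, if_pos rfl, Q.Tr_p]
  have h6 : ∑ j, ((k j : ℕ) : ℂ) * (Q.d j : ℂ) = (S.δ : ℂ) * (Q.d i : ℂ) := by
    rw [← Q.Tr_p i, ← h2, h3]
    refine Finset.sum_congr rfl fun j _ => ?_
    rw [Finset.sum_congr rfl fun s _ => h5 j s, Finset.sum_const, Finset.card_univ,
      Fintype.card_fin, nsmul_eq_mul]
  have h7 : ∑ j, (Q.G i j : ℝ) * Q.d j = ∑ j, ((k j : ℕ) : ℝ) * Q.d j :=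
    Finset.sum_congr rfl fun j _ => by rw [hG j]
  rw [h7]
  exact_mod_cast h6

end SimpleSystem

end SubfactorPlanarAlgebra

end Pool.Agent.ST5
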