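import Pool.Agent.ST5.P.DDefs

/-!
ST5 row D2. The powers of the operator L_W.

PROOF. w := a W.
`sum_fam_indep`: c, c' complete families of the same object P. c' t = ∑_s c s * star (c s) * c' t
(`expand` or `complete` and `cross`), star (c s) * c' t = U s t • p l. For s, s':
 star (c s) * (∑_t c' t star (c' t)) * c s' = star (c s) * P * c s' = δ_{ss'} p l (the terms of the other
 simple objects vanish by `cross`), i.e. ∑_t U s t conj(U s' t) = δ. Insert c' t = ∑_s U s t c s and
 star (c' t) = ∑ conj(U s t) star (c s) in ∑_t rp w (star (c' t)) * f * c' t.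
`L_pow`: induction on m. m = 0: (L^0 f) l = f l; by `sum_fam_indep` (object p i at level a i) we may take
 `self_fam`: the sum is rp w (p l) * f l * p l = f l [f l ∈ Hom(p l, p W * rp w (p l)): the idempotents p W and
 rp w (p l) commute (`inter`), so rp w (p l) * f l = f l]. Step: (L^(m+1) f) l = (L (L^m f)) l (`pow_succ'`)
 = ∑_k ∑_s rp w (star (fv k l s)) * (∑_i ∑_t rp w (star (c i k t)) * f i * c i k t) * fv k l s
 = ∑_i ∑_{(k,t,s)} rp w (star (c i k t * fv k l s)) * f i * (c i k t * fv k l s), for a family c of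
 level m (it exists: induction hypothesis is used with the composites; existence of some
 family at level m from `Q.exists_fam`), which is the sum over the composed family (`comp_fam`);
 by `sum_fam_indep` it is the sum over the given family of level m+1.
-/

namespace Pool.Agent.ST5

namespace SubfactorPlanarAlgebra

namespace SimpleSystem

variable {T : Type*} [Ring T] [StarRing T] [Algebra ℂ T] [StarModule ℂ T]
  {S : SubfactorPlanarAlgebra T} (Q : S.SimpleSystem)

/-- The change of basis between two complete families is unitary. -/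
theorem D2_unitary {n : ℕ} {P : T} {ι κ : Q.J → Type} [∀ j, Fintype (ι j)]
    [∀ j, DecidableEq (ι j)] [∀ j, Fintype (κ j)] [∀ j, DecidableEq (κ j)]
    {c : ∀ j, ι j → T} {c' : ∀ j, κ j → T} (hc : Q.Fam n P ι c) (hc' : Q.Fam n P κ c')
    (l : Q.J) (U : κ l → ι l → ℂ)
    (hU : ∀ t s, star (c l s) * c' l t = U t s • Q.p l) (s s' : ι l) :
    ∑ t, star (U t s) * U t s' = if s = s' then 1 else 0 := by
  have hp0 : Q.p l ≠ 0 := (Q.simple l).ne_zero
  have hps : star (Q.p l) = Q.p l := (Q.simple l).star_eq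
  have hpp : Q.p l * Q.p l = Q.p l := (Q.simple l).idem
  have hcr : ∀ j, j ≠ l → ∀ t : κ j, star (c l s') * c' j t = 0 := by
    intro j hj t
    obtain ⟨b, hb, -⟩ := Q.expand hc (hc'.mem j t)
    rw [hb, Finset.mul_sum]
    refine Finset.sum_eq_zero fun x _ => ?_
    rw [mul_smul_comm, Q.cross hc (Ne.symm hj), smul_zero]
  have h1 : star (c l s') * c l s = ∑ t, star (c l s') * c' l t * (star (c' l t) * c l s) := by
    have hPc : P * c l s = c l s := (hc.mem l s).2.1
    calc star (c l s') * c l s = star (c l s') * (P * c l s) := by rw [hPc]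
      _ = star (c l s') * ((∑ j, ∑ t, c' j t * star (c' j t)) * c l s) := by rw [hc'.complete]
      _ = ∑ j, ∑ t, star (c l s') * c' j t * (star (c' j t) * c l s) := by
          rw [Finset.sum_mul, Finset.mul_sum]
          refine Finset.sum_congr rfl fun j _ => ?_
          rw [Finset.sum_mul, Finset.mul_sum]
          refine Finset.sum_congr rfl fun t _ => ?_
          simp only [mul_assoc]
      _ = _ := by
          rw [Finset.sum_eq_single l]
          · intro j _ hj
            refine Finset.sum_eq_zero fun t _ => ?_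
            rw [hcr j hj t, zero_mul]
          · intro h
            exact absurd (Finset.mem_univ l) h
  have h2 : ∀ t, star (c' l t) * c l s = star (U t s) • Q.p l := by
    intro t
    have := congrArg star (hU t s)
    rw [star_mul, star_star, star_smul, hps] at this
    exact this
  have h3 : star (c l s') * c l s = (∑ t, star (U t s) * U t s') • Q.p l := by
    rw [h1, Finset.sum_smul]
    refine Finset.sum_congr rfl fun t _ => ?_
    rw [hU, h2, smul_mul_smul_comm, hpp, mul_comm]
  rw [hc.orth l s' s] at h3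
  by_cases h : s = s'
  · rw [if_pos h]
    rw [if_pos h.symm] at h3
    have h4 : ((1 : ℂ) - ∑ t, star (U t s) * U t s') • Q.p l = 0 := by
      rw [sub_smul, one_smul, ← h3, sub_self]
    rcases smul_eq_zero.1 h4 with h5 | h5
    · exact (sub_eq_zero.1 h5).symm
    · exact absurd h5 hp0
  · rw [if_neg h]
    rw [if_neg (Ne.symm h)] at h3
    rcases smul_eq_zero.1 h3.symm with h5 | h5
    · exact h5
    · exact absurd h5 hp0

theorem sum_fam_indep {n : ℕ} {P : T} {ι κ : Q.J → Type} [∀ j, Fintype (ι j)]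
    [∀ j, DecidableEq (ι j)] [∀ j, Fintype (κ j)] [∀ j, DecidableEq (κ j)]
    {c : ∀ j, ι j → T} {c' : ∀ j, κ j → T} (hc : Q.Fam n P ι c) (hc' : Q.Fam n P κ c')
    (w : ℕ) (f : T) (l : Q.J) :
    ∑ s, S.rp w (star (c l s)) * f * c l s = ∑ t, S.rp w (star (c' l t)) * f * c' l t := by
  choose U hU1 hU2 using fun t => Q.expand hc (hc'.mem l t)
  have hu := Q.D2_unitary hc hc' l U hU2
  have h1 : ∀ t, S.rp w (star (c' l t)) * f * c' l t =
      ∑ s, ∑ s', (star (U t s) * U t s') • (S.rp w (star (c l s)) * f * c l s') := by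
    intro t
    have e1 : S.rp w (star (c' l t)) = ∑ s, star (U t s) • S.rp w (star (c l s)) := by
      rw [hU1 t, star_sum, map_sum]
      refine Finset.sum_congr rfl fun s _ => ?_
      rw [star_smul, map_smul]
    calc S.rp w (star (c' l t)) * f * c' l t
        = (∑ s, star (U t s) • S.rp w (star (c l s))) * f * (∑ s', U t s' • c l s') := by
          rw [e1, ← hU1 t]
      _ = _ := by
          rw [Finset.sum_mul, Finset.sum_mul]
          refine Finset.sum_congr rfl fun s _ => ?_
          rw [Finset.mul_sum]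
          refine Finset.sum_congr rfl fun s' _ => ?_
          rw [smul_mul_assoc, smul_mul_smul_comm]
  rw [Finset.sum_congr rfl fun t _ => h1 t, Finset.sum_comm]
  refine Finset.sum_congr rfl fun s _ => ?_
  rw [Finset.sum_comm, Finset.sum_eq_single s]
  · rw [← Finset.sum_smul, hu s s, if_pos rfl, one_smul]
  · intro s' _ hs'
    rw [← Finset.sum_smul, hu s s', if_neg (Ne.symm hs'), zero_smul]
  · intro h
    exact absurd (Finset.mem_univ s) h

theorem L_pow {m : ℕ} {ι : Q.J → Q.J → Type} [∀ i j, Fintype (ι i j)]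
    [∀ i j, DecidableEq (ι i j)] {c : ∀ i j, ι i j → T}
    (hc : ∀ i, Q.Fam (Q.a i + m) (Q.p i) (ι i) (c i)) (W : Q.J) (f : ∀ i, Q.VV W i) (l : Q.J) :
    (((Q.L W ^ m) f l : Q.VV W l) : T) =
      ∑ i, ∑ s : ι i l, S.rp (Q.a W) (star (c i l s)) * (f i : T) * c i l s := by
  induction m generalizing ι l with
  | zero =>
    have h0 : ∀ i, ∑ s : ι i l, S.rp (Q.a W) (star (c i l s)) * (f i : T) * c i l s =
        if i = l then (f i : T) else 0 := by
      intro i
      rw [Q.sum_fam_indep (hc i) (Q.self_fam i) (Q.a W) (f i : T) l]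
      by_cases h : i = l
      · subst h
        rw [if_pos rfl]
        have hu : (Finset.univ : Finset (PLift (i = i))) = {⟨rfl⟩} := by
          ext x
          simp only [Finset.mem_univ, Finset.mem_singleton]
        rw [hu, Finset.sum_singleton]
        obtain ⟨-, hf2, hf3⟩ := (f i).2
        have hp := Q.simple i
        have hc1 : Q.p W * S.rp (Q.a W) (Q.p i) = S.rp (Q.a W) (Q.p i) * Q.p W :=
          inter (Q.simple W).mem hp.mem
        have hrr : S.rp (Q.a W) (Q.p i) * S.rp (Q.a W) (Q.p i) = S.rp (Q.a W) (Q.p i) := by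
          rw [← map_mul, hp.idem]
        have hf4 : S.rp (Q.a W) (Q.p i) * (f i : T) = f i := by
          calc S.rp (Q.a W) (Q.p i) * (f i : T)
              = S.rp (Q.a W) (Q.p i) * (Q.p W * S.rp (Q.a W) (Q.p i) * (f i : T)) := by rw [hf2]
            _ = (S.rp (Q.a W) (Q.p i) * Q.p W) * S.rp (Q.a W) (Q.p i) * (f i : T) := by
                simp only [mul_assoc]
            _ = Q.p W * (S.rp (Q.a W) (Q.p i) * S.rp (Q.a W) (Q.p i)) * (f i : T) := by
                rw [← hc1]; simp only [mul_assoc]
            _ = f i := by rw [hrr, hf2]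
        rw [hp.star_eq, hf4, hf3]
      · rw [if_neg h]
        refine Finset.sum_eq_zero fun x _ => ?_
        exact absurd x.down h
    rw [Finset.sum_congr rfl fun i _ => h0 i, Finset.sum_ite_eq' Finset.univ l]
    simp
  | succ m ih =>
    choose k0 c0 hc0 using fun i => Q.exists_fam (Q.a i + m) (Q.p i) ((Q.simple i).toIsProj.pad m)
    have hL : ∀ k, (((Q.L W ^ m) f k : Q.VV W k) : T) =
        ∑ i, ∑ t : Fin (k0 i k), S.rp (Q.a W) (star (c0 i k t)) * (f i : T) * c0 i k t :=
      fun k => ih (c := c0) hc0 k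
    have hcomp : ∀ i, Q.Fam (Q.a i + m + 1) (Q.p i) (fun l => Σ k, Fin (k0 i k) × Fin (Q.fk k l))
        (fun l x => c0 i x.1 x.2.1 * Q.fv x.1 l x.2.2) :=
      fun i => Q.comp_fam ((Q.simple i).toIsProj.pad m) (hc0 i) (fun k => Q.fv_fam k)
    rw [pow_succ', Module.End.mul_apply, L_apply]
    have h1 : ∀ k (s : Fin (Q.fk k l)), S.rp (Q.a W) (star (Q.fv k l s)) *
        (((Q.L W ^ m) f k : Q.VV W k) : T) * Q.fv k l s =
        ∑ i, ∑ t : Fin (k0 i k), S.rp (Q.a W) (star (c0 i k t * Q.fv k l s)) * (f i : T) *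
          (c0 i k t * Q.fv k l s) := by
      intro k s
      rw [hL k, Finset.mul_sum, Finset.sum_mul]
      refine Finset.sum_congr rfl fun i _ => ?_
      rw [Finset.mul_sum, Finset.sum_mul]
      refine Finset.sum_congr rfl fun t _ => ?_
      rw [star_mul, map_mul]
      simp only [mul_assoc]
    have h2 : ∀ i, ∑ s : ι i l, S.rp (Q.a W) (star (c i l s)) * (f i : T) * c i l s =
        ∑ k, ∑ s : Fin (Q.fk k l), ∑ t : Fin (k0 i k),
          S.rp (Q.a W) (star (c0 i k t * Q.fv k l s)) * (f i : T) * (c0 i k t * Q.fv k l s) := by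
      intro i
      rw [Q.sum_fam_indep (hc i) (hcomp i) (Q.a W) (f i : T) l, Fintype.sum_sigma]
      refine Finset.sum_congr rfl fun k _ => ?_
      rw [Fintype.sum_prod_type, Finset.sum_comm]
    calc ∑ k, ∑ s : Fin (Q.fk k l), S.rp (Q.a W) (star (Q.fv k l s)) *
        (((Q.L W ^ m) f k : Q.VV W k) : T) * Q.fv k l s
        = ∑ k, ∑ s : Fin (Q.fk k l), ∑ i, ∑ t : Fin (k0 i k),
          S.rp (Q.a W) (star (c0 i k t * Q.fv k l s)) * (f i : T) *
          (c0 i k t * Q.fv k l s) :=
          Finset.sum_congr rfl fun k _ => Finset.sum_congr rfl fun s _ => h1 k s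
      _ = ∑ k, ∑ i, ∑ s : Fin (Q.fk k l), ∑ t : Fin (k0 i k),
          S.rp (Q.a W) (star (c0 i k t * Q.fv k l s)) * (f i : T) *
          (c0 i k t * Q.fv k l s) := Finset.sum_congr rfl fun k _ => Finset.sum_comm
      _ = ∑ i, ∑ k, ∑ s : Fin (Q.fk k l), ∑ t : Fin (k0 i k),
          S.rp (Q.a W) (star (c0 i k t * Q.fv k l s)) * (f i : T) *
          (c0 i k t * Q.fv k l s) := Finset.sum_comm
      _ = _ := Finset.sum_congr rfl fun i _ => (h2 i).symm

end SimpleSystem

end SubfactorPlanarAlgebra

end Pool.Agent.ST5
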