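import Mathlib

/-!
ST5 row D3a. The trace of an endomorphism of a finite product is the sum of the traces of its
diagonal blocks.

PROOF. Choose bases of the M i (`Module.finBasis`), the basis `Pi.basis` of the product,
`LinearMap.trace_eq_matrix_trace`, `Fintype.sum_sigma`. Or: id = ∑_i single i ∘ proj i, so
trace F = ∑_i trace (single i ∘ proj i ∘ F) = ∑_i trace (proj i ∘ F ∘ single i) by
`LinearMap.trace_comp_comm'`.
-/

namespace Pool.Agent.ST5

theorem trace_pi {J : Type*} [Fintype J] [DecidableEq J] (M : J → Type*)
    [∀ i, AddCommGroup (M i)] [∀ i, Module ℂ (M i)] [∀ i, FiniteDimensional ℂ (M i)]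
    (F : (∀ i, M i) →ₗ[ℂ] (∀ i, M i)) :
    LinearMap.trace ℂ (∀ i, M i) F = ∑ i, LinearMap.trace ℂ (M i)
      ((LinearMap.proj i).comp (F.comp (LinearMap.single ℂ M i))) := by
  have hid : ∑ i, (LinearMap.single ℂ M i).comp (LinearMap.proj i) = LinearMap.id := by
    apply LinearMap.ext
    intro x
    rw [LinearMap.sum_apply]
    funext j
    rw [Finset.sum_apply]
    simp only [LinearMap.comp_apply, LinearMap.proj_apply, LinearMap.single_apply, LinearMap.id_apply]
    rw [Finset.sum_eq_single j]
    · exact Pi.single_eq_same j (x j)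
    · intro i _ hij
      exact Pi.single_eq_of_ne' hij (x i)
    · intro h
      exact absurd (Finset.mem_univ j) h
  have h1 : F = ∑ i, (LinearMap.single ℂ M i).comp ((LinearMap.proj i).comp F) := by
    apply LinearMap.ext
    intro x
    have h2 := congrArg (fun g => g (F x)) hid
    simp only [LinearMap.sum_apply, LinearMap.id_apply] at h2
    rw [LinearMap.sum_apply]
    exact h2.symm
  conv_lhs => rw [h1, map_sum]
  refine Finset.sum_congr rfl fun i _ => ?_
  rw [LinearMap.trace_comp_comm' ((LinearMap.proj i).comp F) (LinearMap.single ℂ M i)]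
  rfl

end Pool.Agent.ST5
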