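import Pool.Agent.ST5.P.D2
import Pool.Agent.ST5.P.D3a

/-!
ST5 row D3. The trace of the powers of L_W.

PROOF. `trace_pi` for F = (L W)^m: the (l,l) block maps f ∈ VV W l to, by `L_pow` applied to
Pi.single l f, ∑_{s : ι l l} rp w (star (c l l s)) * f * c l l s, which is ∑_s phi (c l l s) f. So the
block equals ∑_s phi _ _ (hc l).mem l s (`LinearMap.ext`, `Subtype.ext`), and `map_sum` for the
trace.
-/

namespace Pool.Agent.ST5

namespace SubfactorPlanarAlgebra

namespace SimpleSystem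

variable {T : Type*} [Ring T] [StarRing T] [Algebra ℂ T] [StarModule ℂ T]
  {S : SubfactorPlanarAlgebra T} (Q : S.SimpleSystem)

theorem trace_L_pow {m : ℕ} {ι : Q.J → Q.J → Type} [∀ i j, Fintype (ι i j)]
    [∀ i j, DecidableEq (ι i j)] {c : ∀ i j, ι i j → T}
    (hc : ∀ i, Q.Fam (Q.a i + m) (Q.p i) (ι i) (c i)) (W : Q.J) :
    LinearMap.trace ℂ (∀ i, Q.VV W i) (Q.L W ^ m) =
      ∑ l, ∑ s : ι l l, LinearMap.trace ℂ (Q.VV W l)
        (phi (Q.simple l).toIsProj (Q.simple W).toIsProj ((hc l).mem l s)) := by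
  rw [trace_pi (fun i => Q.VV W i) (Q.L W ^ m)]
  refine Finset.sum_congr rfl fun l _ => ?_
  rw [← map_sum]
  congr 1
  apply LinearMap.ext
  intro f
  apply Subtype.ext
  have h1 : (((LinearMap.proj l).comp ((Q.L W ^ m).comp (LinearMap.single ℂ (fun i => Q.VV W i) l)))
      f : Q.VV W l) = (Q.L W ^ m) (Pi.single l f) l := rfl
  rw [h1, Q.L_pow hc W (Pi.single l f) l, LinearMap.sum_apply, Submodule.coe_sum,
    Finset.sum_eq_single l]
  · refine Finset.sum_congr rfl fun s _ => ?_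
    rw [Pi.single_eq_same]
    rfl
  · intro i _ hi
    refine Finset.sum_eq_zero fun s _ => ?_
    rw [Pi.single_eq_of_ne hi, Submodule.coe_zero, mul_zero, zero_mul]
  · intro h
    exact absurd (Finset.mem_univ l) h

end SimpleSystem

end SubfactorPlanarAlgebra

end Pool.Agent.ST5
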