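import Pool.Agent.ST5.P.DDefs

/-!
ST5 row D4. The trace of phi as the trace of a right multiplication.

PROOF. Let big := Hom a p (w+a) q ⊇ small := Hom a p (w+a) (q * rp w p) (q and rp w p commute: `inter` with
q ∈ H w w, p ∈ H a a; for f in small q f = f). The same formula phiBig f = rp w (star v) * f * v defines an endomorphism
of big (q * rp w (star v) = rp w (star v) * q) whose range lies in small (rp w p * rp w (star v) = rp w (star v) because v p = v),
and its restriction to small is phi. So trace phi = trace phiBig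
(`LinearMap.trace_restrict_eq_of_forall_mem`, for the submodule small of big; or with
trace_comp_comm' for the inclusion i : small → big and the corestriction j : big → small of
phiBig: phi = j ∘ i, phiBig = i ∘ j. THE SECOND WAY IS SHORT).
Hat: e : big ≃ Hom (2a) p w q, e f = rp w (star (R a)) * f, inverse g ↦ g * rp a (R a).
 Types: f ∈ H a (w+a), padded by a: H (2a) (w+2a); rp w (star (R a)) ∈ H (w+2a) w. g ∈ H (2a) w padded to H (3a) (w+a);
 rp a (R a) ∈ H a (3a). q e f = e f (q commutes with rp w), (e f) p = e f; q g rp a (R a) = …; g rp a (R a) p = g p rp a (R a)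
 (p ∈ H a a commutes with rp a (R a)) = g rp a (R a).
 (rp w (star (R a)) * f) * rp a (R a) = rp w (star (R a)) * rp (w+a) (R a) * f (`inter` f ∈ H a (w+a))
   = rp w (star (R a) * rp a (R a)) * f = f (`snake`).
 rp w (star (R a)) * (g * rp a (R a)) = g * rp (2a) (star (R a)) * rp a (R a) (`inter` for g ∈ H (2a) w)
   = g * rp a (rp a (star (R a)) * R a) = g (`snake'`).
 Conjugation: e (phiBig (g * rp a (R a))) = rp w (star (R a)) * rp w (star v) * g * rp a (R a) * v
   = rp w (star (R a) * star v) * g * rp a (R a) * v = g * rp (2a) (star (R a) * star v) * rp a (R a) * v (`inter` for g ∈ H (2a) w)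
   = g * theta a v. So phiBig is conjugate to rightMul, `LinearMap.trace_conj'` (or trace_comp_comm').
-/

namespace Pool.Agent.ST5

namespace SubfactorPlanarAlgebra

variable {T : Type*} [Ring T] [StarRing T] [Algebra ℂ T] [StarModule ℂ T]
  {S : SubfactorPlanarAlgebra T}

lemma trace_phi_qf {a w : ℕ} {p q f : T} (hqq : q * q = q)
    (hf : f ∈ S.Hom a p (w + a) (q * S.rp w p)) : q * f = f := by
  obtain ⟨_, hf2, _⟩ := hf
  calc q * f = q * (q * S.rp w p * f) := by rw [hf2]
    _ = q * q * S.rp w p * f := by simp only [mul_assoc]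
    _ = f := by rw [hqq, hf2]

/-- The map `f ↦ rp w (star (R a)) * f`. -/
noncomputable def trace_phi_A {a w : ℕ} {p q : T} (hq : S.IsProj w q) :
    S.Hom a p (w + a) (q * S.rp w p) →ₗ[ℂ] S.Hom (2 * a) p w q where
  toFun f := ⟨S.rp w (star (S.R a)) * f.1, by
    have hRa : star (S.R a) ∈ S.H (2 * a) 0 := star_mem' (S.R_mem a)
    refine ⟨?_, ?_, ?_⟩
    · have h1 : S.rp w (star (S.R a)) ∈ S.H (w + 2 * a) w := rp_to w hRa (by omega) (by omega)
      have h2 : f.1 ∈ S.H (2 * a) (w + 2 * a) := pad_to a f.2.1 (by omega) (by omega)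
      exact S.mul_mem _ _ _ _ _ h1 h2
    · have h3 : q * S.rp w (star (S.R a)) = S.rp w (star (S.R a)) * q := inter hq.mem hRa
      rw [← mul_assoc, h3, mul_assoc, trace_phi_qf hq.idem f.2]
    · rw [mul_assoc, f.2.2.2]⟩
  map_add' f g := by
    apply Subtype.ext
    simp [mul_add]
  map_smul' c f := by
    apply Subtype.ext
    simp

/-- The map `g ↦ rp w (star v) * (g * rp a (R a)) * v`. -/
noncomputable def trace_phi_B {a w m : ℕ} {p q v : T} (hp : S.IsProj a p) (hq : S.IsProj w q)
    (hv : v ∈ S.Hom a p (a + m) p) :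
    S.Hom (2 * a) p w q →ₗ[ℂ] S.Hom a p (w + a) (q * S.rp w p) where
  toFun g := ⟨S.rp w (star v) * (g.1 * S.rp a (S.R a)) * v, by
    have hsv : star v ∈ S.H (a + m) a := star_mem' hv.1
    refine ⟨?_, ?_, ?_⟩
    · have h1 : S.rp w (star v) ∈ S.H (w + a + m) (w + a) := rp_to w hsv (by omega) (by omega)
      have h2 : g.1 ∈ S.H (3 * a + m) (w + a + m) := pad_to (a + m) g.2.1 (by omega) (by omega)
      have h3 : S.rp a (S.R a) ∈ S.H (a + m) (3 * a + m) := by
        have h31 : S.rp a (S.R a) ∈ S.H a (3 * a) := rp_to a (S.R_mem a) (by omega) (by omega)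
        exact pad_to m h31 (by omega) (by omega)
      exact S.mul_mem _ _ _ _ _ (S.mul_mem _ _ _ _ _ h1 (S.mul_mem _ _ _ _ _ h2 h3)) hv.1
    · have h3 : S.rp w p * S.rp w (star v) = S.rp w (star v) := by
        rw [← map_mul]
        congr 1
        have := congrArg star hv.2.2
        rwa [star_mul, hp.star_eq] at this
      have hcomm : q * S.rp w (star v) = S.rp w (star v) * q := inter hq.mem hsv
      calc q * S.rp w p * (S.rp w (star v) * (g.1 * S.rp a (S.R a)) * v)
          = q * (S.rp w p * S.rp w (star v)) * (g.1 * S.rp a (S.R a)) * v := by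
            simp only [mul_assoc]
        _ = S.rp w (star v) * ((q * g.1) * S.rp a (S.R a)) * v := by
            rw [h3, hcomm]; simp only [mul_assoc]
        _ = _ := by rw [g.2.2.1]
    · rw [mul_assoc, hv.2.2]⟩
  map_add' f g := by
    apply Subtype.ext
    simp [mul_add, add_mul]
  map_smul' c f := by
    apply Subtype.ext
    simp

theorem trace_phi {a w m : ℕ} {p q v : T} (hp : S.IsProj a p) (hq : S.IsProj w q)
    (hv : v ∈ S.Hom a p (a + m) p) :
    LinearMap.trace ℂ (S.Hom a p (w + a) (q * S.rp w p)) (phi hp hq hv) =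
      LinearMap.trace ℂ (S.Hom (2 * a) p w q) (rightMul (theta_mem hp hv)) := by
  have e1 : phi hp hq hv = trace_phi_B hp hq hv ∘ₗ trace_phi_A hq := by
    refine LinearMap.ext fun f => Subtype.ext ?_
    change S.rp w (star v) * f.1 * v =
      S.rp w (star v) * ((S.rp w (star (S.R a)) * f.1) * S.rp a (S.R a)) * v
    have h1 : f.1 * S.rp a (S.R a) = S.rp (w + a) (S.R a) * f.1 := inter f.2.1 (S.R_mem a)
    have h2 : S.rp w (star (S.R a)) * f.1 * S.rp a (S.R a) = f.1 := by
      rw [mul_assoc, h1, rp_add, ← mul_assoc, ← map_mul, S.snake, map_one, one_mul]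
    rw [h2]
  have e2 : rightMul (theta_mem hp hv) = trace_phi_A hq ∘ₗ trace_phi_B (w := w) hp hq hv := by
    refine LinearMap.ext fun g => Subtype.ext ?_
    change g.1 * S.theta a v =
      S.rp w (star (S.R a)) * (S.rp w (star v) * (g.1 * S.rp a (S.R a)) * v)
    have hsv : star v ∈ S.H (a + m) a := star_mem' hv.1
    have hy : star (S.R a) * star v ∈ S.H (2 * a + m) 0 := by
      have h11 : star v ∈ S.H (2 * a + m) (2 * a) := pad_to a hsv (by omega) (by omega)
      exact S.mul_mem _ _ _ _ _ (star_mem' (S.R_mem a)) h11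
    have h3 : g.1 * S.rp (2 * a) (star (S.R a) * star v) =
        S.rp w (star (S.R a) * star v) * g.1 := inter g.2.1 hy
    calc g.1 * S.theta a v
        = (g.1 * S.rp (2 * a) (star (S.R a) * star v)) * S.rp a (S.R a) * v := by
          unfold theta
          simp only [mul_assoc]
      _ = (S.rp w (star (S.R a)) * S.rp w (star v)) * g.1 * S.rp a (S.R a) * v := by
          rw [h3, map_mul]
      _ = _ := by simp only [mul_assoc]
  rw [e1, e2]
  exact LinearMap.trace_comp_comm' _ _

end SubfactorPlanarAlgebra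

end Pool.Agent.ST5
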