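import Pool.Agent.ST5.P.DDefs

/-!
ST5 row D5. The categorical trace as the weighted sum of traces on the Hom spaces.

PROOF. Take a complete family v of P at level n (`Q.exists_fam`). For W the elements star (v W s) are a basis
of Hom n P (a W) (p W): g ∈ that space: star g = ∑ c s v W s (`expand`), so g = ∑ conj(c s) star (v W s); linear
independence by multiplying on the right by v W t (star (v W s) * v W t = δ p W, p W ≠ 0).
star (v W s) * Θ * v W t ∈ Hom(p W, p W) equals M s t • p W, and star (v W s) * Θ = ∑_t M s t star (v W t)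
(multiply by P = ∑ v star v and use `cross`). So the matrix of rightMul has trace ∑_s M s s
(`LinearMap.trace_eq_matrix_trace` / coordinates), and
 Tr n Θ = Tr n (Θ * P) = ∑_W ∑_s Tr n (Θ v star v) = ∑_W ∑_s Tr (a W) (star v Θ v) (`Tr_comm`)
        = ∑_W ∑_s M s s d W (`Tr_smul`, `Tr_p`),
over all W ∈ J. For a W odd and n even there are no s: v W s ∈ H (a W) n is 0 (`S.odd_zero`) but star v * v = p W ≠ 0.
-/

namespace Pool.Agent.ST5

namespace SubfactorPlanarAlgebra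

namespace SimpleSystem

variable {T : Type*} [Ring T] [StarRing T] [Algebra ℂ T] [StarModule ℂ T]
  {S : SubfactorPlanarAlgebra T} (Q : S.SimpleSystem)

theorem D5_mul_v {n : ℕ} {P : T} {ι : Q.J → Type} [∀ j, Fintype (ι j)] [∀ j, DecidableEq (ι j)]
    {v : ∀ j, ι j → T} (hv : Q.Fam n P ι v) {W : Q.J} {x : T}
    (hx : x ∈ S.Hom n P (Q.a W) (Q.p W)) (s : ι W) :
    x * v W s = (S.Tr (Q.a W) (x * v W s) / (Q.d W : ℂ)) • Q.p W := by
  obtain ⟨c, hc⟩ := Q.scalar_of_mem (Hom_mul hx (hv.mem W s))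
  have hd : (Q.d W : ℂ) ≠ 0 := by
    exact_mod_cast (Q.d_pos W).ne'
  rw [hc, Tr_smul c (Q.simple W).mem, Q.Tr_p, mul_div_assoc, div_self hd, mul_one]

theorem D5_expand {n : ℕ} {P : T} {ι : Q.J → Type} [∀ j, Fintype (ι j)] [∀ j, DecidableEq (ι j)]
    {v : ∀ j, ι j → T} (hv : Q.Fam n P ι v) {W : Q.J} {x : T}
    (hx : x ∈ S.Hom n P (Q.a W) (Q.p W)) :
    x = ∑ s, (S.Tr (Q.a W) (x * v W s) / (Q.d W : ℂ)) • star (v W s) := by
  have h1 : x = ∑ j, ∑ s, x * v j s * star (v j s) := by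
    conv_lhs => rw [← hx.2.2, ← hv.complete, Finset.mul_sum]
    apply Finset.sum_congr rfl
    intro j _
    rw [Finset.mul_sum]
    apply Finset.sum_congr rfl
    intro s _
    rw [mul_assoc]
  conv_lhs => rw [h1]
  rw [Finset.sum_eq_single W]
  · apply Finset.sum_congr rfl
    intro s _
    have h2 : Q.p W * star (v W s) = star (v W s) := by
      have h3 := congrArg star (hv.mem W s).2.2
      rwa [star_mul, (Q.simple W).star_eq] at h3
    conv_lhs => rw [Q.D5_mul_v hv hx s, smul_mul_assoc, h2]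
  · intro j _ hj
    apply Finset.sum_eq_zero
    intro s _
    rw [Q.ortho j W hj _ (Hom_mul hx (hv.mem j s)), zero_mul]
  · intro h
    exact absurd (Finset.mem_univ W) h

/-- the coefficient functionals -/
noncomputable def D5_phi {n : ℕ} {P : T} {ι : Q.J → Type} [∀ j, Fintype (ι j)]
    [∀ j, DecidableEq (ι j)] {v : ∀ j, ι j → T} (hv : Q.Fam n P ι v) (W : Q.J) (s : ι W) :
    S.Hom n P (Q.a W) (Q.p W) →ₗ[ℂ] ℂ where
  toFun x := S.Tr (Q.a W) (x.1 * v W s) / (Q.d W : ℂ)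
  map_add' x y := by
    rw [← add_div, ← Tr_add (Hom_mul x.2 (hv.mem W s)).1 (Hom_mul y.2 (hv.mem W s)).1, ← add_mul]
    rfl
  map_smul' c x := by
    rw [RingHom.id_apply, smul_eq_mul, ← mul_div_assoc, ← Tr_smul c (Hom_mul x.2 (hv.mem W s)).1,
      ← smul_mul_assoc]
    rfl

theorem D5_trace {n : ℕ} {P Θ : T} (hP : S.IsProj n P) {ι : Q.J → Type} [∀ j, Fintype (ι j)]
    [∀ j, DecidableEq (ι j)] {v : ∀ j, ι j → T} (hv : Q.Fam n P ι v)
    (hΘ : Θ ∈ S.Hom n P n P) (W : Q.J) :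
    (Q.d W : ℂ) * LinearMap.trace ℂ (S.Hom n P (Q.a W) (Q.p W)) (rightMul hΘ) =
      ∑ s, S.Tr n (Θ * v W s * star (v W s)) := by
  have he : ∀ s, star (v W s) ∈ S.Hom n P (Q.a W) (Q.p W) := fun s =>
    Hom_star (Q.simple W).star_eq hP.star_eq (hv.mem W s)
  have h1 : rightMul (b := Q.a W) (q := Q.p W) hΘ =
      ∑ s, (Q.D5_phi hv W s).smulRight (rightMul hΘ ⟨star (v W s), he s⟩) := by
    apply LinearMap.ext
    intro x
    have hx : x = ∑ s, (Q.D5_phi hv W s x) • (⟨star (v W s), he s⟩ : S.Hom n P (Q.a W) (Q.p W)) := by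
      apply Subtype.ext
      rw [Submodule.coe_sum]
      exact Q.D5_expand hv x.2
    conv_lhs => rw [hx, map_sum]
    rw [LinearMap.sum_apply]
    apply Finset.sum_congr rfl
    intro s _
    rw [map_smul]
    rfl
  have hd : (Q.d W : ℂ) ≠ 0 := by
    exact_mod_cast (Q.d_pos W).ne'
  rw [h1, map_sum, Finset.mul_sum]
  apply Finset.sum_congr rfl
  intro s _
  rw [LinearMap.trace_smulRight]
  show (Q.d W : ℂ) * (S.Tr (Q.a W) (star (v W s) * Θ * v W s) / (Q.d W : ℂ)) = _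
  rw [mul_div_cancel₀ _ hd, mul_assoc,
    Tr_comm (he s).1 (Hom_mul hΘ (hv.mem W s)).1]

theorem trace_rightMul_sum {n : ℕ} (hn : n % 2 = 0) {P Θ : T} (hP : S.IsProj n P)
    (hΘ : Θ ∈ S.Hom n P n P) :
    ∑ W ∈ Finset.univ.filter (fun W => Q.a W % 2 = 0),
      (Q.d W : ℂ) * LinearMap.trace ℂ (S.Hom n P (Q.a W) (Q.p W)) (rightMul hΘ) =
      S.Tr n Θ := by
  obtain ⟨k, v, hv⟩ := Q.exists_fam n P hP
  have h1 : ∀ W ∈ Finset.univ.filter (fun W => Q.a W % 2 = 0),
      (Q.d W : ℂ) * LinearMap.trace ℂ (S.Hom n P (Q.a W) (Q.p W)) (rightMul hΘ) =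
      ∑ s : Fin (k W), S.Tr n (Θ * v W s * star (v W s)) := fun W _ => Q.D5_trace hP hv hΘ W
  rw [Finset.sum_congr rfl h1]
  have h2 : ∑ W ∈ Finset.univ.filter (fun W => Q.a W % 2 = 0),
      ∑ s : Fin (k W), S.Tr n (Θ * v W s * star (v W s)) =
      ∑ W, ∑ s : Fin (k W), S.Tr n (Θ * v W s * star (v W s)) := by
    apply Finset.sum_subset (Finset.filter_subset _ _)
    intro W _ hW
    apply Finset.sum_eq_zero
    intro s _
    exfalso
    apply (Q.simple W).ne_zero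
    have h3 := hv.orth W s s
    rw [if_pos rfl] at h3
    have h4 : v W s = 0 := by
      apply S.odd_zero _ _ _ _ (hv.mem W s).1
      rw [Nat.odd_iff]
      have h5 : ¬ Q.a W % 2 = 0 := fun h => hW (Finset.mem_filter.2 ⟨Finset.mem_univ W, h⟩)
      omega
    rw [← h3, h4, mul_zero]
  rw [h2]
  have hmem : ∀ W, ∀ s : Fin (k W), Θ * v W s * star (v W s) ∈ S.H n n := fun W s =>
    S.mul_mem _ _ _ _ _ (Hom_mul hΘ (hv.mem W s)).1 (star_mem' (hv.mem W s).1)
  have h6 : Θ = ∑ W, ∑ s : Fin (k W), Θ * v W s * star (v W s) := by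
    conv_lhs => rw [← hΘ.2.2, ← hv.complete, Finset.mul_sum]
    apply Finset.sum_congr rfl
    intro W _
    rw [Finset.mul_sum]
    apply Finset.sum_congr rfl
    intro s _
    rw [mul_assoc]
  conv_rhs => rw [h6]
  rw [Tr_sum n _ _ (fun W _ => Submodule.sum_mem _ (fun s _ => hmem W s))]
  apply Finset.sum_congr rfl
  intro W _
  rw [Tr_sum n _ _ (fun s _ => hmem W s)]

end SimpleSystem

end SubfactorPlanarAlgebra

end Pool.Agent.ST5
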