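import Pool.Agent.ST5.P.DDefs

/-!
ST5 row D6. The trace of Θ_v is the square norm of the left closure of v.

PROOF. R = R a, rp = S.rp, E = leftClose a v = star R * rp a v * R ∈ H 0 m.
Both sides are the element star (R (2a)) * theta a v * R (2a) up to shading. First compute
(in T, without z): R (2a) = rp a R * R (`R_add`), theta a v = rp (2a) (star R * star v) * rp a R * v.
 C := star (R (2a)) * theta a v * R (2a)
    = star R * rp a (star R) * rp (2a) (star R * star v) * rp a R * v * rp a R * R.
 v * rp a R = rp (a+m) R * v (`inter`, v ∈ H a (a+m)), rp (a+m) R = rp a (rp m R), so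
 C = star R * rp a ( star R * rp a (star R * star v) * R * rp m R ) * v * R.
 Inside: star v ∈ H (a+m) a: rp a (star R) * rp a (star v) * (R * rp m R); R * rp m R = rp (2a) (rp m R) * R
 (`slide`), rp a (star v) * rp (2a) (rp m R) = rp a (star v * rp (a+m) R) = rp a (rp a R * star v) (`inter` for star v ∈ H (a+m) a)
 = rp (2a) R * rp a (star v), and rp a (star R) * rp (2a) R = rp a (star R * rp a R) = 1 (`snake`). So the inside
 is star R * rp a (star v) * R = star E. Hence C = star R * rp a (star E) * v * R.
 x := rp a (star E) * v is in Hom(p,p) at level a: star E ∈ H m 0, rp a (star E) ∈ H (a+m) a, p commutes with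
 rp a (star E) (`inter`); so C = star R * x * R, and x = c • p by simplicity.
 Left closure: star R * rp a x * R = star R * rp (2a) (star E) * rp a v * R = star E * star R * rp a v * R
 (`slide'` for star R ∈ H (2a) 0) = star E * E.
 `Tr_elt_left` (z x = x): star R * rp a x * R = (Tr a x) • rp a z; and Tr a x = zc (star R * x * R) = zc C = Tr (2a) (theta a v).
-/

namespace Pool.Agent.ST5

namespace SubfactorPlanarAlgebra

variable {T : Type*} [Ring T] [StarRing T] [Algebra ℂ T] [StarModule ℂ T]
  {S : SubfactorPlanarAlgebra T}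

theorem leftClose_mem {a m : ℕ} {v : T} (hv : v ∈ S.H a (a + m)) :
    S.leftClose a v ∈ S.H 0 m := by
  unfold leftClose
  have h1 : S.R a ∈ S.H 0 (2 * a) := S.R_mem a
  have h2 : S.rp a v ∈ S.H (2 * a) (2 * a + m) := rp_to a hv (by omega) (by omega)
  have h3 : star (S.R a) ∈ S.H (2 * a + m) m := pad_to m (star_mem' h1) rfl (by omega)
  exact S.mul_mem _ _ _ _ _ (S.mul_mem _ _ _ _ _ h3 h2) h1

/-- The closure of `theta a v` on the right. -/
theorem D6_closure {a m : ℕ} {v : T} (hv : v ∈ S.H a (a + m)) :
    star (S.R (2 * a)) * S.theta a v * S.R (2 * a) =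
      star (S.R a) * (S.rp a (star (S.leftClose a v)) * v) * S.R a := by
  have hR : S.R a ∈ S.H 0 (2 * a) := S.R_mem a
  have hsv : star v ∈ S.H (a + m) a := star_mem' hv
  have e0 : S.R (2 * a) = S.rp a (S.R a) * S.R a := by
    rw [two_mul]
    exact S.R_add a a
  have e1 : v * S.rp a (S.R a) = S.rp a (S.rp m (S.R a)) * v := by
    rw [← rp_add]
    exact inter hv hR
  have e2 : S.R a * S.rp m (S.R a) = S.rp (2 * a) (S.rp m (S.R a)) * S.R a :=
    (slide S hR (rp_mem m hR)).symm
  have e3 : S.rp a (star v) * S.rp (2 * a) (S.rp m (S.R a)) =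
      S.rp (2 * a) (S.R a) * S.rp a (star v) := by
    rw [two_mul, rp_add, ← map_mul, ← rp_add, inter hsv hR, map_mul, ← rp_add]
  have e4 : S.rp a (star (S.R a)) * S.rp (2 * a) (S.R a) = 1 := by
    rw [two_mul, rp_add, ← map_mul, S.snake, map_one]
  have e5 : star (S.leftClose a v) = star (S.R a) * S.rp a (star v) * S.R a := by
    unfold leftClose
    rw [star_mul, star_mul, star_star, ← map_star, mul_assoc]
  have e6 : star (S.R a) * S.rp a (star (S.R a) * star v) * S.R a * S.rp m (S.R a) =
      star (S.leftClose a v) := by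
    rw [e5, map_mul]
    calc star (S.R a) * (S.rp a (star (S.R a)) * S.rp a (star v)) * S.R a * S.rp m (S.R a)
        = star (S.R a) * S.rp a (star (S.R a)) * S.rp a (star v) * (S.R a * S.rp m (S.R a)) := by
          simp only [mul_assoc]
      _ = star (S.R a) * S.rp a (star (S.R a)) *
          (S.rp a (star v) * S.rp (2 * a) (S.rp m (S.R a))) * S.R a := by
          rw [e2]; simp only [mul_assoc]
      _ = star (S.R a) * (S.rp a (star (S.R a)) * S.rp (2 * a) (S.R a)) * S.rp a (star v) *
          S.R a := by
          rw [e3]; simp only [mul_assoc]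
      _ = _ := by rw [e4, mul_one]
  have e7 : S.rp (2 * a) (star (S.R a) * star v) = S.rp a (S.rp a (star (S.R a) * star v)) := by
    rw [two_mul, rp_add]
  unfold theta
  rw [e0, star_mul, ← map_star, e7]
  calc star (S.R a) * S.rp a (star (S.R a)) *
        (S.rp a (S.rp a (star (S.R a) * star v)) * S.rp a (S.R a) * v) *
        (S.rp a (S.R a) * S.R a)
      = star (S.R a) * S.rp a (star (S.R a)) *
        (S.rp a (S.rp a (star (S.R a) * star v)) * S.rp a (S.R a) * (v * S.rp a (S.R a))) *
        S.R a := by simp only [mul_assoc]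
    _ = star (S.R a) * (S.rp a (star (S.R a)) *
        S.rp a (S.rp a (star (S.R a) * star v)) * S.rp a (S.R a) * S.rp a (S.rp m (S.R a))) * v *
        S.R a := by rw [e1]; simp only [mul_assoc]
    _ = star (S.R a) * S.rp a (star (S.R a) * S.rp a (star (S.R a) * star v) * S.R a *
        S.rp m (S.R a)) * v * S.R a := by simp only [map_mul]
    _ = _ := by rw [e6]; simp only [mul_assoc]

theorem star_leftClose_mul {a m : ℕ} {p v : T} (hp : S.IsSimple a p)
    (hv : v ∈ S.Hom a p (a + m) p) :
    star (S.leftClose a v) * S.leftClose a v = S.Tr (2 * a) (S.theta a v) • S.rp a S.z := by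
  obtain ⟨hv1, hv2, hv3⟩ := hv
  have hR : S.R a ∈ S.H 0 (2 * a) := S.R_mem a
  have hE : star (S.leftClose a v) ∈ S.H m 0 := star_mem' (leftClose_mem hv1)
  have hrE : S.rp a (star (S.leftClose a v)) ∈ S.H (a + m) a := rp_to a hE (by omega) (by omega)
  have hx : S.rp a (star (S.leftClose a v)) * v ∈ S.H a a := S.mul_mem _ _ _ _ _ hrE hv1
  have hpx : p * (S.rp a (star (S.leftClose a v)) * v) =
      S.rp a (star (S.leftClose a v)) * v := by
    have h1 : p * S.rp a (star (S.leftClose a v)) = S.rp a (star (S.leftClose a v)) * p :=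
      inter hp.mem hE
    rw [← mul_assoc, h1, mul_assoc, hv2]
  have hz : S.z * (S.rp a (star (S.leftClose a v)) * v) =
      S.rp a (star (S.leftClose a v)) * v := by
    rw [← hpx, ← mul_assoc, hp.z_mul]
  have h1 := Tr_elt_left hx hz
  have h2 : star (S.R a) * S.rp a (S.rp a (star (S.leftClose a v)) * v) * S.R a =
      star (S.leftClose a v) * S.leftClose a v := by
    have h3 : star (S.R a) * S.rp (2 * a) (star (S.leftClose a v)) =
        star (S.leftClose a v) * star (S.R a) := slide' S (star_mem' hR) hE
    calc star (S.R a) * S.rp a (S.rp a (star (S.leftClose a v)) * v) * S.R a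
        = star (S.R a) * S.rp (2 * a) (star (S.leftClose a v)) * S.rp a v * S.R a := by
          rw [map_mul, ← rp_add, ← two_mul]; simp only [mul_assoc]
      _ = star (S.leftClose a v) * (star (S.R a) * S.rp a v * S.R a) := by
          rw [h3]; simp only [mul_assoc]
      _ = _ := rfl
  rw [← h2, h1]
  congr 1
  unfold Tr
  rw [D6_closure hv1]

end SubfactorPlanarAlgebra

end Pool.Agent.ST5
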