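import Pool.Agent.ST5.P.D6

/-!
ST5 row D7. Sum of the square norms of the left closures over a complete family.

PROOF. a = a l, p = p l, d = d l, ε = rp a z (= z or 1 - z by the parity of a), K = Hom 0 1 m ε = {h ∈ H 0 m | ε h = h}.
(1) K with ⟨h, h'⟩ ε = star h * h' is a finite-dimensional inner product space: for h, h' ∈ K, star h * h' ∈ H 0 0 = span {z, 1-z}
 and ε star h h' = star h h' so it is a multiple of ε (z ε or (1-z) ε); positivity from `S.positive`, `S.definite`.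
 Choose an orthonormal basis h_1, …, h_k, k = finrank K (Gram-Schmidt: `InnerProductSpace.Core` and
 `stdOrthonormalBasis`, or induction).
(2) E_s := leftClose a (v l s) ∈ K: v = z v so rp a v = rp a z * rp a v, and rp a z = ε commutes with everything:
 E = ε E. So E_s = ∑_k α_{ks} h_k, α_{ks} ε = star (h_k) * E_s, and star E_s * E_s = ∑_k |α_{ks}|² ε.
(3) star (h_k) * E_s = star (h_k) * star R * rp a v * R = star R * rp (2a) (star h_k) * rp a v * R (`slide'`)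
 = star R * rp a (rp a (star h_k) * v) * R = Tr a (rp a (star h_k) * v) • ε (`Tr_elt_left`).
 u_k := rp a h_k * p ∈ Hom(p, p at level a+m) (p commutes with rp a h_k), star u_k * u_{k'} = p rp a (star h_k h_k') p
 = δ_{kk'} rp a ε p = δ p (rp a ε = rp (2a) z = z). rp a (star h_k) * v = star u_k * v (p v = v … ) = β_{ks} p, so α_{ks} = β_{ks} d (`Tr_p`, `Tr_smul`).
(4) The v l s are a complete family, so u_k = ∑_s conj(β_{ks}) v l s (`expand`), whence ∑_s |β_{ks}|² = 1 (star u_k * u_k = p).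
Sum: ∑_s star E_s * E_s = ∑_k ∑_s d² |β_{ks}|² ε = d² k ε.
-/

namespace Pool.Agent.ST5

namespace SubfactorPlanarAlgebra

namespace SimpleSystem

variable {T : Type*} [Ring T] [StarRing T] [Algebra ℂ T] [StarModule ℂ T]
  {S : SubfactorPlanarAlgebra T} (Q : S.SimpleSystem)

variable (S) in
theorem D7_eps_comm (a : ℕ) {m n : ℕ} {x : T} (hx : x ∈ S.H m n) :
    S.rp a S.z * x = x * S.rp a S.z := by
  rw [rp_z]
  split_ifs
  · exact z_comm hx
  · rw [sub_mul, mul_sub, z_comm hx, one_mul, mul_one]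

/-- the map `h ↦ h ⊗ p` -/
noncomputable def D7_A (m : ℕ) (l : Q.J) :
    S.Hom 0 1 m (S.rp (Q.a l) S.z) →ₗ[ℂ] S.Hom (Q.a l) (Q.p l) (Q.a l + m) (Q.p l) where
  toFun h := ⟨S.rp (Q.a l) h.1 * Q.p l,
    S.mul_mem _ _ _ _ _ (rp_to (Q.a l) h.2.1 (by omega) (by omega)) (Q.simple l).mem, by
      have h1 : Q.p l * S.rp (Q.a l) h.1 = S.rp (Q.a l) h.1 * Q.p l :=
        inter (Q.simple l).mem h.2.1
      rw [← mul_assoc, h1, mul_assoc, (Q.simple l).idem], by
      rw [mul_assoc, (Q.simple l).idem]⟩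
  map_add' x y := Subtype.ext (by
    change S.rp (Q.a l) (x.1 + y.1) * Q.p l = S.rp (Q.a l) x.1 * Q.p l + S.rp (Q.a l) y.1 * Q.p l
    rw [map_add, add_mul])
  map_smul' c x := Subtype.ext (by
    change S.rp (Q.a l) (c • x.1) * Q.p l = c • (S.rp (Q.a l) x.1 * Q.p l)
    rw [map_smul, smul_mul_assoc])

/-- the left closure -/
noncomputable def D7_B (m : ℕ) (l : Q.J) :
    S.Hom (Q.a l) (Q.p l) (Q.a l + m) (Q.p l) →ₗ[ℂ] S.Hom 0 1 m (S.rp (Q.a l) S.z) where
  toFun v := ⟨S.leftClose (Q.a l) v.1, leftClose_mem v.2.1, by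
      have h1 : S.z * v.1 = v.1 := Hom_z (Q.simple l).z_mul v.2
      have h2 : S.rp (Q.a l) v.1 = S.rp (Q.a l) S.z * S.rp (Q.a l) v.1 := by
        rw [← map_mul, h1]
      have h3 : S.rp (Q.a l) S.z * star (S.R (Q.a l)) = star (S.R (Q.a l)) * S.rp (Q.a l) S.z :=
        D7_eps_comm S (Q.a l) (star_mem' (S.R_mem (Q.a l)))
      calc S.rp (Q.a l) S.z * (star (S.R (Q.a l)) * S.rp (Q.a l) v.1 * S.R (Q.a l))
          = (S.rp (Q.a l) S.z * star (S.R (Q.a l))) * S.rp (Q.a l) v.1 * S.R (Q.a l) := by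
            simp only [mul_assoc]
        _ = star (S.R (Q.a l)) * (S.rp (Q.a l) S.z * S.rp (Q.a l) v.1) * S.R (Q.a l) := by
            rw [h3]
            simp only [mul_assoc]
        _ = star (S.R (Q.a l)) * S.rp (Q.a l) v.1 * S.R (Q.a l) := by rw [← h2], mul_one _⟩
  map_add' x y := Subtype.ext (by
    change star (S.R (Q.a l)) * S.rp (Q.a l) (x.1 + y.1) * S.R (Q.a l) =
      star (S.R (Q.a l)) * S.rp (Q.a l) x.1 * S.R (Q.a l) +
        star (S.R (Q.a l)) * S.rp (Q.a l) y.1 * S.R (Q.a l)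
    rw [map_add, mul_add, add_mul])
  map_smul' c x := Subtype.ext (by
    change star (S.R (Q.a l)) * S.rp (Q.a l) (c • x.1) * S.R (Q.a l) =
      c • (star (S.R (Q.a l)) * S.rp (Q.a l) x.1 * S.R (Q.a l))
    rw [map_smul, mul_smul_comm, smul_mul_assoc])

theorem D7_BA (m : ℕ) (l : Q.J) :
    (Q.D7_B m l).comp (Q.D7_A m l) = (Q.d l : ℂ) • LinearMap.id := by
  apply LinearMap.ext
  intro h
  apply Subtype.ext
  change star (S.R (Q.a l)) * S.rp (Q.a l) (S.rp (Q.a l) h.1 * Q.p l) * S.R (Q.a l) =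
    (Q.d l : ℂ) • h.1
  have h1 : star (S.R (Q.a l)) * S.rp (2 * Q.a l) h.1 = h.1 * star (S.R (Q.a l)) :=
    slide' S (star_mem' (S.R_mem (Q.a l))) h.2.1
  have h2 : star (S.R (Q.a l)) * S.rp (Q.a l) (Q.p l) * S.R (Q.a l) =
      S.Tr (Q.a l) (Q.p l) • S.rp (Q.a l) S.z :=
    Tr_elt_left (Q.simple l).mem (Q.simple l).z_mul
  calc star (S.R (Q.a l)) * S.rp (Q.a l) (S.rp (Q.a l) h.1 * Q.p l) * S.R (Q.a l)
      = (star (S.R (Q.a l)) * S.rp (2 * Q.a l) h.1) * S.rp (Q.a l) (Q.p l) * S.R (Q.a l) := by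
        rw [map_mul, ← rp_add, ← two_mul]
        simp only [mul_assoc]
    _ = h.1 * (star (S.R (Q.a l)) * S.rp (Q.a l) (Q.p l) * S.R (Q.a l)) := by
        rw [h1]
        simp only [mul_assoc]
    _ = (Q.d l : ℂ) • h.1 := by
        rw [h2, Q.Tr_p, mul_smul_comm, ← D7_eps_comm S (Q.a l) h.2.1, h.2.2.1]

theorem D7_inner {m : ℕ} (l : Q.J) (h : S.Hom 0 1 m (S.rp (Q.a l) S.z))
    (v : S.Hom (Q.a l) (Q.p l) (Q.a l + m) (Q.p l)) {c : ℂ}
    (hc : star v.1 * (Q.D7_A m l h).1 = c • Q.p l) :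
    star h.1 * (Q.D7_B m l v).1 = ((starRingEnd ℂ c) * Q.d l) • S.rp (Q.a l) S.z := by
  have h1 : star h.1 * star (S.R (Q.a l)) = star (S.R (Q.a l)) * S.rp (2 * Q.a l) (star h.1) := by
    have h3 : S.rp (2 * Q.a l) h.1 * S.R (Q.a l) = S.R (Q.a l) * h.1 :=
      slide S (S.R_mem (Q.a l)) h.2.1
    have h4 := congrArg star h3
    rw [star_mul, star_mul, ← map_star] at h4
    exact h4.symm
  have h2 : S.rp (Q.a l) (star h.1) * v.1 = (starRingEnd ℂ c) • Q.p l := by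
    have h3 := congrArg star hc
    rw [star_mul, star_star, star_smul, (Q.simple l).star_eq] at h3
    have h4 : star (Q.D7_A m l h).1 = Q.p l * S.rp (Q.a l) (star h.1) := by
      change star (S.rp (Q.a l) h.1 * Q.p l) = _
      rw [star_mul, (Q.simple l).star_eq, ← map_star]
    have h5 : Q.p l * S.rp (Q.a l) (star h.1) = S.rp (Q.a l) (star h.1) * Q.p l :=
      inter (Q.simple l).mem (star_mem' h.2.1)
    rw [h4, h5, mul_assoc, v.2.2.1] at h3
    exact h3
  change star h.1 * (star (S.R (Q.a l)) * S.rp (Q.a l) v.1 * S.R (Q.a l)) = _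
  calc star h.1 * (star (S.R (Q.a l)) * S.rp (Q.a l) v.1 * S.R (Q.a l))
      = (star h.1 * star (S.R (Q.a l))) * S.rp (Q.a l) v.1 * S.R (Q.a l) := by
        simp only [mul_assoc]
    _ = star (S.R (Q.a l)) * S.rp (Q.a l) (S.rp (Q.a l) (star h.1) * v.1) * S.R (Q.a l) := by
        rw [h1, map_mul, ← rp_add, ← two_mul]
        simp only [mul_assoc]
    _ = (starRingEnd ℂ c) • (star (S.R (Q.a l)) * S.rp (Q.a l) (Q.p l) * S.R (Q.a l)) := by
        rw [h2, map_smul, mul_smul_comm, smul_mul_assoc]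
    _ = ((starRingEnd ℂ c) * Q.d l) • S.rp (Q.a l) S.z := by
        rw [Tr_elt_left (Q.simple l).mem (Q.simple l).z_mul, Q.Tr_p, smul_smul]

theorem D7_linInd {m : ℕ} (l : Q.J) {ι : Q.J → Type} [∀ j, Fintype (ι j)]
    [∀ j, DecidableEq (ι j)] {v : ∀ j, ι j → T} (hv : Q.Fam (Q.a l + m) (Q.p l) ι v) :
    LinearIndependent ℂ (fun s : ι l =>
      (⟨v l s, hv.mem l s⟩ : S.Hom (Q.a l) (Q.p l) (Q.a l + m) (Q.p l))) := by
  rw [Fintype.linearIndependent_iff]
  intro g hg t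
  have h1 := congrArg (fun x : S.Hom (Q.a l) (Q.p l) (Q.a l + m) (Q.p l) => star (v l t) * x.1) hg
  simp only [Submodule.coe_sum, Submodule.coe_smul, Submodule.coe_zero, mul_zero,
    Finset.mul_sum, mul_smul_comm, hv.orth l] at h1
  rw [Finset.sum_eq_single t] at h1
  · rw [if_pos rfl] at h1
    exact (smul_eq_zero.mp h1).resolve_right (Q.simple l).ne_zero
  · intro s _ hs
    rw [if_neg (Ne.symm hs), smul_zero]
  · intro h
    exact absurd (Finset.mem_univ t) h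

theorem sum_leftClose {m : ℕ} (l : Q.J) {ι : Q.J → Type} [∀ j, Fintype (ι j)]
    [∀ j, DecidableEq (ι j)] {v : ∀ j, ι j → T} (hv : Q.Fam (Q.a l + m) (Q.p l) ι v) :
    ∑ s, star (S.leftClose (Q.a l) (v l s)) * S.leftClose (Q.a l) (v l s) =
      (((Q.d l : ℂ) ^ 2) * (Module.finrank ℂ (S.Hom 0 1 m (S.rp (Q.a l) S.z)) : ℂ)) •
        S.rp (Q.a l) S.z := by
  have hsp : ⊤ ≤ Submodule.span ℂ (Set.range (fun s : ι l =>
      (⟨v l s, hv.mem l s⟩ : S.Hom (Q.a l) (Q.p l) (Q.a l + m) (Q.p l)))) := by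
    rintro x -
    obtain ⟨c, hc, -⟩ := Q.expand hv x.2
    have h1 : x = ∑ s, c s • (⟨v l s, hv.mem l s⟩ :
        S.Hom (Q.a l) (Q.p l) (Q.a l + m) (Q.p l)) := by
      apply Subtype.ext
      rw [Submodule.coe_sum]
      exact hc
    rw [h1]
    exact Submodule.sum_mem _ fun s _ =>
      Submodule.smul_mem _ _ (Submodule.subset_span ⟨s, rfl⟩)
  let b : Module.Basis (ι l) ℂ (S.Hom (Q.a l) (Q.p l) (Q.a l + m) (Q.p l)) :=
    Module.Basis.mk (Q.D7_linInd l hv) hsp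
  have hb : ∀ s, b s = ⟨v l s, hv.mem l s⟩ := fun s => Module.Basis.mk_apply _ _ s
  have hrepr : ∀ (x : S.Hom (Q.a l) (Q.p l) (Q.a l + m) (Q.p l)) (s : ι l),
      star (v l s) * x.1 = b.repr x s • Q.p l := by
    intro x s
    obtain ⟨c, hc, hc2⟩ := Q.expand hv x.2
    have h1 : x = ∑ s, c s • b s := by
      apply Subtype.ext
      rw [Submodule.coe_sum, hc]
      refine Finset.sum_congr rfl fun s _ => ?_
      rw [hb]
      rfl
    have h2 : b.repr x s = c s := by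
      rw [h1, Module.Basis.repr_sum_self]
    rw [hc2, h2]
  have htr1 : LinearMap.trace ℂ _ ((Q.D7_A m l).comp (Q.D7_B m l)) =
      ∑ s, b.repr (Q.D7_A m l (Q.D7_B m l (b s))) s := by
    rw [LinearMap.trace_eq_matrix_trace ℂ b, Matrix.trace]
    refine Finset.sum_congr rfl fun s _ => ?_
    rw [Matrix.diag_apply, LinearMap.toMatrix_apply]
    rfl
  have htr2 : LinearMap.trace ℂ _ ((Q.D7_A m l).comp (Q.D7_B m l)) =
      (Q.d l : ℂ) * (Module.finrank ℂ (S.Hom 0 1 m (S.rp (Q.a l) S.z)) : ℂ) := by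
    rw [LinearMap.trace_comp_comm', Q.D7_BA, map_smul, LinearMap.trace_id, smul_eq_mul]
  have hsum : ∑ s, starRingEnd ℂ (b.repr (Q.D7_A m l (Q.D7_B m l (b s))) s) =
      (Q.d l : ℂ) * (Module.finrank ℂ (S.Hom 0 1 m (S.rp (Q.a l) S.z)) : ℂ) := by
    rw [← map_sum, ← htr1, htr2, map_mul, Complex.conj_ofReal, Complex.conj_natCast]
  have hterm : ∀ s, star (S.leftClose (Q.a l) (v l s)) * S.leftClose (Q.a l) (v l s) =
      (starRingEnd ℂ (b.repr (Q.D7_A m l (Q.D7_B m l (b s))) s) * Q.d l) • S.rp (Q.a l) S.z := by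
    intro s
    have h1 := Q.D7_inner l (Q.D7_B m l (b s)) (b s)
      (c := b.repr (Q.D7_A m l (Q.D7_B m l (b s))) s) (by
        rw [← hrepr]
        rw [hb])
    rw [← h1, hb]
    rfl
  rw [Finset.sum_congr rfl fun s _ => hterm s, ← Finset.sum_smul, ← Finset.sum_mul, hsum]
  congr 1
  ring

end SimpleSystem

end SubfactorPlanarAlgebra

end Pool.Agent.ST5
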