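import Pool.Agent.ST5.P.D3
import Pool.Agent.ST5.P.D4
import Pool.Agent.ST5.P.D5
import Pool.Agent.ST5.P.D7
import Pool.Agent.ST5.P.D8

/-!
ST5 row D9. The trace formula.

PROOF. Choose for every i a complete family c i of p i at level a i + m (`Q.exists_fam`, `IsProj.pad`).
∑_W d W trace (L W ^ m) = ∑_W d W ∑_l ∑_s trace (phi (c l l s)) (`trace_L_pow`)
 = ∑_l ∑_s ∑_W d W trace (rightMul (theta_mem …)) on Hom (2 a l) (p l) (a W) (p W) (`trace_phi`, exchange the sums)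
 = ∑_l ∑_s Tr (2 a l) (theta (a l) (c l l s)) (`trace_rightMul_sum` with n = 2 a l, P = p l, `IsProj.pad`)
 and for fixed l, by `star_leftClose_mul` and `sum_leftClose`, (∑_s Tr (2 a l) (theta …)) • rp a z
 = (d l ^ 2 * finrank K) • rp a z with rp a z ≠ 0 (`rp_z`, z ≠ 0, z ≠ 1), so ∑_s Tr … = d l ^ 2 * (G^m) o o (`finrank_closed`).
-/

namespace Pool.Agent.ST5

namespace SubfactorPlanarAlgebra

namespace SimpleSystem

variable {T : Type*} [Ring T] [StarRing T] [Algebra ℂ T] [StarModule ℂ T]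
  {S : SubfactorPlanarAlgebra T} (Q : S.SimpleSystem)

theorem D9_rp_z_ne_zero (n : ℕ) : S.rp n S.z ≠ 0 := by
  rw [S.rp_z n]
  split_ifs
  · exact S.z_ne_zero
  · exact fun h => S.z_ne_one (sub_eq_zero.mp h).symm

theorem trace_formula (m : ℕ) :
    ∑ W ∈ Finset.univ.filter (fun W => Q.a W % 2 = 0),
      (Q.d W : ℂ) * LinearMap.trace ℂ (∀ i, Q.VV W i) (Q.L W ^ m) =
      ((∑ i, (Q.d i) ^ 2 : ℝ) : ℂ) * (((Q.G ^ m) Q.o Q.o : ℕ) : ℂ) := by
  have hex : ∀ i : Q.J, ∃ (k : Q.J → ℕ) (v : ∀ j, Fin (k j) → T),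
      Q.Fam (Q.a i + m) (Q.p i) (fun j => Fin (k j)) v :=
    fun i => Q.exists_fam (Q.a i + m) (Q.p i) ((Q.simple i).toIsProj.pad m)
  choose k v hc using hex
  have key : ∀ l : Q.J, ∑ s : Fin (k l l), S.Tr (2 * Q.a l) (S.theta (Q.a l) (v l l s)) =
      ((Q.d l : ℂ) ^ 2) * (((Q.G ^ m) Q.o Q.o : ℕ) : ℂ) := by
    intro l
    have h1 := Q.sum_leftClose l (hc l)
    have h2 : ∑ s : Fin (k l l),
        star (S.leftClose (Q.a l) (v l l s)) * S.leftClose (Q.a l) (v l l s) =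
        (∑ s : Fin (k l l), S.Tr (2 * Q.a l) (S.theta (Q.a l) (v l l s))) •
          S.rp (Q.a l) S.z := by
      rw [Finset.sum_smul]
      exact Finset.sum_congr rfl fun s _ => star_leftClose_mul (Q.simple l) ((hc l).mem l s)
    rw [h2] at h1
    have h3 := smul_left_injective ℂ (D9_rp_z_ne_zero (S := S) (Q.a l)) h1
    rw [h3, Q.finrank_closed]
  have hP : ∀ l : Q.J, S.IsProj (2 * Q.a l) (Q.p l) := by
    intro l
    rw [two_mul]
    exact (Q.simple l).toIsProj.pad (Q.a l)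
  calc ∑ W ∈ Finset.univ.filter (fun W => Q.a W % 2 = 0),
      (Q.d W : ℂ) * LinearMap.trace ℂ (∀ i, Q.VV W i) (Q.L W ^ m)
      = ∑ W ∈ Finset.univ.filter (fun W => Q.a W % 2 = 0), ∑ l, ∑ s : Fin (k l l),
        (Q.d W : ℂ) * LinearMap.trace ℂ (S.Hom (2 * Q.a l) (Q.p l) (Q.a W) (Q.p W))
          (rightMul (theta_mem (Q.simple l).toIsProj ((hc l).mem l s))) := by
        refine Finset.sum_congr rfl fun W _ => ?_
        rw [Q.trace_L_pow hc W, Finset.mul_sum]
        refine Finset.sum_congr rfl fun l _ => ?_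
        rw [Finset.mul_sum]
        refine Finset.sum_congr rfl fun s _ => ?_
        rw [trace_phi (Q.simple l).toIsProj (Q.simple W).toIsProj ((hc l).mem l s)]
    _ = ∑ l, ∑ s : Fin (k l l), ∑ W ∈ Finset.univ.filter (fun W => Q.a W % 2 = 0),
        (Q.d W : ℂ) * LinearMap.trace ℂ (S.Hom (2 * Q.a l) (Q.p l) (Q.a W) (Q.p W))
          (rightMul (theta_mem (Q.simple l).toIsProj ((hc l).mem l s))) := by
        rw [Finset.sum_comm]
        exact Finset.sum_congr rfl fun l _ => Finset.sum_comm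
    _ = ∑ l, ∑ s : Fin (k l l), S.Tr (2 * Q.a l) (S.theta (Q.a l) (v l l s)) :=
        Finset.sum_congr rfl fun l _ => Finset.sum_congr rfl fun s _ =>
          Q.trace_rightMul_sum (by omega) (hP l)
            (theta_mem (Q.simple l).toIsProj ((hc l).mem l s))
    _ = ∑ l, ((Q.d l : ℂ) ^ 2) * (((Q.G ^ m) Q.o Q.o : ℕ) : ℂ) :=
        Finset.sum_congr rfl fun l _ => key l
    _ = _ := by
        rw [← Finset.sum_mul]
        push_cast
        rfl

end SimpleSystem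

end SubfactorPlanarAlgebra

end Pool.Agent.ST5
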