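import Pool.Agent.ST5.P.C3
import Pool.Agent.ST5.P.C4

/-!
ST5: the operators of the trace formula (definitions).
-/

namespace Pool.Agent.ST5

namespace SubfactorPlanarAlgebra

variable {T : Type*} [Ring T] [StarRing T] [Algebra ℂ T] [StarModule ℂ T]
  {S : SubfactorPlanarAlgebra T}

/-- `f ↦ rp w (star v) * f * u` maps `Hom (p, q ⊗ p)` to `Hom (p', q ⊗ p')`, for
`u, v : p' → p` (at a level `m` higher). -/
lemma sandwich_mem {a a' w m : ℕ} {p p' q u v f : T} (hq : q ∈ S.H w w)
    (hqq : q * q = q) (hps' : star p' = p')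
    (hu : u ∈ S.Hom a' p' (a + m) p) (hv : v ∈ S.Hom a' p' (a + m) p)
    (hf : f ∈ S.Hom a p (w + a) (q * S.rp w p)) :
    S.rp w (star v) * f * u ∈ S.Hom a' p' (w + a') (q * S.rp w p') := by
  obtain ⟨hu1, hu2, hu3⟩ := hu
  obtain ⟨hv1, hv2, hv3⟩ := hv
  obtain ⟨hf1, hf2, hf3⟩ := hf
  have hsv : star v ∈ S.H (a + m) a' := star_mem' hv1
  have hqf : q * f = f := by
    calc q * f = q * (q * S.rp w p * f) := by rw [hf2]
      _ = q * q * S.rp w p * f := by simp only [mul_assoc]
      _ = f := by rw [hqq, hf2]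
  have hcomm : q * S.rp w (star v) = S.rp w (star v) * q := inter hq hsv
  refine ⟨?_, ?_, ?_⟩
  · have h1 : S.rp w (star v) ∈ S.H (w + a + m) (w + a') :=
      rp_to w hsv (by omega) (by omega)
    have h2 : f ∈ S.H (a + m) (w + a + m) := pad_to m hf1 rfl rfl
    exact S.mul_mem _ _ _ _ _ (S.mul_mem _ _ _ _ _ h1 h2) hu1
  · have h3 : S.rp w p' * S.rp w (star v) = S.rp w (star v) := by
      rw [← map_mul]
      congr 1
      have := congrArg star hv3
      rwa [star_mul, hps'] at this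
    calc q * S.rp w p' * (S.rp w (star v) * f * u)
        = q * (S.rp w p' * S.rp w (star v)) * f * u := by simp only [mul_assoc]
      _ = S.rp w (star v) * (q * f) * u := by rw [h3, hcomm]; simp only [mul_assoc]
      _ = _ := by rw [hqf]
  · rw [mul_assoc, hu3]

/-- The operator `f ↦ rp w (star v) * f * v` on `Hom (p, q ⊗ p)` for `v : p → p` at a level `m`
higher. -/
noncomputable def phi {a w m : ℕ} {p q v : T} (hp : S.IsProj a p) (hq : S.IsProj w q)
    (hv : v ∈ S.Hom a p (a + m) p) :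
    S.Hom a p (w + a) (q * S.rp w p) →ₗ[ℂ] S.Hom a p (w + a) (q * S.rp w p) where
  toFun f := ⟨S.rp w (star v) * f.1 * v,
    sandwich_mem hq.mem hq.idem hp.star_eq hv hv f.2⟩
  map_add' f g := by
    apply Subtype.ext
    simp [mul_add, add_mul]
  map_smul' c f := by
    apply Subtype.ext
    simp

/-- Right multiplication by an endomorphism `Θ` of `P` on `Hom (P, q)`. -/
noncomputable def rightMul {n b : ℕ} {P q Θ : T} (hΘ : Θ ∈ S.Hom n P n P) :
    S.Hom n P b q →ₗ[ℂ] S.Hom n P b q where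
  toFun g := ⟨g.1 * Θ, S.mul_mem _ _ _ _ _ g.2.1 hΘ.1, by rw [← mul_assoc, g.2.2.1],
    by rw [mul_assoc, hΘ.2.2]⟩
  map_add' f g := by
    apply Subtype.ext
    simp [add_mul]
  map_smul' c f := by
    apply Subtype.ext
    simp

variable (S) in
/-- The endomorphism `Θ_v` of `p ⊗ X^a`. -/
noncomputable def theta (a : ℕ) (v : T) : T :=
  S.rp (2 * a) (star (S.R a) * star v) * S.rp a (S.R a) * v

variable (S) in
/-- The left closure of `v`. -/
noncomputable def leftClose (a : ℕ) (v : T) : T := star (S.R a) * S.rp a v * S.R a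

lemma theta_mem {a m : ℕ} {p v : T} (hp : S.IsProj a p) (hv : v ∈ S.Hom a p (a + m) p) :
    S.theta a v ∈ S.Hom (2 * a) p (2 * a) p := by
  obtain ⟨hv1, hv2, hv3⟩ := hv
  have hsv : star v ∈ S.H (a + m) a := star_mem' hv1
  have hRa : S.R a ∈ S.H 0 (2 * a) := S.R_mem a
  have h1 : star (S.R a) * star v ∈ S.H (2 * a + m) 0 := by
    have h11 : star v ∈ S.H (2 * a + m) (2 * a) := pad_to a hsv (by omega) (by omega)
    exact S.mul_mem _ _ _ _ _ (star_mem' hRa) h11
  have h2 : S.rp (2 * a) (star (S.R a) * star v) ∈ S.H (4 * a + m) (2 * a) :=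
    rp_to (2 * a) h1 (by omega) (by omega)
  have h3 : S.rp a (S.R a) ∈ S.H (2 * a + m) (4 * a + m) := by
    have h31 : S.rp a (S.R a) ∈ S.H a (3 * a) := rp_to a hRa (by omega) (by omega)
    exact pad_to (a + m) h31 (by omega) (by omega)
  have h4 : v ∈ S.H (2 * a) (2 * a + m) := pad_to a hv1 (by omega) (by omega)
  refine ⟨S.mul_mem _ _ _ _ _ (S.mul_mem _ _ _ _ _ h2 h3) h4, ?_, ?_⟩
  · -- p commutes with both rp-factors
    have hc1 : p * S.rp (2 * a) (star (S.R a) * star v)
        = S.rp (2 * a) (star (S.R a) * star v) * p := by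
      have h5 : S.rp a (star (S.R a) * star v) ∈ S.H (3 * a + m) a :=
        rp_to a h1 (by omega) (by omega)
      have h6 := inter hp.mem h5
      have h7 : S.rp (2 * a) (star (S.R a) * star v)
          = S.rp a (S.rp a (star (S.R a) * star v)) := by
        rw [← rp_add, ← two_mul]
      rw [h7]; exact h6
    have hc2 : p * S.rp a (S.R a) = S.rp a (S.R a) * p := inter hp.mem hRa
    unfold theta
    calc p * (S.rp (2 * a) (star (S.R a) * star v) * S.rp a (S.R a) * v)
        = (p * S.rp (2 * a) (star (S.R a) * star v)) * S.rp a (S.R a) * v := by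
          simp only [mul_assoc]
      _ = S.rp (2 * a) (star (S.R a) * star v) * (p * S.rp a (S.R a)) * v := by
          rw [hc1]; simp only [mul_assoc]
      _ = S.rp (2 * a) (star (S.R a) * star v) * S.rp a (S.R a) * (p * v) := by
          rw [hc2]; simp only [mul_assoc]
      _ = _ := by rw [hv2]
  · unfold theta
    rw [mul_assoc, hv3]

namespace SimpleSystem

variable (Q : S.SimpleSystem)

/-- The chosen complete family of `p i` at level `a i + 1`: sizes. -/
noncomputable def fk (i : Q.J) : Q.J → ℕ :=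
  (Q.exists_fam (Q.a i + 1) (Q.p i) ((Q.simple i).toIsProj.pad 1)).choose

/-- The chosen complete family of `p i` at level `a i + 1`. -/
noncomputable def fv (i : Q.J) : ∀ j, Fin (Q.fk i j) → T :=
  (Q.exists_fam (Q.a i + 1) (Q.p i) ((Q.simple i).toIsProj.pad 1)).choose_spec.choose

lemma fv_fam (i : Q.J) : Q.Fam (Q.a i + 1) (Q.p i) (fun j => Fin (Q.fk i j)) (Q.fv i) :=
  (Q.exists_fam (Q.a i + 1) (Q.p i) ((Q.simple i).toIsProj.pad 1)).choose_spec.choose_spec

/-- The space `Hom (p i, p W ⊗ p i)`. -/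
abbrev VV (W i : Q.J) : Submodule ℂ T :=
  S.Hom (Q.a i) (Q.p i) (Q.a W + Q.a i) (Q.p W * S.rp (Q.a W) (Q.p i))

lemma L_mem (W : Q.J) (f : ∀ i, Q.VV W i) (l : Q.J) :
    (∑ i, ∑ s : Fin (Q.fk i l),
      S.rp (Q.a W) (star (Q.fv i l s)) * (f i : T) * Q.fv i l s) ∈ Q.VV W l := by
  refine Submodule.sum_mem _ fun i _ => Submodule.sum_mem _ fun s _ => ?_
  exact sandwich_mem (Q.simple W).mem (Q.simple W).idem (Q.simple l).star_eq
    ((Q.fv_fam i).mem l s) ((Q.fv_fam i).mem l s) (f i).2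

/-- The operator `L_W` on `∏ i, Hom (p i, p W ⊗ p i)`. -/
noncomputable def L (W : Q.J) : (∀ i, Q.VV W i) →ₗ[ℂ] (∀ i, Q.VV W i) where
  toFun f := fun l => ⟨_, Q.L_mem W f l⟩
  map_add' f g := by
    funext l
    apply Subtype.ext
    simp [mul_add, add_mul, Finset.sum_add_distrib]
  map_smul' c f := by
    funext l
    apply Subtype.ext
    simp [Finset.smul_sum]

lemma L_apply (W : Q.J) (f : ∀ i, Q.VV W i) (l : Q.J) :
    ((Q.L W f l : Q.VV W l) : T) = ∑ i, ∑ s : Fin (Q.fk i l),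
      S.rp (Q.a W) (star (Q.fv i l s)) * (f i : T) * Q.fv i l s := rfl

end SimpleSystem

end SubfactorPlanarAlgebra

end Pool.Agent.ST5
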