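import Pool.Agent.ST5.P.EDefs

/-!
ST5 row E1. The Jones-Wenzl projections (δ > 2).

u k := rp k r ∈ H k (k+2), c k := S.jc k, P k := S.JW k. The recursion is
P (k+2) = P (k+1) - c (k+1) • (P (k+1) * u k * star (u k) * P (k+1)).

PROOF. `jc_bounds`: induction: 0 ≤ c < 1 gives δ - c > 1.
Prove by induction on k the statement A(k): for P = P (k+1) and P' = P k:
 (1) P ∈ H (k+1) (k+1) (in TL (k+1) (k+1)), star P = P, P * P = P;
 (2) P' * P = P, P * P' = P, P' ∈ H k k;
 (3) for i + 2 ≤ k + 1: star (u i) * P = 0;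
 (4) star (u k) * P * u k = (δ - c k) • P'.
k = 0: P 1 = P 0 = 1, (4): star r * r = δ, c 0 = 0.
Step k → k+1: P'' = P (k+2) = P - c • (P u u* P), u = u k, c = c (k+1), c (δ - c k) = 1.
 u * P' = P' * u (`inter`: P' ∈ H k k, u = rp k r), star too. So P u (star u P u) star u P = (δ - c k) P u P' star u P
  = (δ - c k) P P' u star u P = (δ - c k) P u star u P. Hence P''² = P - 2c X + c² (δ - c k) X = P - c X (X = P u u* P).
 star (P'') = P''. P P'' = P'' = P'' P.
 star (u i) P'' = 0 for i + 2 ≤ k + 1 by (3); for i = k: star u P - c (star u P u) star u P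
   = star u P - P' star u P = star u P - star u P' P = 0.
 (4) for k+1: u' = rp (k+1) r commutes with P ∈ H (k+1) (k+1) (`inter`); star u' * P'' * u' = P star u' u' - c P (star u' * u) (star u * u') P
  (moving P out: star u' * (P * u * star u * P) * u' = P * star u' * u * star u * u' * P), star u' * u' = δ,
  star u' * u = rp k (ρ (star r) * r) = 1 and star u * u' = rp k (star r * ρ r) = 1 (`S.zigzag` and its star), so
  = (δ - c) P.
TL membership: IsTL.left iterates give u k ∈ TL k (k+2), products of spans are in the span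
(a lemma `TL_mul`: x ∈ TL n k, y ∈ TL m n → x * y ∈ TL m k, by `Submodule.span_induction` twice).
`JW_ne`: z P (k+1) = 0 implies by (4) (z central) (δ - c k) z P k = 0, so z P k = 0, down to z = 0.
`JW_split`: w := √c • (P (k+1) * u k * P k) ∈ H k (k+2): star w * w = c P' star u P u P' = c (δ - c k) P' = P' and
 w * star w = c P u P' star u P = c P u star u P (P' u = u P', P P' = P).
-/

namespace Pool.Agent.ST5

namespace SubfactorPlanarAlgebra

variable {T : Type*} [Ring T] [StarRing T] [Algebra ℂ T] [StarModule ℂ T]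
  {S : SubfactorPlanarAlgebra T}

theorem TL_mul {m n k : ℕ} {x y : T} (hx : x ∈ S.TL n k) (hy : y ∈ S.TL m n) :
    x * y ∈ S.TL m k := by
  unfold TL at hx
  induction hx using Submodule.span_induction with
  | mem x hx =>
    unfold TL at hy
    induction hy using Submodule.span_induction with
    | mem y hy => exact Submodule.subset_span (IsTL.mul hx hy)
    | zero => rw [mul_zero]; exact Submodule.zero_mem _
    | add y y' _ _ h1 h2 => rw [mul_add]; exact Submodule.add_mem _ h1 h2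
    | smul c y _ h => rw [mul_smul_comm]; exact Submodule.smul_mem _ c h
  | zero => rw [zero_mul]; exact Submodule.zero_mem _
  | add x x' _ _ h1 h2 => rw [add_mul]; exact Submodule.add_mem _ h1 h2
  | smul c x _ h => rw [smul_mul_assoc]; exact Submodule.smul_mem _ c h

theorem TL_pad {m n : ℕ} {x : T} (hx : x ∈ S.TL m n) : x ∈ S.TL (m + 1) (n + 1) := by
  unfold TL at hx ⊢
  induction hx using Submodule.span_induction with
  | mem x hx => exact Submodule.subset_span (IsTL.right hx)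
  | zero => exact Submodule.zero_mem _
  | add x x' _ _ h1 h2 => exact Submodule.add_mem _ h1 h2
  | smul c x _ h => exact Submodule.smul_mem _ c h

theorem TL_rho {m n : ℕ} {x : T} (hx : x ∈ S.TL m n) : S.ρ x ∈ S.TL (m + 1) (n + 1) := by
  unfold TL at hx ⊢
  induction hx using Submodule.span_induction with
  | mem x hx => exact Submodule.subset_span (IsTL.left hx)
  | zero => rw [map_zero]; exact Submodule.zero_mem _
  | add x x' _ _ h1 h2 => rw [map_add]; exact Submodule.add_mem _ h1 h2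
  | smul c x _ h => rw [map_smul]; exact Submodule.smul_mem _ c h

theorem TL_rp (k : ℕ) {m n : ℕ} {x : T} (hx : x ∈ S.TL m n) : S.rp k x ∈ S.TL (m + k) (n + k) := by
  induction k with
  | zero => exact hx
  | succ k ih =>
    rw [rp_succ]
    exact TL_rho ih

theorem jc_bounds (hδ : 2 < S.δ) (k : ℕ) : 0 ≤ S.jc k ∧ S.jc k < 1 := by
  induction k with
  | zero => exact ⟨le_refl (0 : ℝ), zero_lt_one⟩
  | succ k ih =>
    have h1 : 1 < S.δ - S.jc k := by linarith [ih.2]
    rw [jc_succ]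
    exact ⟨by positivity, by rw [div_lt_one (by linarith)]; exact h1⟩

theorem jc_pos (hδ : 2 < S.δ) (k : ℕ) : 0 < S.jc (k + 1) := by
  have h1 : 0 < S.δ - S.jc k := by linarith [(jc_bounds hδ k).2]
  rw [jc_succ]
  positivity

theorem jc_mul (hδ : 2 < S.δ) (k : ℕ) : S.jc (k + 1) * (S.δ - S.jc k) = 1 := by
  have h1 : 0 < S.δ - S.jc k := by linarith [(jc_bounds hδ k).2]
  rw [jc_succ]
  exact div_mul_cancel₀ _ h1.ne'

theorem jc_mulC (hδ : 2 < S.δ) (k : ℕ) :
    (S.jc (k + 1) : ℂ) * ((S.δ - S.jc k : ℝ) : ℂ) = 1 := by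
  exact_mod_cast jc_mul hδ k

/-- The induction statement. -/
structure JWProp (S : SubfactorPlanarAlgebra T) (k : ℕ) : Prop where
  tl : S.JW (k + 1) ∈ S.TL (k + 1) (k + 1)
  tl' : S.JW k ∈ S.TL k k
  st : star (S.JW (k + 1)) = S.JW (k + 1)
  st' : star (S.JW k) = S.JW k
  id : S.JW (k + 1) * S.JW (k + 1) = S.JW (k + 1)
  id' : S.JW k * S.JW k = S.JW k
  mul : S.JW k * S.JW (k + 1) = S.JW (k + 1)
  cap : ∀ i, i + 2 ≤ k + 1 → star (S.rp i S.r) * S.JW (k + 1) = 0
  part : star (S.rp k S.r) * S.JW (k + 1) * S.rp k S.r =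
    ((S.δ - S.jc k : ℝ) : ℂ) • S.JW k

theorem one_TL (k : ℕ) : (1 : T) ∈ S.TL k k := by
  induction k with
  | zero => exact Submodule.subset_span IsTL.one
  | succ k ih => exact TL_pad ih

theorem u_TL (k : ℕ) : S.rp k S.r ∈ S.TL k (k + 2) := by
  have h : S.r ∈ S.TL 0 2 := Submodule.subset_span IsTL.cup
  have h1 := TL_rp k h
  rwa [zero_add, add_comm 2 k] at h1

theorem us_TL (k : ℕ) : star (S.rp k S.r) ∈ S.TL (k + 2) k := by
  have h : star S.r ∈ S.TL 2 0 := Submodule.subset_span IsTL.cap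
  have h1 := TL_rp k h
  rw [map_star] at h1
  rwa [zero_add, add_comm 2 k] at h1

theorem u_comm {k : ℕ} {x : T} (hx : x ∈ S.H k k) : x * S.rp k S.r = S.rp k S.r * x :=
  inter hx S.r_mem

theorem us_comm {k : ℕ} {x : T} (hx : x ∈ S.H k k) :
    x * star (S.rp k S.r) = star (S.rp k S.r) * x := by
  have h := inter hx (star_mem' S.r_mem)
  rwa [map_star] at h

theorem zigzag' : S.ρ (star S.r) * S.r = 1 := by
  have h := congrArg star S.zigzag
  rwa [star_mul, star_star, star_one, ← map_star] at h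

theorem us_u_succ (k : ℕ) : star (S.rp k S.r) * S.rp (k + 1) S.r = 1 := by
  rw [← map_star, rp_succ', ← map_mul, S.zigzag, map_one]

theorem us_succ_u (k : ℕ) : star (S.rp (k + 1) S.r) * S.rp k S.r = 1 := by
  rw [← map_star, rp_succ', ← map_mul, zigzag', map_one]

theorem us_u (k : ℕ) : star (S.rp k S.r) * S.rp k S.r = (S.δ : ℂ) • 1 := by
  rw [← map_star, ← map_mul, S.loop, map_smul, map_one]

theorem JWProp.xx {k : ℕ} (h : JWProp S k) :
    S.JW (k + 1) * S.rp k S.r * S.JW k * star (S.rp k S.r) * S.JW (k + 1) =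
      S.JW (k + 1) * S.rp k S.r * star (S.rp k S.r) * S.JW (k + 1) := by
  have h1 : S.JW (k + 1) * S.JW k = S.JW (k + 1) := by
    have := congrArg star h.mul
    rwa [star_mul, h.st, h.st'] at this
  have hu := u_comm (TL_le k k h.tl')
  calc S.JW (k + 1) * S.rp k S.r * S.JW k * star (S.rp k S.r) * S.JW (k + 1)
      = S.JW (k + 1) * (S.rp k S.r * S.JW k) * star (S.rp k S.r) * S.JW (k + 1) := by
        simp only [mul_assoc]
    _ = (S.JW (k + 1) * S.JW k) * S.rp k S.r * star (S.rp k S.r) * S.JW (k + 1) := by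
        rw [← hu]; simp only [mul_assoc]
    _ = _ := by rw [h1]

theorem JWProp.step (hδ : 2 < S.δ) {k : ℕ} (h : JWProp S k) : JWProp S (k + 1) := by
  obtain ⟨P, hP⟩ : ∃ P, P = S.JW (k + 1) := ⟨_, rfl⟩
  obtain ⟨P', hP'⟩ : ∃ P', P' = S.JW k := ⟨_, rfl⟩
  obtain ⟨u, hu⟩ : ∃ u, u = S.rp k S.r := ⟨_, rfl⟩
  obtain ⟨v, hv⟩ : ∃ v, v = star (S.rp k S.r) := ⟨_, rfl⟩
  obtain ⟨c, hc⟩ : ∃ c : ℝ, c = S.jc (k + 1) := ⟨_, rfl⟩
  obtain ⟨d, hd⟩ : ∃ d : ℝ, d = S.δ - S.jc k := ⟨_, rfl⟩
  have hcd : (c : ℂ) * (d : ℂ) = 1 := by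
    rw [hc, hd]
    exact jc_mulC hδ k
  obtain ⟨X, hX⟩ : ∃ X, X = P * u * v * P := ⟨_, rfl⟩
  have hsucc : S.JW (k + 2) = P - (c : ℂ) • X := by
    rw [JW_succ, hX, hP, hu, hv, hc]
  have hst : star P = P := by rw [hP]; exact h.st
  have hst' : star P' = P' := by rw [hP']; exact h.st'
  have hid : P * P = P := by rw [hP]; exact h.id
  have hmul : P' * P = P := by rw [hP, hP']; exact h.mul
  have hmul' : P * P' = P := by
    have := congrArg star hmul
    rwa [star_mul, hst, hst'] at this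
  have hpart : v * P * u = (d : ℂ) • P' := by
    rw [hP, hP', hu, hv, hd]
    exact h.part
  have hPuv : P * u * P' * v * P = X := by
    rw [hX, hP, hP', hu, hv]
    exact h.xx
  have hXX : X * X = (d : ℂ) • X := by
    calc X * X = P * u * (v * (P * P) * u) * v * P := by
          rw [hX]; simp only [mul_assoc]
      _ = P * u * ((d : ℂ) • P') * v * P := by rw [hid, hpart]
      _ = (d : ℂ) • (P * u * P' * v * P) := by
          simp only [mul_smul_comm, smul_mul_assoc]
      _ = _ := by rw [hPuv]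
  have hPX : P * X = X := by
    rw [hX]
    calc P * (P * u * v * P) = (P * P) * u * v * P := by simp only [mul_assoc]
      _ = _ := by rw [hid]
  have hXP : X * P = X := by
    rw [hX]
    calc P * u * v * P * P = P * u * v * (P * P) := by simp only [mul_assoc]
      _ = _ := by rw [hid]
  have hPQ : P * S.JW (k + 2) = S.JW (k + 2) := by
    rw [hsucc, mul_sub, hid, mul_smul_comm, hPX]
  have hXQ : X * S.JW (k + 2) = 0 := by
    rw [hsucc, mul_sub, hXP, mul_smul_comm, hXX, smul_smul, hcd, one_smul, sub_self]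
  have hvP' : P' * v = v * P' := by
    rw [hP', hv]
    exact us_comm (TL_le k k h.tl')
  have hvQ : v * S.JW (k + 2) = 0 := by
    calc v * S.JW (k + 2) = v * P - (c : ℂ) • (v * P * u * v * P) := by
          rw [hsucc, mul_sub, mul_smul_comm, hX]; simp only [mul_assoc]
      _ = v * P - (c : ℂ) • ((d : ℂ) • (P' * v * P)) := by
          rw [hpart]; simp only [smul_mul_assoc]
      _ = v * P - P' * v * P := by rw [smul_smul, hcd, one_smul]
      _ = 0 := by rw [hvP', mul_assoc, hmul, sub_self]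
  have hTLP : P ∈ S.TL (k + 1) (k + 1) := by rw [hP]; exact h.tl
  refine ⟨?_, h.tl, ?_, h.st, ?_, h.id, ?_, ?_, ?_⟩
  · rw [show k + 1 + 1 = k + 2 from rfl, hsucc]
    refine Submodule.sub_mem _ (TL_pad hTLP) (Submodule.smul_mem _ _ ?_)
    rw [hX]
    have h1 : u ∈ S.TL k (k + 2) := by rw [hu]; exact u_TL k
    have h2 : v ∈ S.TL (k + 2) k := by rw [hv]; exact us_TL k
    exact TL_mul (TL_mul (TL_mul (TL_pad hTLP) h1) h2) (TL_pad hTLP)
  · rw [show k + 1 + 1 = k + 2 from rfl, hsucc, star_sub, star_smul, hst]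
    have h1 : star X = X := by
      rw [hX, star_mul, star_mul, star_mul, hst, hu, hv, star_star]
      simp only [mul_assoc]
    have h2 : star (c : ℂ) = (c : ℂ) := Complex.conj_ofReal c
    rw [h1, h2]
  · calc S.JW (k + 1 + 1) * S.JW (k + 1 + 1) = (P - (c : ℂ) • X) * S.JW (k + 2) := by
          rw [← hsucc]
      _ = S.JW (k + 2) := by
          rw [sub_mul, hPQ, smul_mul_assoc, hXQ, smul_zero, sub_zero]
  · rw [← hP]
    exact hPQ
  · intro i hi
    rcases Nat.lt_or_ge i k with hik | hik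
    · have h3 := h.cap i (by omega)
      rw [← hP] at h3
      rw [show k + 1 + 1 = k + 2 from rfl, ← hPQ, ← mul_assoc, h3, zero_mul]
    · have : i = k := by omega
      rw [this, ← hv]
      exact hvQ
  · have hPH : P ∈ S.H (k + 1) (k + 1) := TL_le _ _ hTLP
    have h1 : P * S.rp (k + 1) S.r = S.rp (k + 1) S.r * P := u_comm hPH
    have h2 : P * star (S.rp (k + 1) S.r) = star (S.rp (k + 1) S.r) * P := us_comm hPH
    have h3 : star (S.rp (k + 1) S.r) * P * S.rp (k + 1) S.r = (S.δ : ℂ) • P := by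
      rw [← h2, mul_assoc, us_u, mul_smul_comm, mul_one]
    have h4 : star (S.rp (k + 1) S.r) * X * S.rp (k + 1) S.r = P := by
      calc star (S.rp (k + 1) S.r) * X * S.rp (k + 1) S.r
          = (star (S.rp (k + 1) S.r) * P) * u * v * (P * S.rp (k + 1) S.r) := by
            rw [hX]; simp only [mul_assoc]
        _ = P * (star (S.rp (k + 1) S.r) * u) * (v * S.rp (k + 1) S.r) * P := by
            rw [← h2, h1]; simp only [mul_assoc]
        _ = P := by rw [hu, hv, us_succ_u, us_u_succ, mul_one, mul_one, hid]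
    rw [show k + 1 + 1 = k + 2 from rfl, hsucc, mul_sub, sub_mul, h3, mul_smul_comm,
      smul_mul_assoc, h4, ← sub_smul, ← hP, ← hc]
    push_cast
    rfl

theorem JWProp.all (hδ : 2 < S.δ) (k : ℕ) : JWProp S k := by
  induction k with
  | zero =>
    refine ⟨?_, ?_, ?_, ?_, ?_, ?_, ?_, ?_, ?_⟩
    · rw [zero_add, JW_one]; exact one_TL 1
    · rw [JW_zero]; exact one_TL 0
    · rw [zero_add, JW_one, star_one]
    · rw [JW_zero, star_one]
    · rw [zero_add, JW_one, one_mul]
    · rw [JW_zero, one_mul]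
    · rw [zero_add, JW_one, JW_zero, one_mul]
    · intro i hi
      omega
    · rw [zero_add, JW_one, JW_zero, mul_one, us_u]
      have : S.jc 0 = 0 := rfl
      rw [this, sub_zero]
  | succ k ih => exact ih.step hδ

theorem JW_TL (hδ : 2 < S.δ) (k : ℕ) : S.JW k ∈ S.TL k k := (JWProp.all hδ k).tl'

theorem JW_star (hδ : 2 < S.δ) (k : ℕ) : star (S.JW k) = S.JW k := (JWProp.all hδ k).st'

theorem JW_idem (hδ : 2 < S.δ) (k : ℕ) : S.JW k * S.JW k = S.JW k := (JWProp.all hδ k).id'

theorem JW_mul_succ (hδ : 2 < S.δ) (k : ℕ) : S.JW k * S.JW (k + 1) = S.JW (k + 1) :=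
  (JWProp.all hδ k).mul

theorem JW_cap (hδ : 2 < S.δ) {k i : ℕ} (hi : i + 2 ≤ k) :
    star (S.rp i S.r) * S.JW k = 0 := by
  obtain ⟨m, rfl⟩ : ∃ m, k = m + 1 := ⟨k - 1, by omega⟩
  exact (JWProp.all hδ m).cap i hi

theorem JW_partial (hδ : 2 < S.δ) (k : ℕ) :
    star (S.rp k S.r) * S.JW (k + 1) * S.rp k S.r = ((S.δ - S.jc k : ℝ) : ℂ) • S.JW k :=
  (JWProp.all hδ k).part

theorem JW_ne (hδ : 2 < S.δ) (k : ℕ) : S.z * S.JW k ≠ 0 := by
  induction k with
  | zero =>
    rw [JW_zero, mul_one]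
    exact S.z_ne_zero
  | succ k ih =>
    intro h0
    apply ih
    have h1 := congrArg (fun y => S.z * y) (JW_partial hδ k)
    have h2 : S.z * star (S.rp k S.r) = star (S.rp k S.r) * S.z :=
      z_comm (TL_le _ _ (us_TL k))
    have h3 : S.z * (star (S.rp k S.r) * S.JW (k + 1) * S.rp k S.r) = 0 := by
      rw [← mul_assoc, ← mul_assoc, h2, mul_assoc (star (S.rp k S.r)), h0, mul_zero, zero_mul]
    have h4 : ((S.δ - S.jc k : ℝ) : ℂ) • (S.z * S.JW k) = 0 := by
      rw [← mul_smul_comm]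
      exact h1.symm.trans h3
    have h5 : ((S.δ - S.jc k : ℝ) : ℂ) ≠ 0 := by
      have : 0 < S.δ - S.jc k := by linarith [(jc_bounds hδ k).2]
      exact_mod_cast this.ne'
    exact (smul_eq_zero.mp h4).resolve_left h5

/-- `P (k+1)` at level `k+2` is the sum of `P (k+2)` and of a copy of `P k`. -/
theorem JW_split (hδ : 2 < S.δ) (k : ℕ) : ∃ w ∈ S.H k (k + 2),
    star w * w = S.JW k ∧ S.JW (k + 1) = S.JW (k + 2) + w * star w ∧ w * S.JW k = w ∧
      S.JW (k + 2) * w = 0 := by
  have h := JWProp.all hδ k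
  have h' := JWProp.all hδ (k + 1)
  obtain ⟨s, hs⟩ : ∃ s : ℝ, s = Real.sqrt (S.jc (k + 1)) := ⟨_, rfl⟩
  have hss : (s : ℂ) * (s : ℂ) = (S.jc (k + 1) : ℂ) := by
    have : s * s = S.jc (k + 1) := by
      rw [hs]
      exact Real.mul_self_sqrt (jc_bounds hδ (k + 1)).1
    exact_mod_cast this
  have hstar : star (s : ℂ) = (s : ℂ) := Complex.conj_ofReal s
  have hPst := h.st
  have hP'st := h.st'
  have hsw : star ((s : ℂ) • (S.JW (k + 1) * S.rp k S.r * S.JW k)) =
      (s : ℂ) • (S.JW k * star (S.rp k S.r) * S.JW (k + 1)) := by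
    rw [star_smul, hstar, star_mul, star_mul, hPst, hP'st, mul_assoc]
  refine ⟨(s : ℂ) • (S.JW (k + 1) * S.rp k S.r * S.JW k), ?_, ?_, ?_, ?_, ?_⟩
  · refine Submodule.smul_mem _ _ (TL_le _ _ ?_)
    exact TL_mul (TL_mul (TL_pad h.tl) (u_TL k)) h.tl'
  · rw [hsw, smul_mul_smul_comm, hss]
    have h1 : S.JW k * star (S.rp k S.r) * S.JW (k + 1) *
        (S.JW (k + 1) * S.rp k S.r * S.JW k) =
        S.JW k * (star (S.rp k S.r) * (S.JW (k + 1) * S.JW (k + 1)) * S.rp k S.r) * S.JW k := by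
      simp only [mul_assoc]
    rw [h1, h.id, h.part, mul_smul_comm, smul_mul_assoc, h.id', h.id', smul_smul, jc_mulC hδ k,
      one_smul]
  · rw [hsw, smul_mul_smul_comm, hss]
    have h1 : S.JW (k + 1) * S.rp k S.r * S.JW k *
        (S.JW k * star (S.rp k S.r) * S.JW (k + 1)) =
        S.JW (k + 1) * S.rp k S.r * (S.JW k * S.JW k) * star (S.rp k S.r) * S.JW (k + 1) := by
      simp only [mul_assoc]
    rw [h1, h.id', h.xx, JW_succ, sub_add_cancel]
  · rw [smul_mul_assoc, mul_assoc, h.id']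
  · have h1 : S.JW (k + 2) * S.rp k S.r = 0 := by
      have h2 := congrArg star (h'.cap k (by omega))
      rw [star_mul, star_star, h'.st, star_zero] at h2
      exact h2
    have h3 : S.JW (k + 2) * S.JW (k + 1) = S.JW (k + 2) := by
      have h2 := congrArg star h'.mul
      rw [star_mul, h'.st, h'.st'] at h2
      exact h2
    rw [mul_smul_comm, ← mul_assoc, ← mul_assoc, h3, h1, zero_mul, smul_zero]

end SubfactorPlanarAlgebra

end Pool.Agent.ST5
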