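import Pool.Agent.ST5.P.EDefs

/-!
ST5 row E2. Normal form of the Temperley-Lieb words: cups after caps.

DEFINITION. `Cups k n y`: y is a product of cups leading from k to n strings:
 Cups k k 1; Cups k n y and i ≤ n give Cups k (n+2) (rp i r * y).
 `NF m n x`: there are k, cups y (Cups k n y), y' (Cups k m y'), c ∈ ℂ and s ∈ span {1, z} with x = s * y * star y' (the scalar
 c can be put in s).
PROOF. All generators of IsTL are NF; NF is closed under padding (Cups k n y → Cups (k+1) (n+1) y),
under ρ (Cups k n y → Cups (k+1) (n+1) (ρ y); ρ s ∈ span {1, z}), and under products: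
(*) for Cups l n x and i + 2 ≤ n: star (rp i r) * x is a scalar times x'' with Cups l (n-2) x'', or x'' * star (rp j r)
 with Cups (l-2) (n-2) x'' and j + 2 ≤ l. Induction on x: x = 1: the second form. x = rp j r * x₀:
 i = j: star r * r = δ; i = j+1: rp j (ρ (star r) * r) = 1; j = i+1: rp i (star r * ρ r) = 1 (`S.zigzag`, its star);
 i ≥ j+2: star (rp i r) * rp j r = rp j r * star (rp (i-2) r) (`slide` applied inside rp j); j ≥ i+2:
 star (rp i r) * rp j r = rp (j-2) r * star (rp i r) (`slide'` inside rp i); then the induction hypothesis for x₀.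
 Hence star y' * x is NF for all cups y', x (induction on y', using that a word star (rp j r) * star y'… can be
 absorbed: formulate: for Cups l n x and Cups k n y': star y' * x = s * x₁ * star x₂).
 z commutes with all boxes (`z_comm`), s's multiply in span {1, z} (z z = z).
(`star (rp i r) = rp i (star r)` by map_star.)
-/

namespace Pool.Agent.ST5

namespace SubfactorPlanarAlgebra

variable {T : Type*} [Ring T] [StarRing T] [Algebra ℂ T] [StarModule ℂ T]

/-- Products of cups leading from `k` strings to `n` strings. -/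
inductive Cups (S : SubfactorPlanarAlgebra T) : ℕ → ℕ → T → Prop
  | nil (k : ℕ) : Cups S k k 1
  | cons {k n : ℕ} {y : T} (i : ℕ) : i ≤ n → Cups S k n y → Cups S k (n + 2) (S.rp i S.r * y)

variable {S : SubfactorPlanarAlgebra T}

private lemma Cups.mem {k n : ℕ} {y : T} (h : S.Cups k n y) : y ∈ S.H k n := by
  induction h with
  | nil => exact S.one_mem _
  | @cons n y i hi _ ih =>
    exact S.mul_mem _ _ _ _ _ (pad_to (n - i) (rp_mem i S.r_mem) (by omega) (by omega)) ih

private lemma Cups.trans {k n l : ℕ} {y x : T} (h : S.Cups k n y) (h' : S.Cups l k x) :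
    S.Cups l n (y * x) := by
  induction h with
  | nil => simpa using h'
  | cons i hi _ ih =>
    rw [mul_assoc]
    exact Cups.cons i hi ih

private lemma Cups.padr {k n : ℕ} {y : T} (h : S.Cups k n y) : S.Cups (k + 1) (n + 1) y := by
  induction h with
  | nil => exact Cups.nil _
  | cons i hi _ ih => exact Cups.cons (n := _ + 1) i (by omega) ih

private lemma Cups.rho {k n : ℕ} {y : T} (h : S.Cups k n y) :
    S.Cups (k + 1) (n + 1) (S.ρ y) := by
  induction h with
  | nil => rw [map_one]; exact Cups.nil _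
  | cons i hi _ ih =>
    rw [map_mul, ← rp_succ]
    exact Cups.cons (n := _ + 1) (i + 1) (by omega) ih

private lemma cap_cups {l N : ℕ} {x : T} (h : S.Cups l N x) :
    ∀ (n i : ℕ), N = n + 2 → i ≤ n →
      (∃ (c : ℂ) (x' : T), S.Cups l n x' ∧ star (S.rp i S.r) * x = c • x') ∨
      (∃ (l' j : ℕ) (x' : T), l = l' + 2 ∧ j ≤ l' ∧ S.Cups l' n x' ∧
        star (S.rp i S.r) * x = x' * star (S.rp j S.r)) := by
  induction h with
  | nil =>
    intro n i hN hi
    exact Or.inr ⟨n, i, 1, hN, hi, Cups.nil n, by simp⟩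
  | @cons N' y j hj hy ih =>
    intro n i hN hi
    obtain rfl : N' = n := by omega
    rcases lt_trichotomy i j with hij | hij | hij
    · rcases Nat.lt_or_ge (i + 1) j with h2 | h2
      · -- j = i + 2 + t
        obtain ⟨t, rfl⟩ : ∃ t, j = i + 2 + t := ⟨j - (i + 2), by omega⟩
        obtain ⟨n', rfl⟩ : ∃ n', N' = n' + 2 := ⟨N' - 2, by omega⟩
        have e : star (S.rp i S.r) * S.rp (i + 2 + t) S.r
            = S.rp (i + t) S.r * star (S.rp i S.r) := by
          have e1 : star S.r * S.rp 2 (S.rp t S.r) = S.rp t S.r * star S.r :=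
            slide' S (star_mem' S.r_mem) (rp_mem t S.r_mem)
          rw [← map_star, rp_add S (i + 2) t, rp_add S i 2, ← map_mul, e1, map_mul, ← rp_add]
        rcases ih n' i rfl (by omega) with ⟨c, x', hx', h'⟩ | ⟨l', j', x', hl, hj', hx', h'⟩
        · refine Or.inl ⟨c, S.rp (i + t) S.r * x', Cups.cons _ (by omega) hx', ?_⟩
          rw [← mul_assoc, e, mul_assoc, h', mul_smul_comm]
        · refine Or.inr ⟨l', j', S.rp (i + t) S.r * x', hl, hj', Cups.cons _ (by omega) hx', ?_⟩
          rw [← mul_assoc, e, mul_assoc, h', mul_assoc]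
      · obtain rfl : j = i + 1 := by omega
        refine Or.inl ⟨1, y, hy, ?_⟩
        rw [← mul_assoc, ← map_star, rp_succ', ← map_mul, S.zigzag, map_one, one_mul, one_smul]
    · subst hij
      refine Or.inl ⟨(S.δ : ℂ), y, hy, ?_⟩
      rw [← mul_assoc, ← map_star, ← map_mul, S.loop, map_smul, map_one, smul_mul_assoc, one_mul]
    · rcases Nat.lt_or_ge (j + 1) i with h2 | h2
      · obtain ⟨t, rfl⟩ : ∃ t, i = j + 2 + t := ⟨i - (j + 2), by omega⟩
        obtain ⟨n', rfl⟩ : ∃ n', N' = n' + 2 := ⟨N' - 2, by omega⟩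
        have e : star (S.rp (j + 2 + t) S.r) * S.rp j S.r
            = S.rp j S.r * star (S.rp (j + t) S.r) := by
          have e1 : S.rp 2 (S.rp t (star S.r)) * S.r = S.r * S.rp t (star S.r) :=
            slide S S.r_mem (rp_mem t (star_mem' S.r_mem))
          rw [← map_star, rp_add S (j + 2) t, rp_add S j 2, ← map_mul, e1, map_mul, ← rp_add,
            map_star]
        rcases ih n' (j + t) rfl (by omega) with ⟨c, x', hx', h'⟩ | ⟨l', j', x', hl, hj', hx', h'⟩
        · refine Or.inl ⟨c, S.rp j S.r * x', Cups.cons _ (by omega) hx', ?_⟩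
          rw [← mul_assoc, e, mul_assoc, h', mul_smul_comm]
        · refine Or.inr ⟨l', j', S.rp j S.r * x', hl, hj', Cups.cons _ (by omega) hx', ?_⟩
          rw [← mul_assoc, e, mul_assoc, h', mul_assoc]
      · obtain rfl : i = j + 1 := by omega
        refine Or.inl ⟨1, y, hy, ?_⟩
        have e1 : S.ρ (star S.r) * S.r = 1 := by
          have := congrArg star S.zigzag
          rwa [star_mul, star_star, star_one, ← map_star] at this
        rw [← mul_assoc, ← map_star, rp_succ', ← map_mul, e1, map_one, one_mul, one_smul]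

private lemma caps_cups {k n : ℕ} {y : T} (h : S.Cups k n y) :
    ∀ (l : ℕ) (x : T), S.Cups l n x →
      ∃ (m : ℕ) (x₁ x₂ : T) (c : ℂ), S.Cups m k x₁ ∧ S.Cups m l x₂ ∧
        star y * x = c • (x₁ * star x₂) := by
  induction h with
  | nil =>
    intro l x hx
    exact ⟨l, x, 1, 1, hx, Cups.nil l, by simp⟩
  | @cons n y i hi _ ih =>
    intro l x hx
    rcases cap_cups hx n i rfl hi with ⟨c, x', hx', h'⟩ | ⟨l', j', x', hl, hj', hx', h'⟩
    · obtain ⟨m, x₁, x₂, c', h1, h2, h3⟩ := ih l x' hx'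
      refine ⟨m, x₁, x₂, c * c', h1, h2, ?_⟩
      rw [star_mul, mul_assoc, h', mul_smul_comm, h3, smul_smul]
    · obtain ⟨m, x₁, x₂, c', h1, h2, h3⟩ := ih l' x' hx'
      subst hl
      refine ⟨m, x₁, S.rp j' S.r * x₂, c', h1, Cups.cons _ hj' h2, ?_⟩
      rw [star_mul, mul_assoc, h', ← mul_assoc, h3, smul_mul_assoc, star_mul, mul_assoc]

private lemma span_comm {s : T} (hs : s ∈ Submodule.span ℂ {(1 : T), S.z}) {m n : ℕ} {x : T}
    (hx : x ∈ S.H m n) : s * x = x * s := by
  obtain ⟨a, b, rfl⟩ := Submodule.mem_span_pair.mp hs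
  rw [add_mul, mul_add, smul_mul_assoc, smul_mul_assoc, mul_smul_comm, mul_smul_comm, one_mul,
    mul_one, z_comm hx]

private lemma span_mul {s s' : T} (hs : s ∈ Submodule.span ℂ {(1 : T), S.z})
    (hs' : s' ∈ Submodule.span ℂ {(1 : T), S.z}) :
    s * s' ∈ Submodule.span ℂ {(1 : T), S.z} := by
  obtain ⟨a, b, rfl⟩ := Submodule.mem_span_pair.mp hs
  obtain ⟨a', b', rfl⟩ := Submodule.mem_span_pair.mp hs'
  refine Submodule.mem_span_pair.mpr ⟨a * a', a * b' + b * a' + b * b', ?_⟩
  simp only [add_mul, mul_add, smul_mul_assoc, mul_smul_comm, one_mul, mul_one, S.z_mul,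
    smul_smul, add_smul, smul_add]
  have e1 : b' * a = a * b' := mul_comm _ _
  have e2 : a' * a = a * a' := mul_comm _ _
  have e3 : a' * b = b * a' := mul_comm _ _
  have e4 : b' * b = b * b' := mul_comm _ _
  simp only [e1, e2, e3, e4]
  abel

private lemma span_rho {s : T} (hs : s ∈ Submodule.span ℂ {(1 : T), S.z}) :
    S.ρ s ∈ Submodule.span ℂ {(1 : T), S.z} := by
  obtain ⟨a, b, rfl⟩ := Submodule.mem_span_pair.mp hs
  refine Submodule.mem_span_pair.mpr ⟨a + b, -b, ?_⟩
  rw [map_add, map_smul, map_smul, map_one, S.rho_z, smul_sub, add_smul, neg_smul]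
  abel

theorem normal_form {m n : ℕ} {x : T} (hx : S.IsTL m n x) :
    ∃ (k : ℕ) (y y' s : T), S.Cups k n y ∧ S.Cups k m y' ∧
      s ∈ Submodule.span ℂ {(1 : T), S.z} ∧ x = s * y * star y' := by
  have h1 : (1 : T) ∈ Submodule.span ℂ {(1 : T), S.z} := Submodule.subset_span (by simp)
  have hz : S.z ∈ Submodule.span ℂ {(1 : T), S.z} := Submodule.subset_span (by simp)
  have hr : S.Cups 0 2 S.r := by
    have := Cups.cons (S := S) (k := 0) (n := 0) (y := 1) 0 le_rfl (Cups.nil 0)
    simpa using this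
  induction hx with
  | one => exact ⟨0, 1, 1, 1, Cups.nil 0, Cups.nil 0, h1, by simp⟩
  | shade => exact ⟨0, 1, 1, S.z, Cups.nil 0, Cups.nil 0, hz, by simp⟩
  | cup => exact ⟨0, S.r, 1, 1, hr, Cups.nil 0, h1, by simp⟩
  | cap => exact ⟨0, 1, S.r, 1, Cups.nil 0, hr, h1, by simp⟩
  | right _ ih =>
    obtain ⟨k, y, y', s, hy, hy', hs, rfl⟩ := ih
    exact ⟨k + 1, y, y', s, hy.padr, hy'.padr, hs, rfl⟩
  | left _ ih =>
    obtain ⟨k, y, y', s, hy, hy', hs, rfl⟩ := ih
    refine ⟨k + 1, S.ρ y, S.ρ y', S.ρ s, hy.rho, hy'.rho, span_rho hs, ?_⟩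
    rw [map_mul, map_mul, map_star]
  | mul _ _ ih1 ih2 =>
    obtain ⟨a, y, y', s, hy, hy', hs, rfl⟩ := ih1
    obtain ⟨b, w, w', s', hw, hw', hs', rfl⟩ := ih2
    obtain ⟨m', x₁, x₂, c, h3, h4, h5⟩ := caps_cups hy' _ _ hw
    refine ⟨m', y * x₁, w' * x₂, c • (s * s'), hy.trans h3, hw'.trans h4,
      Submodule.smul_mem _ _ (span_mul hs hs'), ?_⟩
    have e1 : s' * (y * star y') = y * star y' * s' :=
      span_comm hs' (S.mul_mem _ _ _ _ _ hy.mem (star_mem' hy'.mem))
    calc s * y * star y' * (s' * w * star w')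
        = s * ((y * star y') * s') * w * star w' := by simp only [mul_assoc]
      _ = s * (s' * (y * star y')) * w * star w' := by rw [e1]
      _ = s * s' * y * (star y' * w) * star w' := by simp only [mul_assoc]
      _ = s * s' * y * (c • (x₁ * star x₂)) * star w' := by rw [h5]
      _ = c • (s * s') * (y * x₁) * star (w' * x₂) := by
        rw [star_mul]
        simp only [mul_assoc, smul_mul_assoc, mul_smul_comm]

end SubfactorPlanarAlgebra

end Pool.Agent.ST5
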