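import Pool.Agent.ST5.P.E1
import Pool.Agent.ST5.P.E2

/-!
ST5 row E3. Corners of the Temperley-Lieb spaces at the Jones-Wenzl projections.

PROOF. By linearity (`Submodule.span_induction`) x is a word, x = s * y * star y' (`normal_form`). If y ≠ 1, i.e.
y = rp i r * y₀ with i + 2 ≤ n: JW n * s * rp i r * … = s * JW n * rp i r * … = 0 (the star of `JW_cap`; s ∈ span {1,z}
commutes with JW n). If y' ≠ 1 similarly star y' * JW m = star (JW m * y') = 0. Otherwise k = n = m and
x = s = α 1 + β z: JW n * x * JW n = α JW n + β z JW n.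
-/

namespace Pool.Agent.ST5

namespace SubfactorPlanarAlgebra

variable {T : Type*} [Ring T] [StarRing T] [Algebra ℂ T] [StarModule ℂ T]
  {S : SubfactorPlanarAlgebra T}

theorem cups_cases (hδ : 2 < S.δ) {k n : ℕ} {y : T} (hy : S.Cups k n y) :
    (k = n ∧ y = 1) ∨ S.JW n * y = 0 := by
  cases hy with
  | nil => exact Or.inl ⟨rfl, rfl⟩
  | @cons n₀ y₀ i hi hy₀ =>
    right
    have h1 : S.JW (n₀ + 2) * S.rp i S.r = 0 := by
      have h2 := congrArg star (JW_cap hδ (k := n₀ + 2) (i := i) (by omega))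
      rw [star_mul, star_star, JW_star hδ, star_zero] at h2
      exact h2
    rw [← mul_assoc, h1, zero_mul]

theorem span_comm {s : T} (hs : s ∈ Submodule.span ℂ {(1 : T), S.z}) {m n : ℕ} {x : T}
    (hx : x ∈ S.H m n) : x * s = s * x := by
  obtain ⟨a, b, rfl⟩ := Submodule.mem_span_pair.mp hs
  rw [mul_add, add_mul, mul_smul_comm, mul_smul_comm, smul_mul_assoc, smul_mul_assoc, mul_one,
    one_mul, z_comm hx]

theorem word_corner (hδ : 2 < S.δ) {m n : ℕ} {x : T} (hx : S.IsTL m n x) :
    S.JW n * x * S.JW m = 0 ∨ (m = n ∧ x ∈ Submodule.span ℂ {(1 : T), S.z}) := by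
  obtain ⟨k, y, y', s, hy, hy', hs, rfl⟩ := normal_form hx
  have hcomm : S.JW n * s = s * S.JW n := span_comm hs (TL_le n n (JW_TL hδ n))
  rcases cups_cases hδ hy with ⟨h1, h2⟩ | h1
  · rcases cups_cases hδ hy' with ⟨h3, h4⟩ | h3
    · right
      refine ⟨h3.symm.trans h1, ?_⟩
      rw [h2, h4, star_one, mul_one, mul_one]
      exact hs
    · left
      have h5 : star y' * S.JW m = 0 := by
        have h6 := congrArg star h3
        rwa [star_mul, JW_star hδ, star_zero] at h6
      calc S.JW n * (s * y * star y') * S.JW m = S.JW n * (s * y) * (star y' * S.JW m) := by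
            simp only [mul_assoc]
        _ = 0 := by rw [h5, mul_zero]
  · left
    calc S.JW n * (s * y * star y') * S.JW m = (S.JW n * s) * y * star y' * S.JW m := by
          simp only [mul_assoc]
      _ = s * (S.JW n * y) * star y' * S.JW m := by
          rw [hcomm]; simp only [mul_assoc]
      _ = 0 := by rw [h1, mul_zero, zero_mul, zero_mul]

theorem JW_corner_ne (hδ : 2 < S.δ) {m n : ℕ} (hmn : m ≠ n) {x : T} (hx : x ∈ S.TL m n) :
    S.JW n * x * S.JW m = 0 := by
  unfold TL at hx
  induction hx using Submodule.span_induction with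
  | mem x hx =>
    rcases word_corner hδ hx with h | h
    · exact h
    · exact absurd h.1 hmn
  | zero => rw [mul_zero, zero_mul]
  | add x y _ _ h1 h2 => rw [mul_add, add_mul, h1, h2, add_zero]
  | smul c x _ h => rw [mul_smul_comm, smul_mul_assoc, h, smul_zero]

theorem JW_corner_eq (hδ : 2 < S.δ) {n : ℕ} {x : T} (hx : x ∈ S.TL n n) :
    ∃ α β : ℂ, S.JW n * x * S.JW n = α • S.JW n + β • (S.z * S.JW n) := by
  unfold TL at hx
  induction hx using Submodule.span_induction with
  | mem x hx =>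
    rcases word_corner hδ hx with h | h
    · exact ⟨0, 0, by rw [h, zero_smul, zero_smul, add_zero]⟩
    · have hcomm := span_comm h.2 (TL_le n n (JW_TL hδ n))
      obtain ⟨a, b, hab⟩ := Submodule.mem_span_pair.mp h.2
      refine ⟨a, b, ?_⟩
      rw [hcomm, mul_assoc, JW_idem hδ, ← hab, add_mul, smul_mul_assoc, smul_mul_assoc, one_mul]
  | zero => exact ⟨0, 0, by rw [mul_zero, zero_mul, zero_smul, zero_smul, add_zero]⟩
  | add x y _ _ h1 h2 =>
    obtain ⟨a, b, h1⟩ := h1
    obtain ⟨c, d, h2⟩ := h2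
    refine ⟨a + c, b + d, ?_⟩
    rw [mul_add, add_mul, h1, h2, add_smul, add_smul]
    abel
  | smul c x _ h =>
    obtain ⟨a, b, h⟩ := h
    refine ⟨c * a, c * b, ?_⟩
    rw [mul_smul_comm, smul_mul_assoc, h, smul_add, smul_smul, smul_smul]

end SubfactorPlanarAlgebra

end Pool.Agent.ST5
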