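import Pool.Agent.ST5.P.E3
import Pool.Agent.ST5.P.A2

/-!
ST5 row E4. Supertransitivity 6: the Jones-Wenzl projections 0..6 are simple and inequivalent.

PROOF. `H_le_TL`: m + n odd: x = 0 (`S.odd_zero`). m + n = 2 k, k ≤ 6: x * R m ∈ H 0 (m+n) (x padded by m: H (2m) (n+m))
= TL 0 (2k) by hypothesis, and x = rp n (star (R m)) * (x * R m) (`unbend`) is in TL m n: R m ∈ TL 0 (2m) (cups),
star (R m) ∈ TL (2m) 0 (caps), `TL_rp`, `TL_pad`, `TL_mul`.
`JW_simple`: z JW k is a projection (z commutes with JW k ∈ H k k); for x ∈ H k k ⊆ TL k k (2k ≤ 12):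
(z JW k) x (z JW k) = z (JW k x JW k) = z (α JW k + β z JW k) = (α + β) z JW k. Nonzero by `JW_ne`.
`JW_ortho`: x = z JW k x JW j z = z (JW k * x * JW j) z = 0 by `JW_corner_ne` (j + k ≤ 12).
-/

namespace Pool.Agent.ST5

namespace SubfactorPlanarAlgebra

variable {T : Type*} [Ring T] [StarRing T] [Algebra ℂ T] [StarModule ℂ T]
  {S : SubfactorPlanarAlgebra T}

lemma E4_pad (k : ℕ) {m n : ℕ} {x : T} (hx : x ∈ S.TL m n) : x ∈ S.TL (m + k) (n + k) := by
  induction k with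
  | zero => exact hx
  | succ k ih => exact TL_pad ih

lemma E4_pad_to {m n m' n' : ℕ} (k : ℕ) {x : T} (h : x ∈ S.TL m n) (hm : m' = m + k)
    (hn : n' = n + k) : x ∈ S.TL m' n' := by
  subst hm; subst hn; exact E4_pad k h

lemma E4_mul {m n n' k : ℕ} {x y : T} (hx : x ∈ S.TL n k) (hy : y ∈ S.TL m n') (h : n = n') :
    x * y ∈ S.TL m k := by
  subst h; exact TL_mul hx hy

lemma E4_R (m : ℕ) : S.R m ∈ S.TL 0 (2 * m) := by
  induction m with
  | zero => exact Submodule.subset_span IsTL.one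
  | succ m ih =>
    have h0 : S.r ∈ S.TL 0 2 := Submodule.subset_span IsTL.cup
    have h1 : S.rp m S.r ∈ S.TL (2 * m) (2 * (m + 1)) :=
      E4_pad_to m (TL_rp m h0) (by omega) (by omega)
    rw [R_succ]
    exact TL_mul h1 ih

lemma E4_Rs (m : ℕ) : star (S.R m) ∈ S.TL (2 * m) 0 := by
  induction m with
  | zero =>
    rw [R_zero, star_one]
    exact Submodule.subset_span IsTL.one
  | succ m ih =>
    have h0 : star S.r ∈ S.TL 2 0 := Submodule.subset_span IsTL.cap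
    have h1 : S.rp m (star S.r) ∈ S.TL (2 * (m + 1)) (2 * m) :=
      E4_pad_to m (TL_rp m h0) (by omega) (by omega)
    rw [R_succ, star_mul, ← map_star]
    exact TL_mul ih h1

theorem H_le_TL (h : S.Supertransitive 6) {m n : ℕ} (hmn : m + n ≤ 12) {x : T}
    (hx : x ∈ S.H m n) : x ∈ S.TL m n := by
  rcases Nat.even_or_odd (m + n) with he | ho
  · obtain ⟨k, hk⟩ := he
    have h1 : x * S.R m ∈ S.H 0 (2 * k) := by
      have h2 : x ∈ S.H (2 * m) (2 * k) := pad_to m hx (by omega) (by omega)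
      exact mul_to h2 (S.R_mem m) rfl
    rw [h k (by omega)] at h1
    have h3 : S.rp n (star (S.R m)) ∈ S.TL (2 * m + n) n :=
      E4_pad_to 0 (TL_rp n (E4_Rs m)) (by omega) (by omega)
    have h4 : x * S.R m ∈ S.TL m (2 * m + n) := E4_pad_to m h1 (by omega) (by omega)
    rw [← unbend hx]
    exact TL_mul h3 h4
  · rw [S.odd_zero m n x ho hx]
    exact Submodule.zero_mem _

theorem JW_simple (h : S.Supertransitive 6) (hδ : 2 < S.δ) {k : ℕ} (hk : k ≤ 6) :
    S.IsSimple k (S.z * S.JW k) := by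
  have hJ : S.JW k ∈ S.H k k := TL_le k k (JW_TL hδ k)
  have hc : S.z * S.JW k = S.JW k * S.z := z_comm hJ
  refine ⟨⟨mul_to (S.z_mem k) hJ rfl, ?_, ?_, ?_⟩, JW_ne hδ k, ?_⟩
  · rw [star_mul, JW_star hδ, S.z_star, hc]
  · rw [mul_assoc, ← mul_assoc (S.JW k), ← hc, mul_assoc S.z (S.JW k), JW_idem hδ, ← mul_assoc,
      S.z_mul]
  · rw [← mul_assoc, S.z_mul]
  · intro x hx
    obtain ⟨α, β, hab⟩ := JW_corner_eq hδ (H_le_TL h (by omega) hx)
    refine ⟨α + β, ?_⟩
    have hJx : S.JW k * x ∈ S.H k k := mul_to hJ hx rfl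
    have hc2 : S.z * (S.JW k * x) = S.JW k * x * S.z := z_comm hJx
    have e : S.z * S.JW k * x * (S.z * S.JW k) = S.z * (S.JW k * x * S.JW k) := by
      calc S.z * S.JW k * x * (S.z * S.JW k) = S.z * ((S.JW k * x * S.z) * S.JW k) := by
            simp only [mul_assoc]
        _ = (S.z * S.z) * (S.JW k * x * S.JW k) := by
            rw [← hc2]; simp only [mul_assoc]
        _ = _ := by rw [S.z_mul]
    rw [e, hab, mul_add, mul_smul_comm, mul_smul_comm, ← mul_assoc, S.z_mul, ← add_smul]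

theorem JW_ortho (h : S.Supertransitive 6) (hδ : 2 < S.δ) {j k : ℕ} (hj : j ≤ 6) (hk : k ≤ 6)
    (hjk : j ≠ k) {x : T} (hx : x ∈ S.Hom j (S.z * S.JW j) k (S.z * S.JW k)) : x = 0 := by
  obtain ⟨hxH, h1, h2⟩ := hx
  have h0 := JW_corner_ne (S := S) hδ hjk (H_le_TL h (by omega) hxH)
  have hJ : S.JW j ∈ S.H j j := TL_le j j (JW_TL hδ j)
  have hc : S.z * S.JW j = S.JW j * S.z := z_comm hJ
  calc x = S.z * S.JW k * (x * (S.z * S.JW j)) := by rw [h2, h1]
    _ = S.z * (S.JW k * x * S.JW j) * S.z := by rw [hc]; simp only [mul_assoc]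
    _ = 0 := by rw [h0, mul_zero, zero_mul]

end SubfactorPlanarAlgebra

end Pool.Agent.ST5
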