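import Pool.Agent.ST5.P.E4
import Pool.Agent.ST5.P.E5a

/-!
ST5 row E5. The principal graph of a 6-supertransitive planar algebra begins with a path.

PROOF. For k ≤ 6 let e k be the index of `exists_iso` for the simple object z JW k at level k (`JW_simple`), with
v k ∈ Hom(p (e k), z JW k), star v v = p (e k), v star v = z JW k; for k > 6 let e k := o. (Take e 0 := o with
v 0 = z: z JW 0 = z = p o, a o = 0.) Injective on 0..6: if e j = e k, j ≠ k, then v k * star (v j) is a nonzero element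
of Hom(z JW j, z JW k) (its product with star (v k) on the left and v j on the right is p ≠ 0), contradiction with `JW_ortho`.
finrank Hom(p l; k, z JW k) = finrank Hom(p l; a (e k), p (e k)) (`finrank_iso` with w = v k) = [l = e k] (`finrank_self`).  (1)
G (e k) l = finrank Hom(p l; a (e k) + 1, p (e k)) = finrank Hom(p l; k + 1, z JW k) (`finrank_iso` with w = v k, padded).
 k = 0: z JW 0 = z = z JW 1: it is [l = e 1] by (1).
 1 ≤ k ≤ 5: `JW_split` with k-1: JW k = JW (k+1) + w star w at level k+1, w ∈ H (k-1) (k+1), star w w = JW (k-1), w JW (k-1) = w;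
 with z: z JW k = z JW (k+1) + (z w) star (z w), orthogonal (JW (k+1) w = 0). `finrank_add`, `finrank_iso` (for z w:
 star (z w) (z w) = z JW (k-1)) and (1): G (e k) l = [l = e (k+1)] + [l = e (k-1)], and e (k+1) ≠ e (k-1).
-/

namespace Pool.Agent.ST5

namespace SubfactorPlanarAlgebra

namespace SimpleSystem

variable {T : Type*} [Ring T] [StarRing T] [Algebra ℂ T] [StarModule ℂ T]
  {S : SubfactorPlanarAlgebra T} (Q : S.SimpleSystem)

theorem path (h : S.Supertransitive 6) (hδ : 2 < S.δ) :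
    ∃ e : ℕ → Q.J, e 0 = Q.o ∧ (∀ i ≤ 6, ∀ j ≤ 6, e i = e j → i = j) ∧
      ∀ k ≤ 5, ∀ l, Q.G (e k) l =
        if l = e (k + 1) then 1 else if 1 ≤ k ∧ l = e (k - 1) then 1 else 0 := by
  classical
  have hz1 : S.z * S.JW 0 = S.z := by rw [JW_zero, mul_one]
  have hz2 : S.z * S.JW 1 = S.z := by rw [JW_one, mul_one]
  have H : ∀ k : ℕ, ∃ (i : Q.J) (v : T), (k ≤ 6 → v ∈ S.Hom (Q.a i) (Q.p i) k (S.z * S.JW k) ∧
      star v * v = Q.p i ∧ v * star v = S.z * S.JW k) ∧ (k = 0 → i = Q.o) := by
    intro k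
    rcases Nat.eq_zero_or_pos k with rfl | hk0
    · refine ⟨Q.o, S.z, fun _ => ⟨?_, ?_, ?_⟩, fun _ => rfl⟩
      · rw [mem_Hom, Q.a_o, Q.p_o, hz1]
        exact ⟨S.z_mem 0, S.z_mul, S.z_mul⟩
      · rw [S.z_star, S.z_mul, Q.p_o]
      · rw [S.z_star, S.z_mul, hz1]
    · by_cases hk : k ≤ 6
      · obtain ⟨i, v, hv, h1, h2⟩ := Q.exists_iso (JW_simple h hδ hk)
        exact ⟨i, v, fun _ => ⟨hv, h1, h2⟩, fun h0 => absurd h0 (by omega)⟩
      · exact ⟨Q.o, 0, fun h' => absurd h' hk, fun _ => rfl⟩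
  choose e v hv he0 using H
  have hproj : ∀ k, k ≤ 6 → S.IsProj k (S.z * S.JW k) := fun k hk => (JW_simple h hδ hk).toIsProj
  have hinj : ∀ i ≤ 6, ∀ j ≤ 6, e i = e j → i = j := by
    intro i hi j hj hij
    by_contra hne
    obtain ⟨hvi, hvi1, hvi2⟩ := hv i hi
    obtain ⟨hvj, hvj1, hvj2⟩ := hv j hj
    rw [hij] at hvi hvi1
    have hpj := (Q.simple (e j)).toIsProj
    have hs : star (v j) ∈ S.Hom j (S.z * S.JW j) (Q.a (e j)) (Q.p (e j)) :=
      Hom_star hpj.star_eq (hproj j hj).star_eq hvj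
    have hx : v i * star (v j) ∈ S.Hom j (S.z * S.JW j) i (S.z * S.JW i) := Hom_mul hvi hs
    have h0 := JW_ortho h hδ hj hi (fun hji => hne hji.symm) hx
    have h1 : star (v i) * (v i * star (v j)) * v j = Q.p (e j) := by
      calc star (v i) * (v i * star (v j)) * v j = (star (v i) * v i) * (star (v j) * v j) := by
            simp only [mul_assoc]
        _ = _ := by rw [hvi1, hvj1, hpj.idem]
    rw [h0, mul_zero, zero_mul] at h1
    exact (Q.simple (e j)).ne_zero h1.symm
  have hfin : ∀ k, k ≤ 6 → ∀ l, Module.finrank ℂ (S.Hom (Q.a l) (Q.p l) k (S.z * S.JW k)) =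
      if l = e k then 1 else 0 := by
    intro k hk l
    obtain ⟨hvk, hvk1, hvk2⟩ := hv k hk
    rw [Q.finrank_iso (Q.simple (e k)).toIsProj (hproj k hk) hvk.1 hvk1 hvk2 l]
    exact Q.finrank_self l (e k)
  have hG : ∀ k, k ≤ 6 → ∀ l, Q.G (e k) l =
      Module.finrank ℂ (S.Hom (Q.a l) (Q.p l) (k + 1) (S.z * S.JW k)) := by
    intro k hk l
    obtain ⟨hvk, hvk1, hvk2⟩ := hv k hk
    exact (Q.finrank_iso ((Q.simple (e k)).toIsProj.pad 1) ((hproj k hk).pad 1)
      (S.pad _ _ _ hvk.1) hvk1 hvk2 l).symm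
  refine ⟨e, he0 0 rfl, hinj, fun k hk l => ?_⟩
  rw [hG k (by omega) l]
  rcases Nat.eq_zero_or_pos k with rfl | hk0
  · have h1 := hfin 1 (by omega) l
    rw [hz2] at h1
    rw [hz1, zero_add, h1]
    by_cases hl : l = e 1
    · rw [if_pos hl, if_pos hl]
    · rw [if_neg hl, if_neg hl, if_neg (by omega)]
  · obtain ⟨j, rfl⟩ : ∃ j, k = j + 1 := ⟨k - 1, by omega⟩
    obtain ⟨w, hw, hw1, hw2, hw3, hw4⟩ := JW_split hδ j
    have hzw : S.z * w = w * S.z := z_comm hw
    have hzsw : S.z * star w = star w * S.z := z_comm (star_mem' hw)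
    have hszw : star (S.z * w) = star w * S.z := by rw [star_mul, S.z_star]
    have hP2 : S.z * w * star (S.z * w) = S.z * (w * star w) := by
      rw [hszw]
      calc S.z * w * (star w * S.z) = S.z * w * (S.z * star w) := by rw [hzsw]
        _ = S.z * (w * S.z) * star w := by simp only [mul_assoc]
        _ = (S.z * S.z) * (w * star w) := by rw [← hzw]; simp only [mul_assoc]
        _ = _ := by rw [S.z_mul]
    have hP1 : star (S.z * w) * (S.z * w) = S.z * S.JW j := by
      rw [hszw]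
      calc star w * S.z * (S.z * w) = star w * (S.z * S.z) * w := by simp only [mul_assoc]
        _ = (star w * S.z) * w := by rw [S.z_mul]
        _ = S.z * (star w * w) := by rw [← hzsw, mul_assoc]
        _ = _ := by rw [hw1]
    have hzwH : S.z * w ∈ S.H j (j + 2) := S.mul_mem _ _ _ _ _ (S.z_mem (j + 2)) hw
    have hproj2 : S.IsProj (j + 2) (S.z * (w * star w)) := by
      refine ⟨?_, ?_, ?_, ?_⟩
      · exact S.mul_mem _ _ _ _ _ (S.z_mem (j + 2)) (S.mul_mem _ _ _ _ _ hw (star_mem' hw))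
      · rw [← hP2, star_mul, star_star]
      · have h5 : S.z * w * (S.z * S.JW j) = S.z * w := by
          calc S.z * w * (S.z * S.JW j) = S.z * (w * S.z) * S.JW j := by simp only [mul_assoc]
            _ = (S.z * S.z) * (w * S.JW j) := by rw [← hzw]; simp only [mul_assoc]
            _ = _ := by rw [S.z_mul, hw3]
        rw [← hP2]
        calc S.z * w * star (S.z * w) * (S.z * w * star (S.z * w))
            = S.z * w * (star (S.z * w) * (S.z * w)) * star (S.z * w) := by
              simp only [mul_assoc]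
          _ = _ := by rw [hP1, h5]
      · rw [← mul_assoc, S.z_mul]
    have hproj1 := hproj (j + 2) (by omega)
    have h12 : S.z * S.JW (j + 2) * (S.z * (w * star w)) = 0 := by
      have h6 : S.JW (j + 2) * S.z = S.z * S.JW (j + 2) := (z_comm (TL_le _ _ (JW_TL hδ (j + 2)))).symm
      calc S.z * S.JW (j + 2) * (S.z * (w * star w))
          = S.z * (S.JW (j + 2) * S.z) * w * star w := by simp only [mul_assoc]
        _ = S.z * S.z * (S.JW (j + 2) * w) * star w := by rw [h6]; simp only [mul_assoc]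
        _ = 0 := by rw [hw4, mul_zero, zero_mul]
    have hsum : S.z * S.JW (j + 1) = S.z * S.JW (j + 2) + S.z * (w * star w) := by
      rw [← mul_add, ← hw2]
    have hadd := Q.finrank_add hproj1 hproj2 h12 hsum l
    have hf1 := hfin (j + 2) (by omega) l
    have hf2 := hfin j (by omega) l
    have hf3 := Q.finrank_iso (hproj j (by omega)) hproj2 hzwH hP1 hP2 l
    rw [show j + 1 + 1 = j + 2 from rfl, hadd, hf1, hf3, hf2, Nat.add_sub_cancel]
    by_cases h7 : l = e (j + 2)
    · rw [if_pos h7, if_pos h7, if_neg]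
      intro h8
      have := hinj (j + 2) (by omega) j (by omega) (h7.symm.trans h8)
      omega
    · rw [if_neg h7, if_neg h7, zero_add]
      by_cases h8 : l = e j
      · rw [if_pos h8, if_pos ⟨by omega, h8⟩]
      · rw [if_neg h8, if_neg (fun h9 => h8 h9.2)]

end SimpleSystem

end SubfactorPlanarAlgebra

end Pool.Agent.ST5
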