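import Pool.Agent.ST5.P.Basic

/-!
ST5: Temperley-Lieb boxes and Jones-Wenzl projections (definitions).
-/

namespace Pool.Agent.ST5

namespace SubfactorPlanarAlgebra

variable {T : Type*} [Ring T] [StarRing T] [Algebra ℂ T] [StarModule ℂ T]
  {S : SubfactorPlanarAlgebra T}

lemma IsTL.mem_H {m n : ℕ} {x : T} (h : S.IsTL m n x) : x ∈ S.H m n := by
  induction h with
  | one => exact S.one_mem 0
  | shade => exact S.z_mem 0
  | cup => exact S.r_mem
  | cap => exact star_mem' S.r_mem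
  | right _ ih => exact S.pad _ _ _ ih
  | left _ ih => exact S.rho_mem _ _ _ ih
  | mul _ _ ih1 ih2 => exact S.mul_mem _ _ _ _ _ ih1 ih2

lemma TL_le (m n : ℕ) : S.TL m n ≤ S.H m n :=
  Submodule.span_le.mpr fun _ h => IsTL.mem_H h

variable (S)

/-- The coefficients of the Jones-Wenzl recursion. -/
noncomputable def jc : ℕ → ℝ
  | 0 => 0
  | (k + 1) => 1 / (S.δ - jc k)

/-- The Jones-Wenzl projections. -/
noncomputable def JW : ℕ → T
  | 0 => 1
  | 1 => 1
  | (k + 2) => JW (k + 1) -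
      (S.jc (k + 1) : ℂ) • (JW (k + 1) * S.rp k S.r * star (S.rp k S.r) * JW (k + 1))

lemma jc_succ (k : ℕ) : S.jc (k + 1) = 1 / (S.δ - S.jc k) := rfl

lemma JW_zero : S.JW 0 = 1 := by unfold JW; rfl

lemma JW_one : S.JW 1 = 1 := by unfold JW; rfl

lemma JW_succ (k : ℕ) : S.JW (k + 2) = S.JW (k + 1) -
      (S.jc (k + 1) : ℂ) • (S.JW (k + 1) * S.rp k S.r * star (S.rp k S.r) * S.JW (k + 1)) := by
  conv_lhs => unfold JW

end SubfactorPlanarAlgebra

end Pool.Agent.ST5
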