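import Pool.Agent.ST5.P.C2
import Pool.Agent.ST5.P.D9
import Pool.Agent.ST5.P.E5
import Pool.Agent.ST5.P.B5
import Pool.Agent.ST5.F.F7

/-!
ST5: the main theorem.
-/

namespace Pool.Agent.ST5

namespace SubfactorPlanarAlgebra

variable {T : Type*} [Ring T] [StarRing T] [Algebra ℂ T] [StarModule ℂ T]

theorem not_supertransitive_six (S : SubfactorPlanarAlgebra T) (hfd : S.FiniteDepth)
    (hδ : 2 < S.δ) (q : ℚ) (hq : S.δ ^ 2 = q) : ¬ S.Supertransitive 6 := by
  intro hst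
  obtain ⟨Q⟩ := exists_system hfd
  obtain ⟨e, he0, hinj, hrow⟩ := Q.path hst hδ
  exact linear_algebra_part Q.a Q.G Q.G_symm Q.G_parity Q.o Q.a_o Q.d Q.d_pos Q.d_o S.δ Q.pf
    Q.connected q hq (fun W => ∀ i, Q.VV W i) Q.L Q.trace_formula e he0 hinj hrow

theorem supertransitivity_le_five (S : SubfactorPlanarAlgebra T) (hfd : S.FiniteDepth)
    (hδ : 2 < S.δ) (hq : ∃ q : ℚ, S.δ ^ 2 = q) (N : ℕ) (hN : S.Supertransitive N) : N ≤ 5 := by
  obtain ⟨q, hq⟩ := hq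
  by_contra hlt
  exact S.not_supertransitive_six hfd hδ q hq fun k hk => hN k (by omega)

end SubfactorPlanarAlgebra

end Pool.Agent.ST5
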