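import Pool.Agent.ST5.P.A1

/-!
ST5: scalars, traces, projections, Hom spaces, simple objects (definitions).
-/

namespace Pool.Agent.ST5

namespace SubfactorPlanarAlgebra

variable {T : Type*} [Ring T] [StarRing T] [Algebra ℂ T] [StarModule ℂ T]
  (S : SubfactorPlanarAlgebra T)

open Classical in
/-- The coefficient of `z` in an element of `H 0 0`. -/
noncomputable def zc (y : T) : ℂ :=
  if h : ∃ c : ℂ, S.z * y = c • S.z then h.choose else 0

/-- The trace (closing all strings on the right, unshaded leftmost region). -/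
noncomputable def Tr (n : ℕ) (x : T) : ℂ := S.zc (star (S.R n) * x * S.R n)

/-- Projections of `z (H n n)`: the objects. -/
structure IsProj (n : ℕ) (p : T) : Prop where
  mem : p ∈ S.H n n
  star_eq : star p = p
  idem : p * p = p
  z_mul : S.z * p = p

/-- Morphisms between two projections. -/
def Hom (a : ℕ) (p : T) (b : ℕ) (q : T) : Submodule ℂ T where
  carrier := {x | x ∈ S.H a b ∧ q * x = x ∧ x * p = x}
  zero_mem' := ⟨Submodule.zero_mem _, by simp, by simp⟩
  add_mem' := by
    rintro x y ⟨hx, hx1, hx2⟩ ⟨hy, hy1, hy2⟩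
    exact ⟨Submodule.add_mem _ hx hy, by rw [mul_add, hx1, hy1], by rw [add_mul, hx2, hy2]⟩
  smul_mem' := by
    rintro c x ⟨hx, hx1, hx2⟩
    exact ⟨Submodule.smul_mem _ c hx, by rw [mul_smul_comm, hx1], by rw [smul_mul_assoc, hx2]⟩

lemma mem_Hom {a b : ℕ} {p q x : T} :
    x ∈ S.Hom a p b q ↔ x ∈ S.H a b ∧ q * x = x ∧ x * p = x := Iff.rfl

instance (a : ℕ) (p : T) (b : ℕ) (q : T) : FiniteDimensional ℂ (S.Hom a p b q) := by
  have : FiniteDimensional ℂ (S.H a b) := S.finite a b
  exact Submodule.finiteDimensional_of_le (S₂ := S.H a b) (fun x hx => hx.1)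

/-- Simple objects. -/
structure IsSimple (n : ℕ) (p : T) : Prop extends S.IsProj n p where
  ne_zero : p ≠ 0
  scalar : ∀ x ∈ S.H n n, ∃ c : ℂ, p * x * p = c • p

/-- `v` is a complete orthonormal family of morphisms from the simple objects `p j` to the
object `P`. -/
structure CFam {J : Type} [Fintype J] (a : J → ℕ) (p : J → T) (n : ℕ) (P : T) (ι : J → Type)
    [∀ j, Fintype (ι j)] [∀ j, DecidableEq (ι j)] (v : ∀ j, ι j → T) : Prop where
  mem : ∀ j s, v j s ∈ S.Hom (a j) (p j) n P
  orth : ∀ j s t, star (v j s) * v j t = if s = t then p j else 0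
  complete : ∑ j, ∑ s, v j s * star (v j s) = P

/-- A complete finite system of simple objects. -/
structure SimpleSystem where
  J : Type
  [fin : Fintype J]
  [dec : DecidableEq J]
  a : J → ℕ
  p : J → T
  simple : ∀ i, S.IsSimple (a i) (p i)
  ortho : ∀ i j, i ≠ j → ∀ x ∈ S.Hom (a i) (p i) (a j) (p j), x = 0
  o : J
  a_o : a o = 0
  p_o : p o = S.z
  exists_fam : ∀ n P, S.IsProj n P → ∃ (k : J → ℕ) (v : ∀ j, Fin (k j) → T),
    S.CFam a p n P (fun j => Fin (k j)) v

attribute [instance] SimpleSystem.fin SimpleSystem.dec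

end SubfactorPlanarAlgebra

end Pool.Agent.ST5
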