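import Pool.Agent.ST5.P.A2

/-!
ST5: the principal graph and the dimensions (definitions).
-/

namespace Pool.Agent.ST5

namespace SubfactorPlanarAlgebra

variable {T : Type*} [Ring T] [StarRing T] [Algebra ℂ T] [StarModule ℂ T]
  {S : SubfactorPlanarAlgebra T}

namespace SimpleSystem

variable (Q : S.SimpleSystem)

/-- The adjacency matrix of the principal graph: the multiplicity of `p j` in `p i ⊗ X`. -/
noncomputable def G : Matrix Q.J Q.J ℕ := fun i j =>
  Module.finrank ℂ (S.Hom (Q.a j) (Q.p j) (Q.a i + 1) (Q.p i))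

/-- The dimension of `p i`. -/
noncomputable def d (i : Q.J) : ℝ := (S.Tr (Q.a i) (Q.p i)).re

/-- Complete families for the object `P`, for a system of simple objects. -/
abbrev Fam (n : ℕ) (P : T) (ι : Q.J → Type) [∀ j, Fintype (ι j)] [∀ j, DecidableEq (ι j)]
    (v : ∀ j, ι j → T) : Prop :=
  S.CFam Q.a Q.p n P ι v

end SimpleSystem

end SubfactorPlanarAlgebra

end Pool.Agent.ST5
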